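import Pool.Agent.H2.Am.Basic

set_option autoImplicit false
set_option linter.all false

namespace Pool.Agent.H2.Am

section

variable {F Γ Γ' : Type} [Field F] [Group Γ] [Group Γ'] (p : Γ →* Γ')
  (hp : Function.Surjective p) {W : Type} [AddCommGroup W] [Module F W]
  (σ : Representation F Γ W)

/-- invariants of the kernel -/
def kinv : Submodule F W where
  carrier := {w | ∀ z, p z = 1 → σ z w = w}
  add_mem' := by
    intro a b ha hb z hz
    rw [map_add, ha z hz, hb z hz]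
  zero_mem' := by
    intro z hz
    rw [map_zero]
  smul_mem' := by
    intro r a ha z hz
    rw [map_smul, ha z hz]

theorem mem_kinv {w : W} : w ∈ kinv p σ ↔ ∀ z, p z = 1 → σ z w = w := Iff.rfl

theorem kinv_stable (g : Γ) : ∀ w ∈ kinv p σ, σ g w ∈ kinv p σ := by
  intro w hw z hz
  have h1 : σ (g⁻¹ * z * g) w = w := hw _ (by simp [hz])
  calc σ z (σ g w) = σ g (σ (g⁻¹ * z * g) w) := by
        rw [← Module.End.mul_apply, ← Module.End.mul_apply, ← map_mul, ← map_mul]
        congr 2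
        group
    _ = σ g w := by rw [h1]

theorem kinv_eq {g g' : Γ} (h : p g = p g') {w : W} (hw : w ∈ kinv p σ) : σ g w = σ g' w := by
  have h1 : σ (g'⁻¹ * g) w = w := hw _ (by simp [h])
  calc σ g w = σ g' (σ (g'⁻¹ * g) w) := by
        rw [← Module.End.mul_apply, ← map_mul]
        congr 2
        group
    _ = σ g' w := by rw [h1]

/-- the representation of the quotient on the invariants of the kernel -/
noncomputable def kinvRep : Representation F Γ' (kinv p σ) where
  toFun g := (σ (Function.surjInv hp g)).restrict (kinv_stable p σ _)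
  map_one' := by
    ext w
    simp only [LinearMap.restrict_coe_apply, Module.End.one_apply]
    exact w.2 _ (Function.surjInv_eq hp 1)
  map_mul' := by
    intro g h
    ext w
    simp only [LinearMap.restrict_coe_apply, Module.End.mul_apply]
    rw [← Module.End.mul_apply, ← map_mul]
    apply kinv_eq p σ _ w.2
    rw [map_mul, Function.surjInv_eq hp, Function.surjInv_eq hp, Function.surjInv_eq hp]

theorem kinvRep_apply (g : Γ) (w : kinv p σ) : (kinvRep p hp σ (p g) w : W) = σ g w := by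
  change σ (Function.surjInv hp (p g)) w = σ g w
  apply kinv_eq p σ _ w.2
  rw [Function.surjInv_eq hp]

end

/-- assembling a crossed homomorphism on the kernel to the whole group -/
theorem assembly {F Γ Γ' : Type} [Field F] [Group Γ] [Group Γ'] (p : Γ →* Γ')
    (hp : Function.Surjective p) (hG : Good F Γ')
    {E : Type} [Group E] (π : E →* Γ) (hπ : Function.Surjective π)
    {W : Type} [AddCommGroup W] [Module F W] [FiniteDimensional F W]
    (σ : Representation F Γ W) (c : E → W)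
    (hc : ∀ x y, p (π x) = 1 → p (π y) = 1 → c (x * y) = c x + σ (π x) (c y))
    (hw : ∀ g, ∃ w, ∀ x, p (π x) = 1 →
      σ (π g) (c (g⁻¹ * x * g)) - c x = σ (π x) w - w) :
    ∃ (P : Type) (_ : AddCommGroup P) (_ : Module F P) (_ : FiniteDimensional F P)
      (τ : Representation F Γ P) (a : W →ₗ[F] P), Function.Injective a ∧
      (∀ g v, a (σ g v) = τ g (a v)) ∧
      ∃ C : E → P, (∀ e e', C (e * e') = C e + τ (π e) (C e')) ∧
        ∀ x, p (π x) = 1 → C x = a (c x) := by
  classical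
  have hc1 : c 1 = 0 := by
    have := hc 1 1 (by simp) (by simp)
    simpa using this
  let σE : Representation F E W := σ.comp π
  have hσE : ∀ e w, σE e w = σ (π e) w := fun _ _ => rfl
  let N : Subgroup (SD σE) :=
    { carrier := {a | ∀ x, p (π x) = 1 →
        σ (π a.g) (c (a.g⁻¹ * x * a.g)) - c x = σ (π x) a.v - a.v}
      mul_mem' := by
        intro a b ha hb x hx
        have h1 := ha x hx
        have h2 := hb (a.g⁻¹ * x * a.g) (by simp [hx])
        simp only [SD.mul_v, SD.mul_g, hσE, map_add]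
        have e1 : (a.g * b.g)⁻¹ * x * (a.g * b.g) = b.g⁻¹ * (a.g⁻¹ * x * a.g) * b.g := by group
        have e2 : σ (π (a.g * b.g)) (c (b.g⁻¹ * (a.g⁻¹ * x * a.g) * b.g)) =
            σ (π a.g) (σ (π b.g) (c (b.g⁻¹ * (a.g⁻¹ * x * a.g) * b.g))) := by
          rw [map_mul, map_mul, Module.End.mul_apply]
        have e3 : σ (π a.g) (σ (π (a.g⁻¹ * x * a.g)) b.v) = σ (π x) (σ (π a.g) b.v) := by
          rw [← Module.End.mul_apply, ← Module.End.mul_apply, ← map_mul, ← map_mul, ← map_mul,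
            ← map_mul]
          congr 3
          group
        have h3 := congrArg (σ (π a.g)) h2
        rw [map_sub, map_sub, e3] at h3
        rw [e1, e2]
        calc _ = (σ (π a.g) (c (a.g⁻¹ * x * a.g)) - c x) +
              (σ (π a.g) (σ (π b.g) (c (b.g⁻¹ * (a.g⁻¹ * x * a.g) * b.g))) -
                σ (π a.g) (c (a.g⁻¹ * x * a.g))) := by abel
          _ = _ := by rw [h1, h3]; abel
      one_mem' := by
        intro x hx
        change σ (π 1) (c (1⁻¹ * x * 1)) - c x = σ (π x) 0 - 0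
        simp
      inv_mem' := by
        intro a ha x hx
        have h2 := ha (a.g * x * a.g⁻¹) (by simp [hx])
        have e1 : a.g⁻¹ * (a.g * x * a.g⁻¹) * a.g = x := by group
        rw [e1] at h2
        have h3 := congrArg (σ (π a.g⁻¹)) h2
        have e3 : σ (π a.g⁻¹) (σ (π (a.g * x * a.g⁻¹)) a.v) = σ (π x) (σ (π a.g⁻¹) a.v) := by
          rw [← Module.End.mul_apply, ← Module.End.mul_apply, ← map_mul, ← map_mul, ← map_mul,
            ← map_mul]
          congr 3
          group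
        have e4 : σ (π a.g⁻¹) (σ (π a.g) (c x)) = c x := by
          rw [← Module.End.mul_apply, ← map_mul, ← map_mul]
          simp
        rw [map_sub, map_sub, e3, e4] at h3
        simp only [SD.inv_v, SD.inv_g, hσE, map_neg, inv_inv]
        have h6 : σ (π a.g⁻¹) (c (a.g * x * a.g⁻¹)) - c x =
            -(c x - σ (π a.g⁻¹) (c (a.g * x * a.g⁻¹))) := by abel
        rw [h6, h3]
        abel }
  have memN : ∀ a : SD σE, a ∈ N ↔ ∀ x, p (π x) = 1 →
        σ (π a.g) (c (a.g⁻¹ * x * a.g)) - c x = σ (π x) a.v - a.v := fun _ => Iff.rfl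
  let q : N →* Γ' := (p.comp π).comp ((SD.proj σE).comp N.subtype)
  have hq : ∀ a : N, q a = p (π a.1.g) := fun _ => rfl
  have hqs : Function.Surjective q := by
    intro g'
    obtain ⟨g, rfl⟩ := hp g'
    obtain ⟨e, rfl⟩ := hπ g
    obtain ⟨w, hw'⟩ := hw e
    exact ⟨⟨⟨w, e⟩, hw'⟩, rfl⟩
  -- graph elements
  have hgr : ∀ g, p (π g) = 1 → (⟨c g, g⟩ : SD σE) ∈ N := by
    intro g hg x hx
    simp only
    have h1 := hc g (g⁻¹ * x * g) hg (by simp [hx])
    have h2 := hc x g hx hg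
    have e1 : g * (g⁻¹ * x * g) = x * g := by group
    rw [e1, h2] at h1
    have : σ (π g) (c (g⁻¹ * x * g)) = c x + σ (π x) (c g) - c g := by rw [h1]; abel
    rw [this]
    abel
  have hdiff : ∀ (w w' : W) (g : E), (⟨w, g⟩ : SD σE) ∈ N → (⟨w', g⟩ : SD σE) ∈ N →
      w - w' ∈ kinv p σ := by
    intro w w' g h h' z hz
    obtain ⟨x, rfl⟩ := hπ z
    have h1 := h x hz
    have h2 := h' x hz
    simp only at h1 h2
    rw [h1] at h2
    rw [map_sub]
    have := sub_eq_zero.mpr h2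
    rw [← sub_eq_zero]
    rw [← this]
    abel
  let V0 := kinv p σ
  let jj : N → V0 := fun a => if h : a.1.v - c a.1.g ∈ kinv p σ then ⟨_, h⟩ else 0
  have hjj : ∀ a : N, q a = 1 → (jj a : W) = a.1.v - c a.1.g := by
    intro a ha
    have : a.1.v - c a.1.g ∈ kinv p σ := hdiff _ _ a.1.g a.2 (hgr _ ha)
    simp only [jj, dif_pos this]
  have hkerV0 : ∀ a : N, q a = 1 → ∀ w ∈ kinv p σ, σ (π a.1.g) w = w := by
    intro a ha w hw
    exact hw _ ha
  obtain ⟨V'', i1, i2, i3, ρ'', ii, hii, hie, cc, hcc, hck⟩ := hG N q hqs V0 (kinvRep p hp σ) jj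
    (by
      intro k k' hk hk'
      apply Subtype.ext
      have hkk : q (k * k') = 1 := by rw [map_mul, hk, hk', one_mul]
      rw [hjj _ hkk, Submodule.coe_add, hjj _ hk, hjj _ hk']
      have h1 : σ (π k.1.g) (k'.1.v - c k'.1.g) = k'.1.v - c k'.1.g := by
        have := hkerV0 k hk (jj k' : W) (jj k').2
        rwa [hjj _ hk'] at this
      change k.1.v + σ (π k.1.g) k'.1.v - c (k.1.g * k'.1.g) = _
      rw [hc k.1.g k'.1.g hk hk']
      rw [map_sub] at h1
      have h2 : σ (π k.1.g) k'.1.v = k'.1.v - c k'.1.g + σ (π k.1.g) (c k'.1.g) := by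
        rw [← h1]; abel
      rw [h2]
      abel)
    (by
      intro e k hk
      apply Subtype.ext
      have hkk : q (e * k * e⁻¹) = 1 := by rw [map_mul, map_mul, hk]; simp
      rw [hjj _ hkk, hq e, kinvRep_apply, hjj _ hk]
      change e.1.v + σ (π e.1.g) k.1.v + σ (π (e.1.g * k.1.g)) (-(σ (π e.1.g⁻¹) e.1.v)) -
        c (e.1.g * k.1.g * e.1.g⁻¹) = _
      have h1 := e.2 (e.1.g * k.1.g * e.1.g⁻¹) hkk
      have e1 : e.1.g⁻¹ * (e.1.g * k.1.g * e.1.g⁻¹) * e.1.g = k.1.g := by group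
      rw [e1] at h1
      have h2 : σ (π (e.1.g * k.1.g)) (-(σ (π e.1.g⁻¹) e.1.v)) =
          -(σ (π (e.1.g * k.1.g * e.1.g⁻¹)) e.1.v) := by
        rw [map_neg, map_mul π (e.1.g * k.1.g), map_mul σ, Module.End.mul_apply]
      rw [h2, map_sub]
      have h3 : c (e.1.g * k.1.g * e.1.g⁻¹) = σ (π e.1.g) (c k.1.g) -
          (σ (π (e.1.g * k.1.g * e.1.g⁻¹)) e.1.v - e.1.v) := by
        rw [← h1]; abel
      rw [h3]
      abel)
  obtain ⟨P, j1, j2, j3, τ, a, b, ha, hb, hae, hbe, hab⟩ := pushout (Γ := Γ) V0 W V''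
    ((kinvRep p hp σ).comp p) σ (ρ''.comp p) V0.subtype ii (Submodule.injective_subtype _) hii
    (by
      intro g v
      exact kinvRep_apply p hp σ g v)
    (by
      intro g v
      exact hie (p g) v)
  refine ⟨P, j1, j2, j3, τ, a, ha, hae, ?_⟩
  choose w hww using hw
  -- independence
  have hind : ∀ (w w' : W) (g : E) (h : (⟨w, g⟩ : SD σE) ∈ N) (h' : (⟨w', g⟩ : SD σE) ∈ N),
      a w - b (cc ⟨_, h⟩) = a w' - b (cc ⟨_, h'⟩) := by
    intro w w' g h h'
    have hv : w - w' ∈ kinv p σ := hdiff w w' g h h'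
    have hv' : (⟨w - w', 1⟩ : SD σE) ∈ N := by
      intro x hx
      simp only [map_one, Module.End.one_apply, inv_one, one_mul, mul_one, sub_self]
      rw [hv _ hx, sub_self]
    have e1 : (⟨_, h⟩ : N) = ⟨_, hv'⟩ * ⟨_, h'⟩ := by
      apply Subtype.ext
      ext
      · simp
      · simp
    have h1 := hcc ⟨_, hv'⟩ ⟨_, h'⟩
    have hq1 : q ⟨_, hv'⟩ = 1 := by rw [hq]; simp
    rw [← e1, hq1, map_one, Module.End.one_apply, hck _ hq1] at h1
    have h2 : (jj ⟨_, hv'⟩ : W) = w - w' := by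
      rw [hjj _ hq1]; simp [hc1]
    rw [h1, map_add, ← hab]
    have h3 : V0.subtype (jj ⟨_, hv'⟩) = w - w' := h2
    rw [h3, map_sub]
    abel
  refine ⟨fun g => a (w g) - b (cc ⟨⟨w g, g⟩, hww g⟩), ?_, ?_⟩
  · intro e e'
    have hm : (⟨w e + σ (π e) (w e'), e * e'⟩ : SD σE) ∈ N :=
      N.mul_mem (show (⟨w e, e⟩ : SD σE) ∈ N from hww e)
        (show (⟨w e', e'⟩ : SD σE) ∈ N from hww e')
    change a (w (e * e')) - b (cc ⟨⟨w (e * e'), e * e'⟩, hww (e * e')⟩) =
      (a (w e) - b (cc ⟨⟨w e, e⟩, hww e⟩)) + τ (π e) (a (w e') - b (cc ⟨⟨w e', e'⟩, hww e'⟩))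
    rw [hind _ _ _ _ hm]
    have e1 : (⟨_, hm⟩ : N) = ⟨⟨w e, e⟩, hww e⟩ * ⟨⟨w e', e'⟩, hww e'⟩ := rfl
    rw [e1, hcc, map_add, map_add, hae, map_sub, hq]
    have : b (ρ'' (p (π e)) (cc ⟨⟨w e', e'⟩, hww e'⟩)) = τ (π e) (b (cc ⟨⟨w e', e'⟩, hww e'⟩)) :=
      hbe _ _
    rw [this]
    abel
  · intro x hx
    change a (w x) - b (cc ⟨⟨w x, x⟩, hww x⟩) = _
    rw [hind _ _ _ _ (hgr x hx)]
    have hq1 : q ⟨_, hgr x hx⟩ = 1 := hx
    rw [hck _ hq1]
    have h2 : (jj ⟨_, hgr x hx⟩ : W) = 0 := by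
      rw [hjj _ hq1]; simp
    have h3 : jj ⟨_, hgr x hx⟩ = 0 := Subtype.ext h2
    rw [h3, map_zero, map_zero, sub_zero]

end Pool.Agent.H2.Am
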