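import Mathlib

set_option autoImplicit false
set_option linter.all false

namespace Pool.Agent.H2.Am

/-- goodness of a group over a field: second cohomology classes with finite-dimensional
coefficients are killed in larger finite-dimensional modules. -/
def Good (F : Type) [Field F] (Γ : Type) [Group Γ] : Prop :=
  ∀ (E : Type) [Group E] (π : E →* Γ), Function.Surjective π →
  ∀ (V : Type) [AddCommGroup V] [Module F V] [FiniteDimensional F V]
    (ρ : Representation F Γ V) (j : E → V),
    (∀ k k', π k = 1 → π k' = 1 → j (k * k') = j k + j k') →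
    (∀ e k, π k = 1 → j (e * k * e⁻¹) = ρ (π e) (j k)) →
    ∃ (V' : Type) (_ : AddCommGroup V') (_ : Module F V') (_ : FiniteDimensional F V')
      (ρ' : Representation F Γ V') (i : V →ₗ[F] V'), Function.Injective i ∧
      (∀ g v, i (ρ g v) = ρ' g (i v)) ∧
      ∃ c : E → V', (∀ e e', c (e * e') = c e + ρ' (π e) (c e')) ∧
        ∀ k, π k = 1 → c k = i (j k)

section pushout

variable {F : Type} [Field F] {Γ : Type} [Group Γ]

/-- pushouts of finite-dimensional representations along injections -/
theorem pushout (A B1 B2 : Type) [AddCommGroup A] [Module F A]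
    [AddCommGroup B1] [Module F B1] [FiniteDimensional F B1]
    [AddCommGroup B2] [Module F B2] [FiniteDimensional F B2]
    (σ0 : Representation F Γ A) (σ1 : Representation F Γ B1) (σ2 : Representation F Γ B2)
    (i1 : A →ₗ[F] B1) (i2 : A →ₗ[F] B2) (h1 : Function.Injective i1)
    (h2 : Function.Injective i2) (e1 : ∀ g v, i1 (σ0 g v) = σ1 g (i1 v))
    (e2 : ∀ g v, i2 (σ0 g v) = σ2 g (i2 v)) :
    ∃ (P : Type) (_ : AddCommGroup P) (_ : Module F P) (_ : FiniteDimensional F P)
      (σ : Representation F Γ P) (a : B1 →ₗ[F] P) (b : B2 →ₗ[F] P),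
      Function.Injective a ∧ Function.Injective b ∧ (∀ g v, a (σ1 g v) = σ g (a v)) ∧
      (∀ g v, b (σ2 g v) = σ g (b v)) ∧ ∀ v, a (i1 v) = b (i2 v) := by
  let R : Submodule F (B1 × B2) := LinearMap.range (i1.prod (-i2))
  let s : Γ → (B1 × B2) →ₗ[F] (B1 × B2) := fun g => (σ1 g).prodMap (σ2 g)
  have hs : ∀ g, R ≤ R.comap (s g) := by
    rintro g _ ⟨v, rfl⟩
    refine ⟨σ0 g v, ?_⟩
    simp [s, e1, e2]
  let σ : Representation F Γ ((B1 × B2) ⧸ R) :=
    { toFun := fun g => R.mapQ R (s g) (hs g)
      map_one' := by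
        ext x
        · simp [s]
        · simp [s]
      map_mul' := by
        intro g h
        ext x
        · simp [s]
        · simp [s] }
  refine ⟨(B1 × B2) ⧸ R, inferInstance, inferInstance, inferInstance, σ,
    R.mkQ ∘ₗ LinearMap.inl F B1 B2, R.mkQ ∘ₗ LinearMap.inr F B1 B2, ?_, ?_, ?_, ?_, ?_⟩
  · rw [injective_iff_map_eq_zero]
    intro x hx
    rw [LinearMap.comp_apply, Submodule.mkQ_apply, Submodule.Quotient.mk_eq_zero] at hx
    obtain ⟨v, hv⟩ := hx
    have hv1 : i1 v = x := congrArg Prod.fst hv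
    have hv2 : -(i2 v) = 0 := congrArg Prod.snd hv
    have : v = 0 := h2 (by rw [neg_eq_zero.mp hv2, map_zero])
    rw [← hv1, this, map_zero]
  · rw [injective_iff_map_eq_zero]
    intro x hx
    rw [LinearMap.comp_apply, Submodule.mkQ_apply, Submodule.Quotient.mk_eq_zero] at hx
    obtain ⟨v, hv⟩ := hx
    have hv1 : i1 v = 0 := congrArg Prod.fst hv
    have hv2 : -(i2 v) = x := congrArg Prod.snd hv
    have : v = 0 := h1 (by rw [hv1, map_zero])
    rw [← hv2, this, map_zero, neg_zero]
  · intro g v
    simp [σ, s]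
  · intro g v
    simp [σ, s]
  · intro v
    rw [LinearMap.comp_apply, LinearMap.comp_apply, Submodule.mkQ_apply, Submodule.mkQ_apply,
      Submodule.Quotient.eq]
    exact ⟨v, by simp⟩

end pushout

/-- semidirect product of a representation space with the group -/
@[ext] structure SD {F E W : Type} [Field F] [Group E] [AddCommGroup W] [Module F W]
    (σ : Representation F E W) where
  v : W
  g : E

namespace SD

variable {F E W : Type} [Field F] [Group E] [AddCommGroup W] [Module F W]
    (σ : Representation F E W)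

instance : Mul (SD σ) := ⟨fun a b => ⟨a.v + σ a.g b.v, a.g * b.g⟩⟩
instance : One (SD σ) := ⟨⟨0, 1⟩⟩
instance : Inv (SD σ) := ⟨fun a => ⟨-(σ a.g⁻¹ a.v), a.g⁻¹⟩⟩

@[simp] theorem mul_v (a b : SD σ) : (a * b).v = a.v + σ a.g b.v := rfl
@[simp] theorem mul_g (a b : SD σ) : (a * b).g = a.g * b.g := rfl
@[simp] theorem one_v : (1 : SD σ).v = 0 := rfl
@[simp] theorem one_g : (1 : SD σ).g = 1 := rfl
@[simp] theorem inv_v (a : SD σ) : (a⁻¹).v = -(σ a.g⁻¹ a.v) := rfl
@[simp] theorem inv_g (a : SD σ) : (a⁻¹).g = a.g⁻¹ := rfl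

instance : Group (SD σ) where
  mul_assoc a b c := by
    ext
    · simp [add_assoc]
    · simp [mul_assoc]
  one_mul a := by ext <;> simp
  mul_one a := by ext <;> simp
  inv_mul_cancel a := by ext <;> simp

/-- the projection to the group -/
def proj : SD σ →* E where
  toFun := fun a => a.g
  map_one' := rfl
  map_mul' := fun _ _ => rfl

@[simp] theorem proj_apply (a : SD σ) : proj σ a = a.g := rfl

end SD

end Pool.Agent.H2.Am
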