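import Pool.Agent.H2.Am.FinKer

set_option autoImplicit false
set_option linter.all false

namespace Pool.Agent.H2.Am

open Polynomial in
theorem aeval_mem {F W : Type} [Field F] [AddCommGroup W] [Module F W] (x : Module.End F W)
    (u : W) (S : Submodule F W) (q : F[X]) (n : ℕ) (hq : ∀ k, n ≤ k → q.coeff k = 0)
    (hS : ∀ k < n, (x ^ k) u ∈ S) : (aeval x q) u ∈ S := by
  rw [aeval_eq_sum_range, LinearMap.sum_apply]
  refine Submodule.sum_mem _ (fun k _ => ?_)
  rw [LinearMap.smul_apply]
  by_cases hk : k < n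
  · exact Submodule.smul_mem _ _ (hS k hk)
  · rw [hq k (not_lt.mp hk), zero_smul]
    exact Submodule.zero_mem _

open Polynomial in
theorem lemS {F W : Type} [Field F] [CharZero F] [AddCommGroup W] [Module F W]
    (z x : Module.End F W) (h : z * x = (x - 1) * z) :
    ∀ (m : ℕ) (u : W), ((z - 1) ^ m) u = 0 →
      ∀ j : ℕ, (x ^ j) u ∈ LinearMap.range (z - 1) := by
  have hsc : SemiconjBy z x (x - 1) := h
  intro m
  induction m with
  | zero =>
    intro u hu j
    have : u = 0 := by simpa using hu
    rw [this, map_zero]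
    exact Submodule.zero_mem _
  | succ m ih =>
    intro u hu j
    have hu' : ((z - 1) ^ m) ((z - 1) u) = 0 := by
      rw [← Module.End.mul_apply, ← pow_succ]; exact hu
    have ih' := ih _ hu'
    induction j using Nat.strong_induction_on with
    | _ j ihj =>
      let P : F[X] := (X + C (-1)) ^ (j + 1)
      let Q : F[X] := P - X ^ (j + 1) + C ((j : F) + 1) * X ^ j
      have hQ : ∀ k, j ≤ k → Q.coeff k = 0 := by
        intro k hk
        simp only [Q, P, coeff_add, coeff_sub, coeff_X_add_C_pow, coeff_C_mul, coeff_X_pow]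
        rcases Nat.lt_or_ge k (j + 1) with h1 | h1
        · have : k = j := by omega
          subst this
          simp
        · rcases Nat.lt_or_ge k (j + 2) with h2 | h2
          · have : k = j + 1 := by omega
            subst this
            simp
          · rw [Nat.choose_eq_zero_of_lt (by omega), if_neg (by omega), if_neg (by omega)]
            simp
      have hP : aeval x P = (x - 1) ^ (j + 1) := by
        simp [P, sub_eq_add_neg]
      have hQa : aeval x Q = (x - 1) ^ (j + 1) - x ^ (j + 1) + ((j : F) + 1) • x ^ j := by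
        simp only [Q, map_add, map_sub, hP, map_mul, map_pow, aeval_X, aeval_C]
        rw [Algebra.smul_def]
        simp
      have m1 : (aeval x Q) u ∈ LinearMap.range (z - 1) := aeval_mem x u _ Q j hQ ihj
      have m2 : ((x - 1) ^ (j + 1)) ((z - 1) u) ∈ LinearMap.range (z - 1) := by
        rw [← hP]
        exact aeval_mem x _ _ P (P.natDegree + 1)
          (fun k hk => coeff_eq_zero_of_natDegree_lt (by omega)) (fun k _ => ih' k)
      have m3 : (z - 1) ((x ^ (j + 1)) u) ∈ LinearMap.range (z - 1) := ⟨_, rfl⟩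
      have e1 : (z - 1) ((x ^ (j + 1)) u) = ((x - 1) ^ (j + 1)) (z u) - (x ^ (j + 1)) u := by
        rw [LinearMap.sub_apply, Module.End.one_apply, ← Module.End.mul_apply,
          ← Module.End.mul_apply, (hsc.pow_right (j + 1)).eq]
      have e2 : ((j : F) + 1) • (x ^ j) u = (aeval x Q) u + ((x - 1) ^ (j + 1)) ((z - 1) u) -
          (z - 1) ((x ^ (j + 1)) u) := by
        rw [e1, hQa]
        simp only [LinearMap.add_apply, LinearMap.sub_apply, LinearMap.smul_apply, map_sub,
          Module.End.one_apply]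
        abel
      have m4 : ((j : F) + 1) • (x ^ j) u ∈ LinearMap.range (z - 1) := by
        rw [e2]
        exact Submodule.sub_mem _ (Submodule.add_mem _ m1 m2) m3
      have hj : ((j : F) + 1) ≠ 0 := by exact_mod_cast Nat.succ_ne_zero j
      have := Submodule.smul_mem _ ((j : F) + 1)⁻¹ m4
      rwa [smul_smul, inv_mul_cancel₀ hj, one_smul] at this

theorem surj_of_locfin {F X : Type} [Field F] [CharZero F] [AddCommGroup X] [Module F X]
    (z x : Module.End F X) (h : z * x = (x - 1) * z) (M : Submodule F X)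
    (hz : ∀ u ∈ M, z u ∈ M) (hx : ∀ u ∈ M, x u ∈ M)
    (hlf : ∀ u ∈ M, ∃ U : Submodule F X, FiniteDimensional F U ∧ U ≤ M ∧ u ∈ U ∧
      ∀ v ∈ U, z v ∈ U) :
    ∀ u ∈ M, ∃ w ∈ M, z w - w = u := by
  intro u hu
  obtain ⟨U, hUf, hUM, huU, hUz⟩ := hlf u hu
  let z' : Module.End F M := z.restrict hz
  let x' : Module.End F M := x.restrict hx
  have h' : z' * x' = (x' - 1) * z' := by
    ext v
    exact congrArg (fun f : Module.End F X => f v) h
  have hT : ∀ v ∈ U, (z - 1) v ∈ U := fun v hv => U.sub_mem (hUz v hv) hv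
  let T : Module.End F U := (z - 1).restrict hT
  have hTpow : ∀ (n : ℕ) (v : U), ((T ^ n) v : X) = ((z - 1) ^ n) v := by
    intro n
    induction n with
    | zero => intro v; rfl
    | succ n ih =>
      intro v
      rw [pow_succ, pow_succ, Module.End.mul_apply, Module.End.mul_apply, ih]
      rfl
  have hz'pow : ∀ (n : ℕ) (v : M), (((z' - 1) ^ n) v : X) = ((z - 1) ^ n) v := by
    intro n
    induction n with
    | zero => intro v; rfl
    | succ n ih =>
      intro v
      rw [pow_succ, pow_succ, Module.End.mul_apply, Module.End.mul_apply, ih]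
      rfl
  obtain ⟨k, hk⟩ := Filter.eventually_atTop.mp T.eventually_isCompl_ker_pow_range_pow
  have hk1 := hk (k + 1) (by omega)
  have htop : (⟨u, huU⟩ : U) ∈ LinearMap.ker (T ^ (k + 1)) ⊔ LinearMap.range (T ^ (k + 1)) := by
    rw [hk1.sup_eq_top]; trivial
  obtain ⟨u0, hu0, u1, hu1, hsum⟩ := Submodule.mem_sup.mp htop
  obtain ⟨y, hy⟩ := hu1
  have hu0M : (u0 : X) ∈ M := hUM u0.2
  have hker : ((z' - 1) ^ (k + 1)) ⟨u0, hu0M⟩ = 0 := by
    apply Subtype.ext
    rw [hz'pow]
    have : (T ^ (k + 1)) u0 = 0 := hu0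
    have h2 := hTpow (k + 1) u0
    rw [this] at h2
    simpa using h2.symm
  obtain ⟨w0, hw0⟩ := lemS z' x' h' (k + 1) _ hker 0
  refine ⟨(w0 : X) + ((T ^ k) y : X), M.add_mem w0.2 (hUM ((T ^ k) y).2), ?_⟩
  have e0 : z w0 - w0 = (u0 : X) := by
    have := congrArg (fun v : M => (v : X)) hw0
    exact this
  have e1 : z ((T ^ k) y : X) - ((T ^ k) y : X) = (u1 : X) := by
    have h3 : T ((T ^ k) y) = u1 := by
      rw [← Module.End.mul_apply, ← pow_succ']
      exact hy
    have := congrArg (fun v : U => (v : X)) h3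
    exact this
  have e2 : (u0 : X) + (u1 : X) = u := congrArg (fun v : U => (v : X)) hsum
  rw [map_add, ← e2, ← e0, ← e1]
  abel

end Pool.Agent.H2.Am
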