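import Pool.Agent.H2.Am.Beta1

set_option autoImplicit false
set_option linter.all false

namespace Pool.Agent.H2.Am

section step

variable {F E W : Type} [Field F] [Group E] [AddCommGroup W] [Module F W]
  (σ : Representation F E W)

/-- crossed homomorphisms on a subgroup -/
def Crossed (Y : Subgroup E) (d : E → W) : Prop :=
  ∀ x ∈ Y, ∀ y ∈ Y, d (x * y) = d x + σ x (d y)

variable {σ}

theorem Crossed.one {Y : Subgroup E} {d : E → W} (h : Crossed σ Y d) : d 1 = 0 := by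
  have := h 1 Y.one_mem 1 Y.one_mem
  simpa using this

theorem Crossed.inv {Y : Subgroup E} {d : E → W} (h : Crossed σ Y d) {x : E} (hx : x ∈ Y) :
    d x⁻¹ = -(σ x⁻¹ (d x)) := by
  have := h x⁻¹ (Y.inv_mem hx) x hx
  rw [inv_mul_cancel, h.one] at this
  exact eq_neg_of_add_eq_zero_left this.symm

/-- the zero locus -/
def Crossed.zeros {Y : Subgroup E} {d : E → W} (h : Crossed σ Y d) : Subgroup E where
  carrier := {x | x ∈ Y ∧ d x = 0}
  mul_mem' := by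
    rintro a b ⟨ha, ha'⟩ ⟨hb, hb'⟩
    exact ⟨Y.mul_mem ha hb, by rw [h a ha b hb, ha', hb', map_zero, add_zero]⟩
  one_mem' := ⟨Y.one_mem, h.one⟩
  inv_mem' := by
    rintro a ⟨ha, ha'⟩
    exact ⟨Y.inv_mem ha, by rw [h.inv ha, ha', map_zero, neg_zero]⟩

/-- the locus where the values lie in a stable subspace -/
def Crossed.locus {Y : Subgroup E} {d : E → W} (h : Crossed σ Y d) (U : Submodule F W)
    (hU : ∀ g, ∀ v ∈ U, σ g v ∈ U) : Subgroup E where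
  carrier := {x | x ∈ Y ∧ d x ∈ U}
  mul_mem' := by
    rintro a b ⟨ha, ha'⟩ ⟨hb, hb'⟩
    exact ⟨Y.mul_mem ha hb, by rw [h a ha b hb]; exact U.add_mem ha' (hU _ _ hb')⟩
  one_mem' := ⟨Y.one_mem, by rw [h.one]; exact U.zero_mem⟩
  inv_mem' := by
    rintro a ⟨ha, ha'⟩
    exact ⟨Y.inv_mem ha, by rw [h.inv ha]; exact U.neg_mem (hU _ _ ha')⟩

theorem crossed_bdry (Y : Subgroup E) (w : W) : Crossed σ Y (fun x => σ x w - w) := by
  intro x _ y _
  simp only [map_sub, map_mul, Module.End.mul_apply]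
  abel

theorem Crossed.sub {Y : Subgroup E} {d d' : E → W} (h : Crossed σ Y d) (h' : Crossed σ Y d') :
    Crossed σ Y (fun x => d x - d' x) := by
  intro x hx y hy
  simp only
  rw [h x hx y hy, h' x hx y hy, map_sub]
  abel

variable (σ)

/-- vanishing of first cohomology relative to `K` -/
def H1 (K Y : Subgroup E) : Prop :=
  ∀ d : E → W, Crossed σ Y d → (∀ k ∈ K, d k = 0) → ∃ w, ∀ y ∈ Y, d y = σ y w - w

/-- extension of `j` to `Y` -/
def H2 (K Y : Subgroup E) (j : E → W) : Prop :=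
  ∃ c : E → W, Crossed σ Y c ∧ ∀ k ∈ K, c k = j k

theorem step1 (K Y' Y : Subgroup E) (hKY : K ≤ Y') (hY : Y' ≤ Y) (t : E) (ht : t ∈ Y)
    (χ : E → ℤ) (hχ : ∀ x ∈ Y, ∀ y ∈ Y, χ (x * y) = χ x + χ y) (hχt : χ t = 1)
    (hχY : ∀ y ∈ Y, y ∈ Y' ↔ χ y = 0)
    (hsurj : ∀ u, (∀ y ∈ Y', σ y u = u) → ∃ w, (∀ y ∈ Y', σ y w = w) ∧ σ t w - w = u)
    (h1 : H1 σ K Y') : H1 σ K Y := by
  have hχ1 : χ 1 = 0 := (hχY 1 Y.one_mem).mp Y'.one_mem
  have hχinv : ∀ x ∈ Y, χ x⁻¹ = -χ x := by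
    intro x hx
    have := hχ x⁻¹ (Y.inv_mem hx) x hx
    rw [inv_mul_cancel, hχ1] at this
    omega
  have hχz : ∀ n : ℤ, χ (t ^ n) = n := by
    have hnat : ∀ n : ℕ, χ (t ^ n) = n := by
      intro n
      induction n with
      | zero => simpa using hχ1
      | succ n ih => rw [pow_succ, hχ _ (Y.pow_mem ht n) _ ht, ih, hχt]; push_cast; ring
    intro n
    rcases Int.eq_nat_or_neg n with ⟨m, rfl | rfl⟩
    · rw [zpow_natCast, hnat]
    · rw [zpow_neg, zpow_natCast, hχinv _ (Y.pow_mem ht m), hnat]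
  intro d hd hdK
  obtain ⟨w1, hw1⟩ := h1 d (fun x hx y hy => hd x (hY hx) y (hY hy)) hdK
  have hd' := hd.sub (crossed_bdry (σ := σ) Y w1)
  set d' : E → W := fun x => d x - (σ x w1 - w1) with hd'def
  have hd'0 : ∀ y ∈ Y', d' y = 0 := by
    intro y hy
    simp only [hd'def]
    rw [hw1 y hy, sub_self]
  obtain ⟨w2, hw2, hw2t⟩ := hsurj (d' t) (by
    intro y hy
    have e1 : y * t = t * (t⁻¹ * y * t) := by group
    have hmem : t⁻¹ * y * t ∈ Y' := by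
      rw [hχY _ (Y.mul_mem (Y.mul_mem (Y.inv_mem ht) (hY hy)) ht),
        hχ _ (Y.mul_mem (Y.inv_mem ht) (hY hy)) _ ht, hχ _ (Y.inv_mem ht) _ (hY hy),
        hχinv t ht, (hχY y (hY hy)).mp hy]
      ring
    have h2 := hd' y (hY hy) t ht
    rw [e1, hd' t ht _ (hY hmem), hd'0 _ hmem, hd'0 _ hy, map_zero, add_zero, zero_add] at h2
    exact h2.symm)
  have hd'' := hd'.sub (crossed_bdry (σ := σ) Y w2)
  refine ⟨w1 + w2, ?_⟩
  intro y hy
  have hz1 : Y' ≤ hd''.zeros := by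
    intro x hx
    refine ⟨hY hx, ?_⟩
    simp only
    rw [hd'0 x hx, hw2 x hx]
    simp
  have hz2 : t ∈ hd''.zeros := by
    refine ⟨ht, ?_⟩
    simp only
    rw [← hw2t]
    simp
  have hy' : y ∈ hd''.zeros := by
    have e1 : y = (y * t ^ (-χ y)) * t ^ (χ y) := by group
    rw [e1]
    refine Subgroup.mul_mem _ (hz1 ?_) (Subgroup.zpow_mem _ hz2 _)
    rw [hχY _ (Y.mul_mem hy (Y.zpow_mem ht _)), hχ _ hy _ (Y.zpow_mem ht _), hχz]
    ring
  have h3 : d y - (σ y w1 - w1) - (σ y w2 - w2) = 0 := hy'.2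
  rw [map_add]
  have h4 : d y = (d y - (σ y w1 - w1) - (σ y w2 - w2)) + ((σ y w1 - w1) + (σ y w2 - w2)) := by
    abel
  rw [h4, h3]
  abel

theorem step2 (K Y' Y : Subgroup E) (hKY : K ≤ Y') (hY : Y' ≤ Y) (t : E) (ht : t ∈ Y)
    (χ : E → ℤ) (hχ : ∀ x ∈ Y, ∀ y ∈ Y, χ (x * y) = χ x + χ y) (hχt : χ t = 1)
    (hχY : ∀ y ∈ Y, y ∈ Y' ↔ χ y = 0) (j : E → W)
    (hKn : ∀ g, ∀ k ∈ K, g * k * g⁻¹ ∈ K)
    (hj : ∀ g, ∀ k ∈ K, j (g * k * g⁻¹) = σ g (j k))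
    (h1 : H1 σ K Y') (h2 : H2 σ K Y' j) : H2 σ K Y j := by
  have hχ1 : χ 1 = 0 := (hχY 1 Y.one_mem).mp Y'.one_mem
  have hχinv : ∀ x ∈ Y, χ x⁻¹ = -χ x := by
    intro x hx
    have := hχ x⁻¹ (Y.inv_mem hx) x hx
    rw [inv_mul_cancel, hχ1] at this
    omega
  have hχz : ∀ n : ℤ, χ (t ^ n) = n := by
    have hnat : ∀ n : ℕ, χ (t ^ n) = n := by
      intro n
      induction n with
      | zero => simpa using hχ1
      | succ n ih => rw [pow_succ, hχ _ (Y.pow_mem ht n) _ ht, ih, hχt]; push_cast; ring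
    intro n
    rcases Int.eq_nat_or_neg n with ⟨m, rfl | rfl⟩
    · rw [zpow_natCast, hnat]
    · rw [zpow_neg, zpow_natCast, hχinv _ (Y.pow_mem ht m), hnat]
  have hconj : ∀ g ∈ Y, ∀ y ∈ Y', g * y * g⁻¹ ∈ Y' := by
    intro g hg y hy
    rw [hχY _ (Y.mul_mem (Y.mul_mem hg (hY hy)) (Y.inv_mem hg)),
        hχ _ (Y.mul_mem hg (hY hy)) _ (Y.inv_mem hg), hχ _ hg _ (hY hy),
        hχinv g hg, (hχY y (hY hy)).mp hy]
    ring
  obtain ⟨c, hc, hck⟩ := h2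
  -- the obstruction for `t`
  obtain ⟨w, hw⟩ := h1 (fun y => σ t (c (t⁻¹ * y * t)) - c y) (by
    intro x hx y hy
    simp only
    have e1 : t⁻¹ * (x * y) * t = (t⁻¹ * x * t) * (t⁻¹ * y * t) := by group
    have hx' : t⁻¹ * x * t ∈ Y' := by simpa using hconj t⁻¹ (Y.inv_mem ht) x hx
    have hy' : t⁻¹ * y * t ∈ Y' := by simpa using hconj t⁻¹ (Y.inv_mem ht) y hy
    rw [e1, hc _ hx' _ hy', hc _ hx _ hy, map_add, map_sub]
    have e3 : σ t (σ (t⁻¹ * x * t) (c (t⁻¹ * y * t))) = σ x (σ t (c (t⁻¹ * y * t))) := by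
      rw [← Module.End.mul_apply, ← Module.End.mul_apply, ← map_mul, ← map_mul]
      congr 2
      group
    rw [e3]
    abel) (by
    intro k hk
    have hk' : t⁻¹ * k * t ∈ K := by simpa using hKn t⁻¹ k hk
    rw [hck _ hk', hck _ hk]
    have h3 := hj t _ hk'
    rw [← h3]
    have e1 : t * (t⁻¹ * k * t) * t⁻¹ = k := by group
    rw [e1, sub_self])
  -- the normalising subgroup
  let L : Subgroup (SD σ) :=
    { carrier := {a | a.g ∈ Y ∧ ∀ y ∈ Y', a * ⟨c y, y⟩ * a⁻¹ =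
        ⟨c (a.g * y * a.g⁻¹), a.g * y * a.g⁻¹⟩}
      mul_mem' := by
        rintro a b ⟨ha, ha'⟩ ⟨hb, hb'⟩
        refine ⟨Y.mul_mem ha hb, ?_⟩
        intro y hy
        have e1 : a * b * (⟨c y, y⟩ : SD σ) * (a * b)⁻¹ = a * (b * ⟨c y, y⟩ * b⁻¹) * a⁻¹ := by
          group
        rw [e1, hb' y hy, ha' _ (hconj b.g hb y hy)]
        have e2 : a.g * (b.g * y * b.g⁻¹) * a.g⁻¹ = (a * b).g * y * (a * b).g⁻¹ := by
          rw [SD.mul_g]; group
        rw [e2]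
      one_mem' := by
        refine ⟨Y.one_mem, ?_⟩
        intro y hy
        simp
      inv_mem' := by
        rintro a ⟨ha, ha'⟩
        refine ⟨Y.inv_mem ha, ?_⟩
        intro y hy
        have hy' : a.g⁻¹ * y * a.g ∈ Y' := by simpa using hconj a.g⁻¹ (Y.inv_mem ha) y hy
        have h3 := ha' _ hy'
        have e1 : a.g * (a.g⁻¹ * y * a.g) * a.g⁻¹ = y := by group
        rw [e1] at h3
        rw [← h3, SD.inv_g, inv_inv]
        group }
  have hτ : (⟨w, t⟩ : SD σ) ∈ L := by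
    refine ⟨ht, ?_⟩
    intro y hy
    have hy' : t * y * t⁻¹ ∈ Y' := hconj t ht y hy
    have h3 := hw _ hy'
    have e1 : t⁻¹ * (t * y * t⁻¹) * t = y := by group
    rw [e1] at h3
    ext
    · simp only [SD.mul_v, SD.mul_g, SD.inv_v]
      have e2 : σ (t * y) (-(σ t⁻¹ w)) = -(σ (t * y * t⁻¹) w) := by
        rw [map_neg, map_mul σ (t * y), Module.End.mul_apply]
      rw [e2]
      have e3 : c (t * y * t⁻¹) = σ t (c y) - (σ (t * y * t⁻¹) w - w) := by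
        rw [← h3]; abel
      rw [e3]
      abel
    · simp
  let S : E → SD σ := fun e => ⟨c (e * t ^ (-χ e)), e * t ^ (-χ e)⟩ * (⟨w, t⟩ : SD σ) ^ (χ e)
  have hτg : ∀ n : ℤ, ((⟨w, t⟩ : SD σ) ^ n).g = t ^ n := by
    intro n
    have := map_zpow (SD.proj σ) (⟨w, t⟩ : SD σ) n
    exact this
  have hSg : ∀ e, (S e).g = e := by
    intro e
    simp only [S, SD.mul_g, hτg]
    group
  have hmem : ∀ e ∈ Y, e * t ^ (-χ e) ∈ Y' := by
    intro e he
    rw [hχY _ (Y.mul_mem he (Y.zpow_mem ht _)), hχ _ he _ (Y.zpow_mem ht _), hχz]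
    ring
  have hP : ∀ x ∈ Y', ∀ y ∈ Y', (⟨c x, x⟩ : SD σ) * ⟨c y, y⟩ = ⟨c (x * y), x * y⟩ := by
    intro x hx y hy
    ext
    · simp [hc x hx y hy]
    · simp
  have hSmul : ∀ e ∈ Y, ∀ e' ∈ Y, S (e * e') = S e * S e' := by
    intro e he e' he'
    have h3 := (L.zpow_mem hτ (χ e)).2 _ (hmem e' he')
    rw [hτg] at h3
    have h4 : S e * S e' = ⟨c (e * t ^ (-χ e)), e * t ^ (-χ e)⟩ *
        ((⟨w, t⟩ : SD σ) ^ (χ e) * ⟨c (e' * t ^ (-χ e')), e' * t ^ (-χ e')⟩ *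
          ((⟨w, t⟩ : SD σ) ^ (χ e))⁻¹) * (⟨w, t⟩ : SD σ) ^ (χ e + χ e') := by
      simp only [S]
      rw [zpow_add]
      group
    have hm2 : t ^ (χ e) * (e' * t ^ (-χ e')) * (t ^ (χ e))⁻¹ ∈ Y' :=
      hconj _ (Y.zpow_mem ht _) _ (hmem e' he')
    rw [h4, h3, hP _ (hmem e he) _ hm2]
    have e5 : e * t ^ (-χ e) * (t ^ (χ e) * (e' * t ^ (-χ e')) * (t ^ (χ e))⁻¹) =
        e * e' * t ^ (-χ (e * e')) := by
      rw [hχ _ he _ he']
      group
    rw [e5]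
    simp only [S]
    rw [hχ _ he _ he']
  refine ⟨fun e => (S e).v, ?_, ?_⟩
  · intro x hx y hy
    simp only
    rw [hSmul x hx y hy, SD.mul_v, hSg]
  · intro k hk
    have h0 : χ k = 0 := (hχY k (hY (hKY hk))).mp (hKY hk)
    simp only [S, h0]
    simp [hck k hk]

end step

end Pool.Agent.H2.Am
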