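import Pool.Agent.H2.Am.Beta2

set_option autoImplicit false
set_option linter.all false

namespace Pool.Agent.H2.Am

section locfin

variable {F Γ X : Type} [Field F] [Group Γ] [AddCommGroup X] [Module F X]

theorem sup_stable (T : Representation F Γ X) (U U' : Submodule F X)
    (h : ∀ g, ∀ v ∈ U, T g v ∈ U) (h' : ∀ g, ∀ v ∈ U', T g v ∈ U') :
    ∀ g, ∀ v ∈ U ⊔ U', T g v ∈ U ⊔ U' := by
  intro g v hv
  obtain ⟨a, ha, b, hb, rfl⟩ := Submodule.mem_sup.mp hv
  rw [map_add]
  exact Submodule.add_mem_sup (h g a ha) (h' g b hb)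

/-- locally finite vectors -/
def locfin (T : Representation F Γ X) : Submodule F X where
  carrier := {φ | ∃ U : Submodule F X, FiniteDimensional F U ∧ φ ∈ U ∧
    ∀ g, ∀ ψ ∈ U, T g ψ ∈ U}
  add_mem' := by
    rintro a b ⟨U, hU, ha, hs⟩ ⟨U', hU', hb, hs'⟩
    exact ⟨U ⊔ U', inferInstance, Submodule.add_mem_sup ha hb, sup_stable T U U' hs hs'⟩
  zero_mem' := ⟨⊥, inferInstance, Submodule.zero_mem _, by
    intro g ψ hψ
    rw [Submodule.mem_bot] at hψ ⊢
    rw [hψ, map_zero]⟩
  smul_mem' := by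
    rintro c a ⟨U, hU, ha, hs⟩
    exact ⟨U, hU, U.smul_mem c ha, hs⟩

theorem locfin_stable (T : Representation F Γ X) (g : Γ) : ∀ φ ∈ locfin T, T g φ ∈ locfin T := by
  rintro φ ⟨U, hU, hφ, hs⟩
  exact ⟨U, hU, hs g φ hφ, hs⟩

theorem locfin_family (T : Representation F Γ X) {I : Type} [Finite I] (φ : I → X)
    (hφ : ∀ i, φ i ∈ locfin T) : ∃ U : Submodule F X, FiniteDimensional F U ∧
      (∀ g, ∀ ψ ∈ U, T g ψ ∈ U) ∧ ∀ i, φ i ∈ U := by
  choose U hU hm hs using hφ
  refine ⟨⨆ i, U i, inferInstance, ?_, fun i => Submodule.mem_iSup_of_mem i (hm i)⟩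
  intro g ψ hψ
  have : (⨆ i, U i) ≤ (⨆ i, U i).comap (T g) := by
    rw [iSup_le_iff]
    intro i v hv
    exact Submodule.mem_iSup_of_mem i (hs i g v hv)
  exact this hψ

end locfin

section trans

variable {F Γ V : Type} [Field F] [Group Γ] [AddCommGroup V] [Module F V]

/-- functions with values in a representation -/
def transRep (ρ : Representation F Γ V) : Representation F Γ (Γ → V) where
  toFun g :=
    { toFun := fun φ x => ρ g (φ (g⁻¹ * x))
      map_add' := by intro a b; ext x; simp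
      map_smul' := by intro a b; ext x; simp }
  map_one' := by ext φ x; simp
  map_mul' := by intro a b; ext φ x; simp [mul_assoc]

theorem transRep_apply (ρ : Representation F Γ V) (g : Γ) (φ : Γ → V) (x : Γ) :
    transRep ρ g φ x = ρ g (φ (g⁻¹ * x)) := rfl

/-- pointwise product -/
def mulFun (F Γ V : Type) [Field F] [AddCommGroup V] [Module F V] :
    (Γ → F) →ₗ[F] (Γ → V) →ₗ[F] (Γ → V) :=
  LinearMap.mk₂ F (fun f φ x => f x • φ x)
    (by intro a b c; ext x; simp [add_smul])
    (by intro a b c; ext x; simp [mul_smul])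
    (by intro a b c; ext x; simp)
    (by intro a b c; ext x; exact smul_comm _ _ _)

theorem mulFun_apply (f : Γ → F) (φ : Γ → V) (x : Γ) : mulFun F Γ V f φ x = f x • φ x := rfl

theorem mulFun_trans (ρ : Representation F Γ V) (f : Γ → F) (φ : Γ → V) (g : Γ) :
    transRep ρ g (mulFun F Γ V f φ) =
      mulFun F Γ V (transRep (1 : Representation F Γ F) g f) (transRep ρ g φ) := by
  ext x
  simp only [transRep_apply, mulFun_apply, map_smul, MonoidHom.one_apply, Module.End.one_apply]

theorem mulFun_locfin (ρ : Representation F Γ V) (f : Γ → F) (φ : Γ → V)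
    (hf : f ∈ locfin (transRep (1 : Representation F Γ F))) (hφ : φ ∈ locfin (transRep ρ)) :
    mulFun F Γ V f φ ∈ locfin (transRep ρ) := by
  obtain ⟨U, hU, hf, hs⟩ := hf
  obtain ⟨U', hU', hφ, hs'⟩ := hφ
  refine ⟨Submodule.map₂ (mulFun F Γ V) U U', ?_, Submodule.apply_mem_map₂ _ hf hφ, ?_⟩
  · rw [← Submodule.fg_iff_finiteDimensional] at hU hU' ⊢
    exact hU.map₂ _ hU'
  · intro g ψ hψ
    have : Submodule.map₂ (mulFun F Γ V) U U' ≤
        (Submodule.map₂ (mulFun F Γ V) U U').comap (transRep ρ g) := by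
      rw [Submodule.map₂_le]
      intro m hm n hn
      rw [Submodule.mem_comap, mulFun_trans]
      exact Submodule.apply_mem_map₂ _ (hs g m hm) (hs' g n hn)
    exact this hψ

theorem const_locfin [FiniteDimensional F V] (ρ : Representation F Γ V) (v : V) :
    (fun _ => v) ∈ locfin (transRep ρ) := by
  let c : V →ₗ[F] (Γ → V) :=
    { toFun := fun v _ => v
      map_add' := by intro a b; rfl
      map_smul' := by intro a b; rfl }
  refine ⟨LinearMap.range c, inferInstance, ⟨v, rfl⟩, ?_⟩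
  rintro g _ ⟨w, rfl⟩
  exact ⟨ρ g w, rfl⟩

end trans

theorem descend {Γ Γ' M : Type} [Group Γ] [Group Γ'] [Monoid M] (p : Γ →* Γ')
    (hp : Function.Surjective p) (R : Γ →* M) (hR : ∀ g, p g = 1 → R g = 1) :
    ∃ R' : Γ' →* M, ∀ g, R' (p g) = R g := by
  have key : ∀ g g', p g = p g' → R g = R g' := by
    intro g g' h
    have h1 : R (g * g'⁻¹) = 1 := hR _ (by rw [map_mul, h, map_inv, mul_inv_cancel])
    calc R g = R (g * g'⁻¹ * g') := by rw [inv_mul_cancel_right]
      _ = R g' := by rw [map_mul, h1, one_mul]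
  refine ⟨{ toFun := fun x => R (Function.surjInv hp x)
            map_one' := hR _ (Function.surjInv_eq hp 1)
            map_mul' := ?_ }, ?_⟩
  · intro x y
    rw [← map_mul]
    apply key
    rw [map_mul, Function.surjInv_eq hp, Function.surjInv_eq hp, Function.surjInv_eq hp]
  · intro g
    exact key _ _ (Function.surjInv_eq hp _)

section tlemma

theorem tlemma {F Γ Γ' : Type} [Field F] [Group Γ] [Group Γ'] (p : Γ →* Γ')
    (hp : Function.Surjective p) (hG : Good F Γ') (r : ℕ) (ι : (Fin r → ℤ) → Γ)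
    (hadd : ∀ z z', ι (z + z') = ι z * ι z') (hinj : Function.Injective ι)
    (hker : ∀ g, p g = 1 ↔ ∃ z, ι z = g) :
    ∃ (V' : Type) (_ : AddCommGroup V') (_ : Module F V') (_ : FiniteDimensional F V')
      (ρ' : Representation F Γ' V') (i : (Fin r → F) →ₗ[F] V'), Function.Injective i ∧
      ∃ c : Γ → V', (∀ e e', c (e * e') = c e + ρ' (p e) (c e')) ∧
        ∀ z, c (ι z) = i (fun k => (z k : F)) := by
  classical
  have hι0 : ι 0 = 1 := by
    have := hadd 0 0
    rw [add_zero] at this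
    exact (mul_eq_left.mp this.symm)
  let χ : Γ → (Fin r → ℤ) := Function.invFun ι
  have hχι : ∀ z, χ (ι z) = z := Function.leftInverse_invFun hinj
  have hιχ : ∀ g, p g = 1 → ι (χ g) = g := by
    intro g hg
    obtain ⟨z, rfl⟩ := (hker g).mp hg
    rw [hχι]
  have hpι : ∀ z, p (ι z) = 1 := fun z => (hker _).mpr ⟨z, rfl⟩
  have hχmul : ∀ g g', p g = 1 → p g' = 1 → χ (g * g') = χ g + χ g' := by
    intro g g' hg hg'
    apply hinj
    rw [hadd, hιχ _ hg, hιχ _ hg', hιχ _ (by rw [map_mul, hg, hg', one_mul])]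
  let A0 : Γ → (Fin r → ℤ) →+ (Fin r → ℤ) := fun γ =>
    { toFun := fun z => χ (γ * ι z * γ⁻¹)
      map_zero' := by
        rw [hι0, mul_one, mul_inv_cancel, ← hι0, hχι]
      map_add' := by
        intro z z'
        rw [← hχmul _ _ (by simp [hpι]) (by simp [hpι]), hadd]
        congr 1
        group }
  have hA0 : ∀ γ z, A0 γ z = χ (γ * ι z * γ⁻¹) := fun _ _ => rfl
  let A : Γ →* Module.End ℤ (Fin r → ℤ) :=
    { toFun := fun γ => (A0 γ).toIntLinearMap
      map_one' := by
        apply LinearMap.ext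
        intro z
        change A0 1 z = z
        rw [hA0, one_mul, inv_one, mul_one, hχι]
      map_mul' := by
        intro γ γ'
        apply LinearMap.ext
        intro z
        change A0 (γ * γ') z = A0 γ (A0 γ' z)
        rw [hA0, hA0, hA0, hιχ _ (by simp [hpι])]
        congr 1
        group }
  have hA : ∀ γ z, A γ z = χ (γ * ι z * γ⁻¹) := fun _ _ => rfl
  let R : Γ →* Module.End F (Fin r → F) :=
    ((Matrix.toLinAlgEquiv' (R := F) (n := Fin r)).toAlgHom.toRingHom.toMonoidHom.comp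
      ((Int.castRingHom F).mapMatrix.toMonoidHom)).comp
      ((LinearMap.toMatrixAlgEquiv' (R := ℤ) (n := Fin r)).toAlgHom.toRingHom.toMonoidHom.comp A)
  have hR : ∀ γ z, R γ (fun k => ((z k : ℤ) : F)) = fun k => ((A γ z k : ℤ) : F) := by
    intro γ z
    have e1 : R γ = Matrix.toLin' ((LinearMap.toMatrix' (A γ)).map (Int.castRingHom F)) := rfl
    rw [e1, Matrix.toLin'_apply]
    ext k
    have h2 := RingHom.map_mulVec (Int.castRingHom F) (LinearMap.toMatrix' (A γ)) z k
    rw [LinearMap.toMatrix'_mulVec] at h2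
    exact h2.symm
  obtain ⟨ρ, hρ⟩ := descend p hp R (by
    intro g hg
    obtain ⟨w, rfl⟩ := (hker g).mp hg
    have hA1 : A (ι w) = 1 := by
      apply LinearMap.ext
      intro z
      rw [hA, Module.End.one_apply, ← hadd, add_comm, hadd, mul_inv_cancel_right, hχι]
    have : R (ι w) = R 1 := by
      simp only [R, MonoidHom.comp_apply, hA1, map_one]
    rw [this, map_one])
  obtain ⟨V', i1, i2, i3, ρ', i, hi, hie, c, hc, hck⟩ := hG Γ p hp (Fin r → F) ρ
    (fun g k => ((χ g k : ℤ) : F))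
    (by
      intro k k' hk hk'
      ext l
      simp [hχmul k k' hk hk'])
    (by
      intro e k hk
      rw [hρ, hR]
      ext l
      rw [hA, hιχ k hk])
  refine ⟨V', i1, i2, i3, ρ', i, hi, c, hc, ?_⟩
  intro z
  rw [hck _ (hpι z)]
  congr 1
  ext k
  rw [hχι]

end tlemma

end Pool.Agent.H2.Am
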