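import Pool.Agent.H2.Am.Beta3

set_option autoImplicit false
set_option linter.all false

namespace Pool.Agent.H2.Am

/-- restriction of a representation to a stable subspace -/
def restRep {F Γ X : Type} [Field F] [Group Γ] [AddCommGroup X] [Module F X]
    (T : Representation F Γ X) (U : Submodule F X) (hU : ∀ g, ∀ v ∈ U, T g v ∈ U) :
    Representation F Γ U where
  toFun g := (T g).restrict (hU g)
  map_one' := by ext v; simp
  map_mul' := by intro a b; ext v; simp

theorem restRep_apply {F Γ X : Type} [Field F] [Group Γ] [AddCommGroup X] [Module F X]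
    (T : Representation F Γ X) (U : Submodule F X) (hU : ∀ g, ∀ v ∈ U, T g v ∈ U) (g : Γ)
    (v : U) : (restRep T U hU g v : X) = T g v := rfl

/-- the subgroup of elements satisfying the stabiliser condition with witness in `U` -/
theorem nsub_locus {F E X : Type} [Field F] [Group E] [AddCommGroup X] [Module F X]
    (σ : Representation F E X) (Z : Subgroup E) (hZ : ∀ g, ∀ x ∈ Z, g * x * g⁻¹ ∈ Z)
    (c : E → X) (U : Submodule F X) (hU : ∀ g, ∀ v ∈ U, σ g v ∈ U) :
    ∃ S : Subgroup E, ∀ g, g ∈ S ↔ ∃ w ∈ U, ∀ x ∈ Z,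
      σ g (c (g⁻¹ * x * g)) - c x = σ x w - w := by
  refine ⟨{ carrier := {g | ∃ w ∈ U, ∀ x ∈ Z, σ g (c (g⁻¹ * x * g)) - c x = σ x w - w}
            mul_mem' := ?_, one_mem' := ?_, inv_mem' := ?_ }, fun g => Iff.rfl⟩
  · rintro a b ⟨w, hw, h1⟩ ⟨w', hw', h2⟩
    refine ⟨w + σ a w', U.add_mem hw (hU a _ hw'), ?_⟩
    intro x hx
    have h1' := h1 x hx
    have h2' := h2 (a⁻¹ * x * a) (by simpa using hZ a⁻¹ x hx)
    have e1 : (a * b)⁻¹ * x * (a * b) = b⁻¹ * (a⁻¹ * x * a) * b := by group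
    have e3 : σ a (σ (a⁻¹ * x * a) w') = σ x (σ a w') := by
      rw [← Module.End.mul_apply, ← Module.End.mul_apply, ← map_mul, ← map_mul]
      congr 2
      group
    have h3 := congrArg (σ a) h2'
    rw [map_sub, map_sub, e3] at h3
    rw [e1, map_mul, Module.End.mul_apply, map_add]
    calc _ = (σ a (c (a⁻¹ * x * a)) - c x) +
          (σ a (σ b (c (b⁻¹ * (a⁻¹ * x * a) * b))) - σ a (c (a⁻¹ * x * a))) := by abel
      _ = _ := by rw [h1', h3]; abel
  · refine ⟨0, U.zero_mem, ?_⟩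
    intro x hx
    simp
  · rintro a ⟨w, hw, h1⟩
    refine ⟨-(σ a⁻¹ w), U.neg_mem (hU _ _ hw), ?_⟩
    intro x hx
    have h2 := h1 (a * x * a⁻¹) (hZ a x hx)
    have e1 : a⁻¹ * (a * x * a⁻¹) * a = x := by group
    rw [e1] at h2
    have h3 := congrArg (σ a⁻¹) h2
    have e3 : σ a⁻¹ (σ (a * x * a⁻¹) w) = σ x (σ a⁻¹ w) := by
      rw [← Module.End.mul_apply, ← Module.End.mul_apply, ← map_mul, ← map_mul]
      congr 2
      group
    have e4 : σ a⁻¹ (σ a (c x)) = c x := by
      rw [← Module.End.mul_apply, ← map_mul]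
      simp
    rw [map_sub, map_sub, e3, e4] at h3
    simp only [map_neg, inv_inv]
    have h6 : σ a⁻¹ (c (a * x * a⁻¹)) - c x = -(c x - σ a⁻¹ (c (a * x * a⁻¹))) := by abel
    rw [h6, h3]
    abel

theorem coordfun {F Γ Γ' : Type} [Field F] [Group Γ] [Group Γ'] (p : Γ →* Γ')
    (hp : Function.Surjective p) (hG : Good F Γ') (r : ℕ) (ι : (Fin r → ℤ) → Γ)
    (hadd : ∀ z z', ι (z + z') = ι z * ι z') (hinj : Function.Injective ι)
    (hker : ∀ g, p g = 1 ↔ ∃ z, ι z = g) :
    ∃ x : Fin r → Γ → F, (∀ k, x k ∈ locfin (transRep (1 : Representation F Γ F))) ∧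
      ∀ k z γ, x k (ι z * γ) = (z k : F) + x k γ := by
  obtain ⟨V', i1, i2, i3, ρ', i, hi, c, hc, hcι⟩ := tlemma p hp hG r ι hadd hinj hker
  obtain ⟨L, hL⟩ := LinearMap.exists_leftInverse_of_injective i (LinearMap.ker_eq_bot.mpr hi)
  have hL' : ∀ v, L (i v) = v := fun v => congrArg (fun f : (Fin r → F) →ₗ[F] (Fin r → F) => f v) hL
  refine ⟨fun k γ => L (c γ) k, ?_, ?_⟩
  · intro k
    let m : (Module.Dual F V' × F) →ₗ[F] (Γ → F) :=
      { toFun := fun f γ => f.1 (c γ) + f.2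
        map_add' := by intro a b; ext γ; simp; ring
        map_smul' := by intro a b; ext γ; simp; ring }
    have hm : ∀ f a γ, m (f, a) γ = f (c γ) + a := fun _ _ _ => rfl
    refine ⟨LinearMap.range m, inferInstance, ⟨((LinearMap.proj k).comp L, 0), ?_⟩, ?_⟩
    · ext γ
      rw [hm]
      simp
    · rintro g _ ⟨⟨f, a⟩, rfl⟩
      refine ⟨(f.comp (ρ' (p g⁻¹)), a + f (c g⁻¹)), ?_⟩
      ext γ
      rw [hm, transRep_apply, hm, hc, MonoidHom.one_apply, Module.End.one_apply, map_add,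
        LinearMap.comp_apply]
      ring
  · intro k z γ
    have : p (ι z) = 1 := (hker _).mpr ⟨z, rfl⟩
    simp only
    rw [hc, this, map_one, Module.End.one_apply, hcι, map_add, hL']
    rfl

theorem surj_step {F Γ : Type} [Field F] [CharZero F] [Group Γ]
    (r : ℕ) (ι : (Fin r → ℤ) → Γ)
    (hadd : ∀ z z', ι (z + z') = ι z * ι z')
    (x : Fin r → Γ → F) (hx : ∀ k, x k ∈ locfin (transRep (1 : Representation F Γ F)))
    (hxι : ∀ k z γ, x k (ι z * γ) = (z k : F) + x k γ)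
    {V : Type} [AddCommGroup V] [Module F V] (ρ : Representation F Γ V) (i : Fin r)
    (u : Γ → V) (hu : u ∈ locfin (transRep ρ))
    (hinv : ∀ z : Fin r → ℤ, (∀ k, i ≤ k → z k = 0) → transRep ρ (ι z) u = u) :
    ∃ w ∈ locfin (transRep ρ),
      (∀ z : Fin r → ℤ, (∀ k, i ≤ k → z k = 0) → transRep ρ (ι z) w = w) ∧
      transRep ρ (ι (Pi.single i 1)) w - w = u := by
  have hι0 : ι 0 = 1 := by
    have := hadd 0 0
    rw [add_zero] at this
    exact (mul_eq_left.mp this.symm)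
  have hιneg : ∀ z, (ι z)⁻¹ = ι (-z) := by
    intro z
    rw [inv_eq_iff_mul_eq_one, ← hadd, add_neg_cancel, hι0]
  let M : Submodule F (Γ → V) :=
    { carrier := {u | u ∈ locfin (transRep ρ) ∧
        ∀ z : Fin r → ℤ, (∀ k, i ≤ k → z k = 0) → transRep ρ (ι z) u = u}
      add_mem' := by
        rintro a b ⟨ha, ha'⟩ ⟨hb, hb'⟩
        exact ⟨Submodule.add_mem _ ha hb, fun z hz => by rw [map_add, ha' z hz, hb' z hz]⟩
      zero_mem' := ⟨Submodule.zero_mem _, fun z hz => by rw [map_zero]⟩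
      smul_mem' := by
        rintro a b ⟨hb, hb'⟩
        exact ⟨Submodule.smul_mem _ _ hb, fun z hz => by rw [map_smul, hb' z hz]⟩ }
  have key := surj_of_locfin (transRep ρ (ι (Pi.single i 1))) (mulFun F Γ V (x i)) (by
      apply LinearMap.ext
      intro φ
      rw [Module.End.mul_apply, Module.End.mul_apply, mulFun_trans]
      ext γ
      rw [mulFun_apply, LinearMap.sub_apply, Module.End.one_apply, Pi.sub_apply, mulFun_apply,
        transRep_apply, hιneg, hxι]
      simp only [MonoidHom.one_apply, Module.End.one_apply, Pi.neg_apply, Pi.single_eq_same,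
        Int.cast_neg, Int.cast_one, add_smul, neg_smul, one_smul]
      abel) M
    (by
      rintro u ⟨hu, hu'⟩
      refine ⟨locfin_stable _ _ _ hu, ?_⟩
      intro z hz
      rw [← Module.End.mul_apply, ← map_mul, ← hadd, add_comm, hadd, map_mul,
        Module.End.mul_apply, hu' z hz])
    (by
      rintro u ⟨hu, hu'⟩
      refine ⟨mulFun_locfin ρ _ _ (hx i) hu, ?_⟩
      intro z hz
      rw [mulFun_trans, hu' z hz]
      congr 2
      ext γ
      rw [transRep_apply, hιneg, hxι]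
      simp [hz i le_rfl])
    (by
      rintro u ⟨⟨U, hU, huU, hs⟩, hu'⟩
      refine ⟨U ⊓ M, Submodule.finiteDimensional_inf_left U M, inf_le_right,
        ⟨huU, ⟨U, hU, huU, hs⟩, hu'⟩, ?_⟩
      rintro v ⟨hvU, hv, hv'⟩
      refine ⟨hs _ _ hvU, locfin_stable _ _ _ hv, ?_⟩
      intro z hz
      rw [← Module.End.mul_apply, ← map_mul, ← hadd, add_comm, hadd, map_mul,
        Module.End.mul_apply, hv' z hz])
  obtain ⟨w, ⟨hw, hw'⟩, hwu⟩ := key u ⟨hu, hinv⟩
  exact ⟨w, hw, hw', hwu⟩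

end Pool.Agent.H2.Am
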