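import Pool.Agent.H2.Am.Beta4

set_option autoImplicit false
set_option linter.all false

namespace Pool.Agent.H2.Am

theorem good_of_free_ker {F Γ Γ' : Type} [Field F] [CharZero F] [Group Γ] [Group Γ']
    (p : Γ →* Γ') (hp : Function.Surjective p) (hfg : Group.FG Γ') (hG : Good F Γ') (r : ℕ)
    (ι : (Fin r → ℤ) → Γ)
    (hadd : ∀ z z', ι (z + z') = ι z * ι z') (hinj : Function.Injective ι)
    (hker : ∀ g, p g = 1 ↔ ∃ z, ι z = g) : Good F Γ := by
  classical
  intro E _ π hπ V _ _ _ ρ j hj1 hj2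
  obtain ⟨x, hx, hxι⟩ := coordfun (F := F) p hp hG r ι hadd hinj hker
  have hι0 : ι 0 = 1 := by
    have := hadd 0 0
    rw [add_zero] at this
    exact (mul_eq_left.mp this.symm)
  have hιneg : ∀ z, (ι z)⁻¹ = ι (-z) := by
    intro z
    rw [inv_eq_iff_mul_eq_one, ← hadd, add_neg_cancel, hι0]
  let χ : Γ → (Fin r → ℤ) := Function.invFun ι
  have hχι : ∀ z, χ (ι z) = z := Function.leftInverse_invFun hinj
  have hpι : ∀ z, p (ι z) = 1 := fun z => (hker _).mpr ⟨z, rfl⟩
  let T : Representation F Γ (Γ → V) := transRep ρ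
  let W : Submodule F (Γ → V) := locfin T
  let σ0 : Representation F Γ W := restRep T W (locfin_stable T)
  let σ : Representation F E W := σ0.comp π
  have hσ : ∀ e (w : W), (σ e w : Γ → V) = T (π e) w := fun _ _ => rfl
  -- the chain of subgroups
  let Y : ℕ → Subgroup E := fun n =>
    { carrier := {e | ∃ z : Fin r → ℤ, (∀ k : Fin r, n ≤ (k : ℕ) → z k = 0) ∧ ι z = π e}
      mul_mem' := by
        rintro a b ⟨z, hz, hz'⟩ ⟨w, hw, hw'⟩
        refine ⟨z + w, ?_, by rw [hadd, hz', hw', map_mul]⟩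
        intro k hk
        rw [Pi.add_apply, hz k hk, hw k hk, add_zero]
      one_mem' := ⟨0, fun _ _ => rfl, by rw [hι0, map_one]⟩
      inv_mem' := by
        rintro a ⟨z, hz, hz'⟩
        refine ⟨-z, ?_, by rw [← hιneg, hz', map_inv]⟩
        intro k hk
        rw [Pi.neg_apply, hz k hk, neg_zero] }
  have memY : ∀ n e, e ∈ Y n ↔ ∃ z : Fin r → ℤ, (∀ k : Fin r, n ≤ (k : ℕ) → z k = 0) ∧
      ι z = π e := fun _ _ => Iff.rfl
  have hY0 : ∀ e, e ∈ Y 0 ↔ π e = 1 := by
    intro e
    rw [memY]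
    constructor
    · rintro ⟨z, hz, hz'⟩
      have : z = 0 := by ext k; exact hz k (Nat.zero_le _)
      rw [← hz', this, hι0]
    · intro h
      exact ⟨0, fun _ _ => rfl, by rw [hι0, h]⟩
  have hYr : ∀ e, e ∈ Y r ↔ p (π e) = 1 := by
    intro e
    rw [memY, hker]
    constructor
    · rintro ⟨z, _, hz'⟩
      exact ⟨z, hz'⟩
    · rintro ⟨z, hz'⟩
      exact ⟨z, fun k hk => absurd k.2 (not_lt.mpr hk), hz'⟩
  have hYmono : ∀ n, Y n ≤ Y (n + 1) := by
    rintro n e ⟨z, hz, hz'⟩
    exact ⟨z, fun k hk => hz k (by omega), hz'⟩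
  have hY0n : ∀ n, Y 0 ≤ Y n := by
    intro n
    induction n with
    | zero => exact le_rfl
    | succ n ih => exact ih.trans (hYmono n)
  have htex : ∀ i : Fin r, ∃ t : E, π t = ι (Pi.single i 1) := fun i => hπ _
  choose t ht using htex
  have htY : ∀ (i : Fin r), t i ∈ Y (i + 1) := by
    intro i
    refine ⟨Pi.single i 1, ?_, (ht i).symm⟩
    intro k hk
    rw [Pi.single_eq_of_ne]
    intro h
    subst h
    omega
  let χi : Fin r → E → ℤ := fun i e => χ (π e) i
  have hχi : ∀ (i : Fin r) n, ∀ a ∈ Y n, ∀ b ∈ Y n, χi i (a * b) = χi i a + χi i b := by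
    rintro i n a ⟨z, hz, hz'⟩ b ⟨w, hw, hw'⟩
    simp only [χi]
    rw [map_mul, ← hz', ← hw', ← hadd, hχι, hχι, hχι]
    rfl
  have hχt : ∀ i, χi i (t i) = 1 := by
    intro i
    simp only [χi]
    rw [ht, hχι, Pi.single_eq_same]
  have hχY : ∀ (i : Fin r), ∀ y ∈ Y (i + 1), y ∈ Y i ↔ χi i y = 0 := by
    rintro i y ⟨z, hz, hz'⟩
    simp only [χi]
    rw [← hz', hχι]
    constructor
    · rintro ⟨w, hw, hw'⟩
      have : w = z := hinj (hw'.trans hz'.symm)
      rw [← this]
      exact hw i le_rfl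
    · intro h
      refine ⟨z, ?_, hz'⟩
      intro k hk
      rcases Nat.eq_or_lt_of_le hk with h1 | h1
      · have : i = k := Fin.ext h1
        rw [← this]; exact h
      · exact hz k h1
  -- the embedding of `V` by constants
  let cst : V →ₗ[F] (Γ → V) :=
    { toFun := fun v _ => v
      map_add' := by intro a b; rfl
      map_smul' := by intro a b; rfl }
  have hcst : ∀ v, cst v ∈ W := fun v => const_locfin ρ v
  have hcstT : ∀ g v, T g (cst v) = cst (ρ g v) := fun g v => rfl
  let jW : E → W := fun e => ⟨cst (j e), hcst _⟩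
  -- vanishing and extension along the chain
  have hsurj : ∀ (i : Fin r) (u : W), (∀ y ∈ Y i, σ y u = u) →
      ∃ w : W, (∀ y ∈ Y i, σ y w = w) ∧ σ (t i) w - w = u := by
    intro i u hu
    obtain ⟨w, hw, hw1, hw2⟩ := surj_step r ι hadd x hx hxι ρ i u.1 u.2 (by
      intro z hz
      obtain ⟨e, he⟩ := hπ (ι z)
      have := hu e ⟨z, hz, he.symm⟩
      have h2 := congrArg (fun v : W => (v : Γ → V)) this
      rw [hσ, he] at h2
      exact h2)
    refine ⟨⟨w, hw⟩, ?_, ?_⟩
    · rintro y ⟨z, hz, hz'⟩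
      apply Subtype.ext
      rw [hσ, ← hz']
      exact hw1 z hz
    · apply Subtype.ext
      rw [Submodule.coe_sub, hσ, ht]
      exact hw2
  have hK : Y 0 = π.ker := by
    ext e
    rw [hY0, MonoidHom.mem_ker]
  have hjσ : ∀ g, ∀ k ∈ Y 0, jW (g * k * g⁻¹) = σ g (jW k) := by
    intro g k hk
    apply Subtype.ext
    rw [hσ]
    change cst _ = T _ (cst _)
    rw [hcstT, hj2 g k ((hY0 k).mp hk)]
  have hchain : ∀ n, n ≤ r → H1 σ (Y 0) (Y n) ∧ H2 σ (Y 0) (Y n) jW := by
    intro n
    induction n with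
    | zero =>
      intro _
      refine ⟨?_, ?_⟩
      · intro d hd hd0
        refine ⟨0, ?_⟩
        intro y hy
        rw [hd0 y hy, map_zero, sub_zero]
      · refine ⟨jW, ?_, fun _ _ => rfl⟩
        intro a ha b hb
        apply Subtype.ext
        have ha' := (hY0 a).mp ha
        have hb' := (hY0 b).mp hb
        rw [Submodule.coe_add, hσ, ha', map_one, Module.End.one_apply]
        change cst _ = cst _ + cst _
        rw [hj1 a b ha' hb', map_add]
    | succ n ih =>
      intro hn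
      obtain ⟨h1, h2⟩ := ih (by omega)
      have hn' : n < r := hn
      let i : Fin r := ⟨n, hn'⟩
      refine ⟨?_, ?_⟩
      · exact step1 σ (Y 0) (Y n) (Y (n + 1)) (hY0n n) (hYmono n) (t i) (htY i) (χi i)
          (hχi i (n + 1)) (hχt i) (hχY i) (hsurj i) h1
      · exact step2 σ (Y 0) (Y n) (Y (n + 1)) (hY0n n) (hYmono n) (t i) (htY i) (χi i)
          (hχi i (n + 1)) (hχt i) (hχY i) jW (by
            intro g k hk
            rw [hY0] at hk ⊢
            rw [map_mul, map_mul, hk, map_inv, mul_one, mul_inv_cancel]) hjσ h1 h2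
  obtain ⟨hH1, c, hc, hck⟩ := hchain r le_rfl
  have hZn : ∀ g, ∀ a ∈ Y r, g * a * g⁻¹ ∈ Y r := by
    intro g a ha
    rw [hYr] at ha ⊢
    simp [ha]
  have hK0 : ∀ k, π k = 1 → p (π k) = 1 := fun k hk => by rw [hk, map_one]
  -- witnesses
  have hwit : ∀ g : E, ∃ w : W, ∀ a ∈ Y r, σ g (c (g⁻¹ * a * g)) - c a = σ a w - w := by
    intro g
    apply hH1 (fun a => σ g (c (g⁻¹ * a * g)) - c a)
    · intro a ha b hb
      simp only
      have e1 : g⁻¹ * (a * b) * g = (g⁻¹ * a * g) * (g⁻¹ * b * g) := by group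
      have ha' : g⁻¹ * a * g ∈ Y r := by simpa using hZn g⁻¹ a ha
      have hb' : g⁻¹ * b * g ∈ Y r := by simpa using hZn g⁻¹ b hb
      rw [e1, hc _ ha' _ hb', hc _ ha _ hb, map_add, map_sub]
      have e3 : σ g (σ (g⁻¹ * a * g) (c (g⁻¹ * b * g))) = σ a (σ g (c (g⁻¹ * b * g))) := by
        rw [← Module.End.mul_apply, ← Module.End.mul_apply, ← map_mul, ← map_mul]
        congr 2
        group
      rw [e3]
      abel
    · intro k hk
      have hk' : g⁻¹ * k * g ∈ Y 0 := by
        rw [hY0] at hk ⊢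
        simp [hk]
      rw [hck _ hk, hck _ hk']
      have := hjσ g _ hk'
      rw [← this]
      have e1 : g * (g⁻¹ * k * g) * g⁻¹ = k := by group
      rw [e1, sub_self]
  choose w hw using hwit
  -- generators
  obtain ⟨S, hS⟩ := hfg.out
  have hlift : ∀ s : S, ∃ e : E, p (π e) = s := by
    intro s
    obtain ⟨g, hg⟩ := hp s
    obtain ⟨e, rfl⟩ := hπ g
    exact ⟨e, hg⟩
  choose l hl using hlift
  obtain ⟨U2, hU2, hU2s, hU2m⟩ := locfin_family T (I := Fin r ⊕ S)
    (Sum.elim (fun i => (c (t i) : Γ → V)) (fun s => (w (l s) : Γ → V)))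
    (by rintro (i | s); exacts [(c (t i)).2, (w (l s)).2])
  let U1 : Submodule F (Γ → V) := LinearMap.range cst
  have hU1s : ∀ g, ∀ ψ ∈ U1, T g ψ ∈ U1 := by
    rintro g _ ⟨v, rfl⟩
    exact ⟨ρ g v, rfl⟩
  let U : Submodule F (Γ → V) := U1 ⊔ U2
  have hUs : ∀ g, ∀ ψ ∈ U, T g ψ ∈ U := sup_stable T U1 U2 hU1s hU2s
  have hUf : FiniteDimensional F U := inferInstance
  let UW : Submodule F W := U.comap W.subtype
  have hUWs : ∀ g, ∀ v ∈ UW, σ g v ∈ UW := by
    intro g v hv
    exact hUs (π g) _ hv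
  -- values of the extension lie in `U`
  have hcU : ∀ e ∈ Y r, (c e : Γ → V) ∈ U := by
    have : ∀ n, n ≤ r → Y n ≤ hc.locus UW hUWs := by
      intro n
      induction n with
      | zero =>
        intro _ e he
        refine ⟨hY0n r he, ?_⟩
        rw [hck e he]
        exact Submodule.mem_sup_left ⟨j e, rfl⟩
      | succ n ih =>
        intro hn e he
        have hn' : n < r := hn
        let i : Fin r := ⟨n, hn'⟩
        have htl : t i ∈ hc.locus UW hUWs := by
          refine ⟨?_, ?_⟩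
          · rw [hYr, ht, hpι]
          · exact Submodule.mem_sup_right (hU2m (Sum.inl i))
        have e1 : e = (e * (t i) ^ (-(χi i e))) * (t i) ^ (χi i e) := by group
        rw [e1]
        refine Subgroup.mul_mem _ (ih (by omega) ?_) (Subgroup.zpow_mem _ htl _)
        have hmem := (Y (n + 1)).mul_mem he ((Y (n + 1)).zpow_mem (htY i) (-(χi i e)))
        refine (hχY i _ hmem).mpr ?_
        rw [hχi i (n + 1) _ he _ ((Y (n + 1)).zpow_mem (htY i) _)]
        have hχz : ∀ m : ℤ, χi i ((t i) ^ m) = m := by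
          intro m
          simp only [χi]
          rw [map_zpow, ht]
          have hιz : ∀ (m : ℤ) z, (ι z) ^ m = ι (m • z) := by
            have hιn : ∀ (m : ℕ) z, (ι z) ^ m = ι (m • z) := by
              intro m z
              induction m with
              | zero => rw [pow_zero, zero_smul, hι0]
              | succ m ih => rw [pow_succ, ih, ← hadd, succ_nsmul]
            intro m z
            rcases Int.eq_nat_or_neg m with ⟨n, rfl | rfl⟩
            · rw [zpow_natCast, hιn, natCast_zsmul]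
            · rw [zpow_neg, zpow_natCast, hιn, hιneg, neg_smul, natCast_zsmul]
          rw [hιz, hχι]
          simp
        rw [hχz]
        ring
    intro e he
    exact (this r le_rfl he).2
  -- the locus of good elements is everything
  obtain ⟨N, hN⟩ := nsub_locus σ (Y r) hZn c UW hUWs
  have hNall : ∀ g, g ∈ N := by
    have h1 : ∀ g ∈ Y r, g ∈ N := by
      intro g hg
      rw [hN]
      refine ⟨c g, hcU g hg, ?_⟩
      intro a ha
      have h1 := hc g hg (g⁻¹ * a * g) (by simpa using hZn g⁻¹ a ha)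
      have h2 := hc a ha g hg
      have e1 : g * (g⁻¹ * a * g) = a * g := by group
      rw [e1, h2] at h1
      have : σ g (c (g⁻¹ * a * g)) = c a + σ a (c g) - c g := by rw [h1]; abel
      rw [this]
      abel
    have h2 : ∀ s : S, l s ∈ N := by
      intro s
      rw [hN]
      exact ⟨w (l s), Submodule.mem_sup_right (hU2m (Sum.inr s)), hw (l s)⟩
    have h3 : (N.map (p.comp π)) = ⊤ := by
      rw [eq_top_iff, ← hS, Subgroup.closure_le]
      intro s hs
      exact ⟨l ⟨s, hs⟩, h2 _, hl _⟩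
    intro g
    have h4 : p (π g) ∈ N.map (p.comp π) := by rw [h3]; trivial
    obtain ⟨g', hg', hgg⟩ := h4
    have e1 : g = (g * g'⁻¹) * g' := by group
    rw [e1]
    refine N.mul_mem (h1 _ ?_) hg'
    rw [hYr, map_mul, map_mul, ← hgg]
    simp
  let σU : Representation F Γ U := restRep T U hUs
  let c' : E → U := fun e => if h : (c e : Γ → V) ∈ U then ⟨_, h⟩ else 0
  have hc' : ∀ e, p (π e) = 1 → (c' e : Γ → V) = c e := by
    intro e he
    simp only [c', dif_pos (hcU e ((hYr e).mpr he))]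
  obtain ⟨P, i1, i2, i3, τ, a, ha, hae, C, hC, hCc⟩ := assembly p hp hG π hπ σU c'
    (by
      intro a b ha hb
      apply Subtype.ext
      rw [hc' _ (by rw [map_mul, map_mul, ha, hb, one_mul]), Submodule.coe_add, restRep_apply,
        hc' _ ha, hc' _ hb, hc a ((hYr a).mpr ha) b ((hYr b).mpr hb), Submodule.coe_add, hσ])
    (by
      intro g
      obtain ⟨v, hv, hv'⟩ := (hN g).mp (hNall g)
      refine ⟨⟨v, hv⟩, ?_⟩
      intro a ha
      apply Subtype.ext
      have h5 := congrArg (fun v : W => (v : Γ → V)) (hv' a ((hYr a).mpr ha))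
      simp only [Submodule.coe_sub, hσ] at h5
      rw [Submodule.coe_sub, Submodule.coe_sub, restRep_apply, restRep_apply,
        hc' _ (by simp [ha]), hc' _ ha]
      exact h5)
  let iV : V →ₗ[F] U := cst.codRestrict U (fun v => Submodule.mem_sup_left ⟨v, rfl⟩)
  refine ⟨P, i1, i2, i3, τ, a.comp iV, ?_, ?_, C, hC, ?_⟩
  · intro v v' h
    have h1 := ha h
    have h2 := congrArg (fun f : U => (f : Γ → V) 1) h1
    exact h2
  · intro g v
    rw [LinearMap.comp_apply, LinearMap.comp_apply, ← hae]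
    congr 1
  · intro k hk
    rw [hCc k (hK0 k hk), LinearMap.comp_apply]
    congr 1
    apply Subtype.ext
    rw [hc' k (hK0 k hk), hck k ((hY0 k).mpr hk)]
    rfl

end Pool.Agent.H2.Am
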