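import Pool.Agent.H2.Am.Step

set_option autoImplicit false
set_option linter.all false

namespace Pool.Agent.H2.Am

theorem rep_prod {F G V₁ V₂ : Type} [Field F] [Group G] [AddCommGroup V₁] [Module F V₁]
    [AddCommGroup V₂] [Module F V₂] (ρ₁ : Representation F G V₁) (ρ₂ : Representation F G V₂) :
    ∃ ρ : Representation F G (V₁ × V₂), ∀ x, ρ x = 1 → ρ₁ x = 1 ∧ ρ₂ x = 1 := by
  refine ⟨{ toFun := fun g => (ρ₁ g).prodMap (ρ₂ g)
            map_one' := ?_
            map_mul' := ?_ }, ?_⟩
  · apply LinearMap.ext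
    rintro ⟨v, w⟩
    simp
  · intro g h
    apply LinearMap.ext
    rintro ⟨v, w⟩
    simp
  · intro x hx
    constructor
    · apply LinearMap.ext
      intro v
      have h1 := congrArg (fun f : Module.End F (V₁ × V₂) => (f (v, 0)).1) hx
      exact h1
    · apply LinearMap.ext
      intro v
      have h1 := congrArg (fun f : Module.End F (V₁ × V₂) => (f (0, v)).2) hx
      exact h1

theorem perm_rep {F G X : Type} [Field F] [Group G] [Finite X] (f : G →* Equiv.Perm X) :
    ∃ ρ : Representation F G (X → F), ∀ x, ρ x = 1 → f x = 1 := by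
  classical
  refine ⟨{ toFun := fun g =>
              { toFun := fun φ x => φ ((f g)⁻¹ x)
                map_add' := fun _ _ => rfl
                map_smul' := fun _ _ => rfl }
            map_one' := ?_
            map_mul' := ?_ }, ?_⟩
  · apply LinearMap.ext
    intro φ
    ext x
    simp
  · intro g h
    apply LinearMap.ext
    intro φ
    ext x
    simp [mul_inv_rev]
  · intro g hg
    ext x
    have h1 := congrArg (fun T : Module.End F (X → F) => T (Pi.single x 1) (f g x)) hg
    change (Pi.single x (1 : F) : X → F) ((f g)⁻¹ (f g x)) =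
      (Pi.single x (1 : F) : X → F) (f g x) at h1
    have h0 : (f g)⁻¹ (f g x) = x := by
      rw [← Equiv.Perm.mul_apply, inv_mul_cancel, Equiv.Perm.one_apply]
    rw [h0, Pi.single_eq_same] at h1
    by_contra hne
    have h2 : (Pi.single x (1 : F) : X → F) (f g x) = 0 := by
      rw [Pi.single_eq_of_ne]
      exact hne
    rw [h2] at h1
    exact one_ne_zero h1

theorem chain_good {F : Type} [Field F] [CharZero F] {G : Type} [Group G] (hGfg : Group.FG G)
    (C : Subgroup G) [hCn : C.Normal] (hsol : Group.IsSolvable C)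
    (hC : ∀ S : Subgroup G, S ≤ C → S.FG) (hgood : Good F (G ⧸ C)) :
    Good F G ∧ ∃ (V : Type) (_ : AddCommGroup V) (_ : Module F V)
      (_ : FiniteDimensional F V) (ρ : Representation F G V),
      ∀ x ∈ C, ρ x = 1 → ∃ m > 0, x ^ m = 1 := by
  classical
  let N : ℕ → Subgroup G := fun k => (derivedSeries C k).map C.subtype
  have hNn : ∀ k, (N k).Normal := fun k => ConjAct.normal_of_characteristic_of_normal
  have hNC : ∀ k, N k ≤ C := by
    rintro k _ ⟨x, hx, rfl⟩
    exact x.2
  have hN0 : N 0 = C := by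
    ext x
    constructor
    · intro hx
      exact hNC 0 hx
    · intro hx
      exact ⟨⟨x, hx⟩, by rw [derivedSeries_zero]; trivial, rfl⟩
  have hNsucc : ∀ k, N (k + 1) ≤ N k := by
    rintro k _ ⟨x, hx, rfl⟩
    exact ⟨x, derivedSeries_antitone C (Nat.le_succ k) hx, rfl⟩
  have hcomm : ∀ k, ∀ x ∈ N k, ∀ y ∈ N k, x * y * x⁻¹ * y⁻¹ ∈ N (k + 1) := by
    rintro k _ ⟨x, hx, rfl⟩ _ ⟨y, hy, rfl⟩
    refine ⟨x * y * x⁻¹ * y⁻¹, ?_, rfl⟩
    rw [derivedSeries_succ]
    exact Subgroup.commutator_mem_commutator hx hy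
  have key : ∀ k, Good F (G ⧸ N k) ∧ ∃ (V : Type) (_ : AddCommGroup V) (_ : Module F V)
      (_ : FiniteDimensional F V) (ρ : Representation F G V),
      ∀ x ∈ C, ρ x = 1 → ∃ m > 0, x ^ m ∈ N k := by
    intro k
    induction k with
    | zero =>
      refine ⟨?_, ?_⟩
      · apply good_of_bijective (QuotientGroup.map (N 0) C (MonoidHom.id G) (by
          intro x hx
          exact hNC 0 hx)) _ hgood
        constructor
        · rw [injective_iff_map_eq_one]
          intro a ha
          obtain ⟨x, rfl⟩ := QuotientGroup.mk_surjective a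
          have ha' : (QuotientGroup.mk x : G ⧸ C) = 1 := ha
          rw [QuotientGroup.eq_one_iff] at ha'
          rw [QuotientGroup.eq_one_iff, hN0]
          exact ha'
        · intro a
          obtain ⟨x, rfl⟩ := QuotientGroup.mk_surjective a
          exact ⟨QuotientGroup.mk x, rfl⟩
      · refine ⟨F, inferInstance, inferInstance, inferInstance, 1, ?_⟩
        intro x hx _
        refine ⟨1, one_pos, ?_⟩
        rw [pow_one, hN0]
        exact hx
    | succ k ih =>
      obtain ⟨hg, V, i1, i2, i3, ρ, hρ⟩ := ih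
      haveI := hNn k
      haveI := hNn (k + 1)
      obtain ⟨hg', V', j1, j2, j3, ρ', hρ'⟩ := step_good hGfg (N k) (N (k + 1)) (hNsucc k)
        (hcomm k) (fun S hS => hC S (hS.trans (hNC k))) hg
      refine ⟨hg', ?_⟩
      obtain ⟨R, hR⟩ := rep_prod ρ ρ'
      refine ⟨V × V', inferInstance, inferInstance, inferInstance, R, ?_⟩
      intro x hx hRx
      obtain ⟨h1, h2⟩ := hR x hRx
      obtain ⟨m, hm, h3⟩ := hρ x hx h1
      obtain ⟨m', hm', h4⟩ := hρ' (x ^ m) h3 (by rw [map_pow, h2, one_pow])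
      exact ⟨m * m', Nat.mul_pos hm hm', by rw [pow_mul]; exact h4⟩
  obtain ⟨d, hd⟩ := hsol.solvable
  obtain ⟨hg, V, i1, i2, i3, ρ, hρ⟩ := key d
  have hNd : N d = ⊥ := by
    simp only [N]
    rw [hd, Subgroup.map_bot]
  haveI := hNn d
  refine ⟨?_, V, i1, i2, i3, ρ, ?_⟩
  · apply good_of_bijective (QuotientGroup.mk' (N d)) _ hg
    refine ⟨?_, QuotientGroup.mk'_surjective _⟩
    rw [injective_iff_map_eq_one]
    intro a ha
    rw [← MonoidHom.mem_ker, QuotientGroup.ker_mk', hNd, Subgroup.mem_bot] at ha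
    exact ha
  · intro x hx h
    obtain ⟨m, hm, h1⟩ := hρ x hx h
    rw [hNd, Subgroup.mem_bot] at h1
    exact ⟨m, hm, h1⟩

theorem polycyclic_good {F : Type} [Field F] [CharZero F] {P : Type} [Group P]
    (hsol : Group.IsSolvable P) (hfg : AllFG P) :
    Good F P ∧ ∃ (V : Type) (_ : AddCommGroup V) (_ : Module F V)
      (_ : FiniteDimensional F V) (ρ : Representation F P V), ∀ x, ρ x = 1 → x = 1 := by
  classical
  haveI := hsol
  obtain ⟨hg, V, i1, i2, i3, ρ, hρ⟩ := chain_good (F := F) (G := P) hfg.fg ⊤ inferInstance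
    (fun S _ => hfg S) (by
      haveI : Subsingleton (P ⧸ (⊤ : Subgroup P)) := QuotientGroup.subsingleton_quotient_top
      exact good_one)
  refine ⟨hg, ?_⟩
  let R : Subgroup P := MonoidHom.ker ρ.toHomUnits
  have hR : ∀ x, x ∈ R ↔ ρ x = 1 := by
    intro x
    rw [MonoidHom.mem_ker, Units.ext_iff]
    rfl
  haveI hRf : Finite R := subgroup_finite_of_torsion hsol hfg R (by
    intro x hx
    exact hρ x trivial ((hR x).mp hx))
  obtain ⟨K, hKn, hKf, hK⟩ := rf hsol hfg R inferInstance hRf
  haveI : Finite (P ⧸ K) := inferInstance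
  obtain ⟨τ, hτ⟩ := perm_rep (F := F) (MulAction.toPermHom P (P ⧸ K))
  obtain ⟨σ, hσ⟩ := rep_prod ρ τ
  refine ⟨V × (P ⧸ K → F), inferInstance, inferInstance, inferInstance, σ, ?_⟩
  intro x hx
  obtain ⟨h1, h2⟩ := hσ x hx
  have h3 := hτ x h2
  have h4 : x ∈ K := by
    have := congrArg (fun f : Equiv.Perm (P ⧸ K) => f (QuotientGroup.mk 1)) h3
    simp only [MulAction.toPermHom_apply, MulAction.toPerm_apply, Equiv.Perm.coe_one, id_eq] at this
    rw [MulAction.Quotient.smul_mk, smul_eq_mul, mul_one] at this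
    rw [← QuotientGroup.eq_one_iff]
    exact this
  have h5 : x ∈ K ⊓ R := ⟨h4, (hR x).mpr h1⟩
  rwa [hK, Subgroup.mem_bot] at h5

end Pool.Agent.H2.Am
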