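import Pool.Agent.H2.Am.Beta5

set_option autoImplicit false
set_option linter.all false

namespace Pool.Agent.H2.Am

theorem half {F Γ₁ Γ E V : Type} [Field F] [Group Γ₁] [Group Γ] [Group E] [AddCommGroup V]
    [Module F V] [FiniteDimensional F V] (inc : Γ₁ →* Γ) (π : E →* Γ)
    (hπ : Function.Surjective π) (ρ : Representation F Γ V) (j : E → V)
    (hj1 : ∀ k k', π k = 1 → π k' = 1 → j (k * k') = j k + j k')
    (hj2 : ∀ e k, π k = 1 → j (e * k * e⁻¹) = ρ (π e) (j k)) (hG : Good F Γ₁) :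
    ∃ (V' : Type) (_ : AddCommGroup V') (_ : Module F V') (_ : FiniteDimensional F V')
      (ρ' : Representation F Γ₁ V') (i : V →ₗ[F] V'), Function.Injective i ∧
      (∀ g v, i (ρ (inc g) v) = ρ' g (i v)) ∧
      ∃ c : E → Γ₁ → V', (∀ e γ e' γ', π e = inc γ → π e' = inc γ' →
        c (e * e') (γ * γ') = c e γ + ρ' γ (c e' γ')) ∧
        ∀ k, π k = 1 → c k 1 = i (j k) := by
  classical
  let E₁ : Subgroup (E × Γ₁) :=
    { carrier := {a | π a.1 = inc a.2}
      mul_mem' := by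
        intro a b ha hb
        simp only [Set.mem_setOf_eq, Prod.fst_mul, Prod.snd_mul, map_mul] at *
        rw [ha, hb]
      one_mem' := by simp
      inv_mem' := by
        intro a ha
        simp only [Set.mem_setOf_eq, Prod.fst_inv, Prod.snd_inv, map_inv] at *
        rw [ha] }
  let q : E₁ →* Γ₁ := (MonoidHom.snd E Γ₁).comp E₁.subtype
  have hq : ∀ a : E₁, q a = a.1.2 := fun _ => rfl
  have hE₁ : ∀ a : E₁, π a.1.1 = inc a.1.2 := fun a => a.2
  have hqs : Function.Surjective q := by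
    intro γ
    obtain ⟨e, he⟩ := hπ (inc γ)
    exact ⟨⟨(e, γ), he⟩, rfl⟩
  obtain ⟨V', i1, i2, i3, ρ', i, hi, hie, c, hc, hck⟩ := hG E₁ q hqs V (ρ.comp inc)
    (fun a => j a.1.1)
    (by
      intro k k' hk hk'
      have h1 : π k.1.1 = 1 := by rw [hE₁, ← hq, hk, map_one]
      have h2 : π k'.1.1 = 1 := by rw [hE₁, ← hq, hk', map_one]
      exact hj1 _ _ h1 h2)
    (by
      intro e k hk
      have h1 : π k.1.1 = 1 := by rw [hE₁, ← hq, hk, map_one]
      have := hj2 e.1.1 k.1.1 h1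
      rw [hE₁] at this
      exact this)
  refine ⟨V', i1, i2, i3, ρ', i, hi, hie,
    fun e γ => if h : π e = inc γ then c ⟨(e, γ), h⟩ else 0, ?_, ?_⟩
  · intro e γ e' γ' h h'
    simp only
    have h2 : π (e * e') = inc (γ * γ') := by rw [map_mul, map_mul, h, h']
    rw [dif_pos h, dif_pos h', dif_pos h2]
    exact hc ⟨(e, γ), h⟩ ⟨(e', γ'), h'⟩
  · intro k hk
    have h : π k = inc 1 := by rw [hk, map_one]
    simp only
    rw [dif_pos h]
    exact hck ⟨(k, 1), h⟩ rfl

theorem extend_rep {F Γ₂ V V₁ : Type} [Field F] [Group Γ₂] [AddCommGroup V] [Module F V]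
    [AddCommGroup V₁] [Module F V₁] (ρ : Representation F Γ₂ V) (i : V →ₗ[F] V₁)
    (hi : Function.Injective i) :
    ∃ τ : Representation F Γ₂ V₁, ∀ g v, i (ρ g v) = τ g (i v) := by
  obtain ⟨L, hL⟩ := LinearMap.exists_leftInverse_of_injective i (LinearMap.ker_eq_bot.mpr hi)
  have hL' : ∀ v, L (i v) = v := fun v => congrArg (fun f : V →ₗ[F] V => f v) hL
  refine ⟨{ toFun := fun g => LinearMap.id + i ∘ₗ (ρ g - 1) ∘ₗ L
            map_one' := ?_
            map_mul' := ?_ }, ?_⟩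
  · apply LinearMap.ext
    intro v
    simp
  · intro g h
    apply LinearMap.ext
    intro v
    simp only [LinearMap.add_apply, LinearMap.id_apply, LinearMap.comp_apply,
      LinearMap.sub_apply, Module.End.one_apply, Module.End.mul_apply, map_mul, map_add, map_sub,
      hL']
    abel
  · intro g v
    change _ = i v + i ((ρ g - 1) (L (i v)))
    rw [hL', LinearMap.sub_apply, Module.End.one_apply, map_sub]
    abel

theorem good_coprod {F Γ₁ Γ₂ : Type} [Field F] [Group Γ₁] [Group Γ₂] (h1 : Good F Γ₁)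
    (h2 : Good F Γ₂) : Good F (Monoid.Coprod Γ₁ Γ₂) := by
  classical
  intro E _ π hπ V _ _ _ ρ j hj1 hj2
  obtain ⟨V₁, a1, a2, a3, ρ₁, i₁, hi₁, hie₁, c₁, hc₁, hck₁⟩ :=
    half Monoid.Coprod.inl π hπ ρ j hj1 hj2 h1
  obtain ⟨V₂, b1, b2, b3, ρ₂, i₂, hi₂, hie₂, c₂, hc₂, hck₂⟩ :=
    half Monoid.Coprod.inr π hπ ρ j hj1 hj2 h2
  obtain ⟨τ₁, hτ₁⟩ := extend_rep (ρ.comp Monoid.Coprod.inr) i₁ hi₁
  obtain ⟨τ₂, hτ₂⟩ := extend_rep (ρ.comp Monoid.Coprod.inl) i₂ hi₂
  let R₁ : Representation F (Monoid.Coprod Γ₁ Γ₂) V₁ := Monoid.Coprod.lift ρ₁ τ₁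
  let R₂ : Representation F (Monoid.Coprod Γ₁ Γ₂) V₂ := Monoid.Coprod.lift τ₂ ρ₂
  have hR₁ : ∀ g v, i₁ (ρ g v) = R₁ g (i₁ v) := by
    intro g
    induction g using Monoid.Coprod.induction_on with
    | inl m => intro v; exact hie₁ m v
    | inr n => intro v; exact hτ₁ n v
    | mul x y hx hy =>
      intro v
      rw [map_mul, map_mul, Module.End.mul_apply, Module.End.mul_apply, hx, hy]
  have hR₂ : ∀ g v, i₂ (ρ g v) = R₂ g (i₂ v) := by
    intro g
    induction g using Monoid.Coprod.induction_on with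
    | inl m => intro v; exact hτ₂ m v
    | inr n => intro v; exact hie₂ n v
    | mul x y hx hy =>
      intro v
      rw [map_mul, map_mul, Module.End.mul_apply, Module.End.mul_apply, hx, hy]
  obtain ⟨P, p1, p2, p3, τ, a, b, ha, hb, hae, hbe, hab⟩ := pushout V V₁ V₂ ρ R₁ R₂ i₁ i₂ hi₁ hi₂
    hR₁ hR₂
  let i : V →ₗ[F] P := a.comp i₁
  have hi : ∀ g v, i (ρ g v) = τ g (i v) := by
    intro g v
    change a (i₁ _) = τ g (a (i₁ v))
    rw [hR₁, hae]
  let τE : Representation F E P := τ.comp π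
  have hτE : ∀ e v, τE e v = τ (π e) v := fun _ _ => rfl
  let N : Subgroup (SD τE) :=
    { carrier := {x | π x.g = 1 ∧ x.v = i (j x.g)}
      mul_mem' := by
        rintro x y ⟨hx, hx'⟩ ⟨hy, hy'⟩
        refine ⟨by rw [SD.mul_g, map_mul, hx, hy, one_mul], ?_⟩
        rw [SD.mul_v, SD.mul_g, hj1 _ _ hx hy, hx', hy', hτE, hx, map_one, Module.End.one_apply,
          map_add]
      one_mem' := by
        refine ⟨by rw [SD.one_g, map_one], ?_⟩
        have : j 1 = 0 := by
          have := hj1 1 1 (map_one π) (map_one π)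
          simpa using this
        rw [SD.one_v, SD.one_g, this, map_zero]
      inv_mem' := by
        rintro x ⟨hx, hx'⟩
        refine ⟨by rw [SD.inv_g, map_inv, hx, inv_one], ?_⟩
        have h1 : j 1 = 0 := by
          have := hj1 1 1 (map_one π) (map_one π)
          simpa using this
        have h2 := hj1 x.g⁻¹ x.g (by rw [map_inv, hx, inv_one]) hx
        rw [inv_mul_cancel, h1] at h2
        rw [SD.inv_v, SD.inv_g, hτE, map_inv, hx, inv_one, map_one, Module.End.one_apply, hx',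
          eq_neg_of_add_eq_zero_left h2.symm, map_neg] }
  have hNn : N.Normal := by
    refine ⟨?_⟩
    rintro x ⟨hx, hx'⟩ y
    refine ⟨by simp [hx], ?_⟩
    rw [SD.mul_v, SD.mul_v, SD.mul_g, SD.mul_g, SD.mul_g, SD.inv_g, SD.inv_v, hj2 _ _ hx, hi, hx',
      hτE, hτE, hτE, map_mul π y.g, hx, mul_one, map_neg, ← Module.End.mul_apply, ← map_mul,
      ← map_mul, mul_inv_cancel, map_one, map_one, Module.End.one_apply]
    abel
  let M := SD τE ⧸ N
  have huniq : ∀ (v v' : P) (e : E), (QuotientGroup.mk (⟨v, e⟩ : SD τE) : SD τE ⧸ N) =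
      QuotientGroup.mk (⟨v', e⟩ : SD τE) → v = v' := by
    intro v v' e h
    rw [QuotientGroup.eq] at h
    have h3 := h.2
    have hj0 : j 1 = 0 := by
      have := hj1 1 1 (map_one π) (map_one π)
      simpa using this
    simp only [SD.mul_v, SD.mul_g, SD.inv_v, SD.inv_g, inv_mul_cancel, hj0, map_zero] at h3
    have h4 : τE e⁻¹ v' = τE e⁻¹ v := by
      have : τE e⁻¹ v' = (-(τE e⁻¹ v) + τE e⁻¹ v') + τE e⁻¹ v := by abel
      rw [this, h3, zero_add]
    have h5 : ∀ w, τE e (τE e⁻¹ w) = w := by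
      intro w
      rw [← Module.End.mul_apply, ← map_mul, mul_inv_cancel, map_one, Module.End.one_apply]
    rw [← h5 v, ← h5 v', h4]
  have hkmul : ∀ k, π k = 1 → ∀ (v : P) (e : E),
      (QuotientGroup.mk (⟨i (j k) + v, k * e⟩ : SD τE) : SD τE ⧸ N) =
      QuotientGroup.mk (⟨v, e⟩ : SD τE) := by
    intro k hk v e
    have hm : (⟨i (j k), k⟩ : SD τE) ∈ N := ⟨hk, rfl⟩
    have e1 : (⟨i (j k) + v, k * e⟩ : SD τE) = ⟨i (j k), k⟩ * ⟨v, e⟩ := by
      ext
      · rw [SD.mul_v, hτE, hk, map_one, Module.End.one_apply]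
      · rfl
    rw [e1, QuotientGroup.mk_mul, (QuotientGroup.eq_one_iff _).mpr hm, one_mul]
  -- the two partial sections
  have hsec : ∀ {Δ : Type} [Group Δ] (inc : Δ →* Monoid.Coprod Γ₁ Γ₂) (C : E → Δ → P)
      (hC : ∀ e γ e' γ', π e = inc γ → π e' = inc γ' →
        C (e * e') (γ * γ') = C e γ + τ (inc γ) (C e' γ'))
      (hCk : ∀ k, π k = 1 → C k 1 = i (j k)),
      ∃ s : Δ →* (SD τE ⧸ N), ∀ e γ, π e = inc γ →
        s γ = QuotientGroup.mk (⟨C e γ, e⟩ : SD τE) := by
    intro Δ _ inc C hC hCk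
    have hwd : ∀ e e' γ, π e = inc γ → π e' = inc γ →
        (QuotientGroup.mk (⟨C e γ, e⟩ : SD τE) : SD τE ⧸ N) =
          QuotientGroup.mk (⟨C e' γ, e'⟩ : SD τE) := by
      intro e e' γ he he'
      have hk : π (e * e'⁻¹) = 1 := by rw [map_mul, map_inv, he, he', mul_inv_cancel]
      have h3 := hC (e * e'⁻¹) 1 e' γ (by rw [hk, map_one]) he'
      rw [hCk _ hk, map_one, map_one, Module.End.one_apply, one_mul, inv_mul_cancel_right] at h3
      have h4 := hkmul _ hk (C e' γ) e'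
      rw [← h3, inv_mul_cancel_right] at h4
      exact h4
    refine ⟨{ toFun := fun γ => QuotientGroup.mk
                (⟨C (Function.surjInv hπ (inc γ)) γ, Function.surjInv hπ (inc γ)⟩ : SD τE)
              map_one' := ?_
              map_mul' := ?_ }, ?_⟩
    · rw [hwd _ 1 1 (by rw [Function.surjInv_eq hπ]) (by rw [map_one, map_one]),
        hCk 1 (map_one π), QuotientGroup.eq_one_iff]
      exact ⟨map_one π, rfl⟩
    · intro γ γ'
      have e1 := Function.surjInv_eq hπ (inc γ)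
      have e2 := Function.surjInv_eq hπ (inc γ')
      rw [hwd _ (Function.surjInv hπ (inc γ) * Function.surjInv hπ (inc γ')) (γ * γ')
        (by rw [Function.surjInv_eq hπ]) (by rw [map_mul, map_mul, e1, e2]), hC _ _ _ _ e1 e2,
        ← QuotientGroup.mk_mul]
      congr 1
      ext
      · rw [SD.mul_v, hτE, e1]
      · rfl
    · intro e γ he
      exact hwd _ _ _ (by rw [Function.surjInv_eq hπ]) he
  obtain ⟨s₁, hs₁⟩ := hsec Monoid.Coprod.inl (fun e γ => a (c₁ e γ))
    (by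
      intro e γ e' γ' he he'
      rw [hc₁ _ _ _ _ he he', map_add, ← hae]
      rfl)
    (by
      intro k hk
      rw [hck₁ k hk]
      rfl)
  obtain ⟨s₂, hs₂⟩ := hsec Monoid.Coprod.inr (fun e γ => b (c₂ e γ))
    (by
      intro e γ e' γ' he he'
      rw [hc₂ _ _ _ _ he he', map_add, ← hbe]
      rfl)
    (by
      intro k hk
      rw [hck₂ k hk, ← hab]
      rfl)
  let s : Monoid.Coprod Γ₁ Γ₂ →* (SD τE ⧸ N) := Monoid.Coprod.lift s₁ s₂
  have hex : ∀ (g : Monoid.Coprod Γ₁ Γ₂) (e : E), π e = g →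
      ∃ v, s g = QuotientGroup.mk (⟨v, e⟩ : SD τE) := by
    intro g
    induction g using Monoid.Coprod.induction_on with
    | inl m =>
      intro e he
      exact ⟨_, hs₁ e m he⟩
    | inr n =>
      intro e he
      exact ⟨_, hs₂ e n he⟩
    | mul x y hx hy =>
      intro e he
      obtain ⟨ex, hex⟩ := hπ x
      obtain ⟨ey, hey⟩ := hπ y
      obtain ⟨v, hv⟩ := hx ex hex
      obtain ⟨w, hw⟩ := hy ey hey
      have hk : π (e * (ex * ey)⁻¹) = 1 := by
        rw [map_mul, he, map_inv, map_mul, hex, hey, mul_inv_cancel]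
      refine ⟨i (j (e * (ex * ey)⁻¹)) + (v + τE ex w), ?_⟩
      have h3 := hkmul _ hk (v + τE ex w) (ex * ey)
      rw [inv_mul_cancel_right] at h3
      rw [h3, map_mul, hv, hw, ← QuotientGroup.mk_mul]
      rfl
  choose c hc using fun e => hex (π e) e rfl
  refine ⟨P, p1, p2, p3, τ, i, fun x y h => hi₁ (ha h), hi, c, ?_, ?_⟩
  · intro e e'
    apply huniq _ _ (e * e')
    rw [← hc, map_mul, map_mul, hc, hc, ← QuotientGroup.mk_mul]
    rfl
  · intro k hk
    apply huniq _ _ k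
    rw [← hc, hk, map_one]
    symm
    rw [QuotientGroup.eq_one_iff]
    exact ⟨hk, rfl⟩

end Pool.Agent.H2.Am
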