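import Pool.Agent.H2.Am.Assembly

set_option autoImplicit false
set_option linter.all false

namespace Pool.Agent.H2.Am

theorem good_of_finite_ker {F Γ Γ' : Type} [Field F] [CharZero F] [Group Γ] [Group Γ']
    (p : Γ →* Γ') (hp : Function.Surjective p) (hfin : Finite p.ker) (hG : Good F Γ') :
    Good F Γ := by
  classical
  intro E _ π hπ V _ _ _ ρ j hj1 hj2
  haveI : Fintype p.ker := Fintype.ofFinite _
  set s : Γ → E := Function.surjInv hπ with hs
  have hsπ : ∀ g, π (s g) = g := fun g => Function.surjInv_eq hπ g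
  set N : F := (Fintype.card p.ker : F) with hN
  have hN0 : N ≠ 0 := by
    rw [hN]
    exact_mod_cast Fintype.card_ne_zero
  let S : E → V := fun y => ∑ φ : p.ker, j (y * s φ * (s (π y * φ))⁻¹)
  let c : E → V := fun y => N⁻¹ • S y
  have hSmul : ∀ x y, p (π x) = 1 → p (π y) = 1 → S (x * y) = S x + ρ (π x) (S y) := by
    intro x y hx hy
    have h1 : ∀ φ : p.ker, j (x * y * s φ * (s (π (x * y) * φ))⁻¹) =
        ρ (π x) (j (y * s φ * (s (π y * φ))⁻¹)) +
          j (x * s (π y * φ) * (s (π x * (π y * φ)))⁻¹) := by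
      intro φ
      rw [← hj2 x _ (by simp [hsπ]), ← hj1]
      · congr 1
        rw [map_mul, mul_assoc (π x)]
        group
      · simp only [map_mul, map_inv, hsπ]; group
      · simp only [map_mul, map_inv, hsπ]; group
    simp only [S]
    rw [Finset.sum_congr rfl (fun φ _ => h1 φ), Finset.sum_add_distrib, ← map_sum, add_comm]
    congr 1
    exact Fintype.sum_equiv (Equiv.mulLeft (⟨π y, hy⟩ : p.ker)) _ _ (fun φ => rfl)
  have hc : ∀ x y, p (π x) = 1 → p (π y) = 1 → c (x * y) = c x + ρ (π x) (c y) := by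
    intro x y hx hy
    simp only [c]
    rw [hSmul x y hx hy, smul_add, map_smul]
  have hck : ∀ k, π k = 1 → c k = j k := by
    intro k hk
    simp only [c, S]
    have h1 : ∀ φ : p.ker, j (k * s φ * (s (π k * φ))⁻¹) = j k := by
      intro φ
      rw [hk, one_mul, mul_inv_cancel_right]
    rw [Finset.sum_congr rfl (fun φ _ => h1 φ), Finset.sum_const, Finset.card_univ,
      ← Nat.cast_smul_eq_nsmul F, smul_smul, inv_mul_cancel₀ hN0, one_smul]
  have hw : ∀ g, ∃ w, ∀ x, p (π x) = 1 →
      ρ (π g) (c (g⁻¹ * x * g)) - c x = ρ (π x) w - w := by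
    intro g
    let d : E → V := fun x => ρ (π g) (c (g⁻¹ * x * g)) - c x
    have hd : ∀ x y, p (π x) = 1 → p (π y) = 1 → d (x * y) = d x + ρ (π x) (d y) := by
      intro x y hx hy
      simp only [d]
      have e1 : g⁻¹ * (x * y) * g = (g⁻¹ * x * g) * (g⁻¹ * y * g) := by group
      rw [e1, hc _ _ (by simp [hx]) (by simp [hy]), hc _ _ hx hy, map_add, map_sub]
      have e3 : ρ (π g) (ρ (π (g⁻¹ * x * g)) (c (g⁻¹ * y * g))) =
          ρ (π x) (ρ (π g) (c (g⁻¹ * y * g))) := by
        rw [← Module.End.mul_apply, ← Module.End.mul_apply, ← map_mul, ← map_mul, ← map_mul,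
            ← map_mul]
        congr 3
        group
      rw [e3]
      abel
    have hdk : ∀ k, π k = 1 → d k = 0 := by
      intro k hk
      simp only [d]
      rw [hck _ (by simp [hk]), hck _ hk]
      have := hj2 g (g⁻¹ * k * g) (by simp [hk])
      rw [← this]
      have e1 : g * (g⁻¹ * k * g) * g⁻¹ = k := by group
      rw [e1, sub_self]
    have hds : ∀ x (φ : p.ker), p (π x) = 1 → d (x * s φ) = d (s (π x * φ)) := by
      intro x φ hx
      have e1 : x * s φ = s (π x * φ) * ((s (π x * φ))⁻¹ * (x * s φ)) := by group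
      have hφ : p φ = 1 := φ.2
      have e2 : π ((s (π x * φ))⁻¹ * (x * s φ)) = 1 := by
        simp only [map_mul, map_inv, hsπ]; group
      rw [e1, hd _ _ (by rw [hsπ, map_mul, hx, hφ, one_mul]) (by rw [e2, map_one]),
        hdk ((s (π x * φ))⁻¹ * (x * s φ)) e2, map_zero, add_zero]
    refine ⟨-(N⁻¹ • ∑ φ : p.ker, d (s φ)), ?_⟩
    intro x hx
    change d x = _
    have h1 : ρ (π x) (∑ φ : p.ker, d (s φ)) = (∑ φ : p.ker, d (s φ)) - N • d x := by
      rw [map_sum]
      have h2 : ∀ φ : p.ker, ρ (π x) (d (s φ)) = d (s (π x * φ)) - d x := by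
        intro φ
        have hφ : p φ = 1 := φ.2
        have := hd x (s φ) hx (by rw [hsπ]; exact hφ)
        rw [hds x φ hx] at this
        rw [this]
        abel
      rw [Finset.sum_congr rfl (fun φ _ => h2 φ), Finset.sum_sub_distrib, Finset.sum_const,
        Finset.card_univ, ← Nat.cast_smul_eq_nsmul F]
      congr 1
      exact Fintype.sum_equiv (Equiv.mulLeft (⟨π x, hx⟩ : p.ker)) _ _ (fun φ => rfl)
    rw [map_neg, map_smul, h1, smul_sub, smul_smul, inv_mul_cancel₀ hN0, one_smul]
    abel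
  obtain ⟨P, i1, i2, i3, τ, a, ha, hae, C, hC, hCc⟩ :=
    assembly p hp hG π hπ ρ c hc hw
  refine ⟨P, i1, i2, i3, τ, a, ha, hae, C, hC, ?_⟩
  intro k hk
  rw [hCc k (by rw [hk, map_one]), hck k hk]

theorem good_one {F Γ : Type} [Field F] [CharZero F] [Group Γ] [Subsingleton Γ] : Good F Γ := by
  intro E _ π hπ V _ _ _ ρ j hj1 hj2
  refine ⟨V, inferInstance, inferInstance, inferInstance, ρ, LinearMap.id, fun _ _ h => h,
    fun _ _ => rfl, j, ?_, fun _ _ => rfl⟩
  intro e e'
  rw [hj1 e e' (Subsingleton.elim _ _) (Subsingleton.elim _ _), Subsingleton.elim (π e) 1,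
    map_one, Module.End.one_apply]

theorem good_of_bijective {F Γ Γ' : Type} [Field F] [CharZero F] [Group Γ] [Group Γ']
    (p : Γ →* Γ') (hp : Function.Bijective p) (hG : Good F Γ') : Good F Γ := by
  apply good_of_finite_ker p hp.2 _ hG
  have : p.ker = ⊥ := (MonoidHom.ker_eq_bot_iff p).mpr hp.1
  rw [this]
  infer_instance

end Pool.Agent.H2.Am
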