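import Pool.Agent.H2.Am.PingPong

set_option autoImplicit false
set_option linter.all false

namespace Pool.Agent.H2.Am

open Polynomial in
theorem exists_functional {K V : Type} [Field K] [Uncountable K] [AddCommGroup V] [Module K V]
    [FiniteDimensional K V] (S : Set V) (hS : S.Countable) (h0 : (0 : V) ∉ S) :
    ∃ τ : V →ₗ[K] K, ∀ s ∈ S, τ s ≠ 0 := by
  classical
  let b := Module.finBasis K V
  let p : V → K[X] := fun s => ∑ k, C (b.repr s k) * X ^ (k : ℕ)
  have hp : ∀ s ∈ S, p s ≠ 0 := by
    intro s hs h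
    apply h0
    have : s = 0 := by
      rw [← b.repr.map_eq_zero_iff]
      ext k
      have h1 := congrArg (fun q : K[X] => q.coeff (k : ℕ)) h
      simp only [p, finset_sum_coeff, coeff_C_mul, coeff_X_pow, coeff_zero] at h1
      rw [Finset.sum_eq_single k] at h1
      · simpa using h1
      · intro j _ hj
        rw [if_neg, mul_zero]
        intro h2
        exact hj (Fin.ext h2.symm)
      · intro h2
        exact absurd (Finset.mem_univ k) h2
    rw [← this]
    exact hs
  have hcount : (⋃ s ∈ S, ((p s).roots.toFinset : Set K)).Countable :=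
    hS.biUnion (fun s _ => (Finset.finite_toSet _).countable)
  have : ∃ x : K, x ∉ ⋃ s ∈ S, ((p s).roots.toFinset : Set K) := by
    by_contra hcon
    push Not at hcon
    have : (Set.univ : Set K).Countable := hcount.mono (fun x _ => hcon x)
    exact Set.not_countable_univ this
  obtain ⟨x, hx⟩ := this
  refine ⟨∑ k : Fin (Module.finrank K V), (x ^ (k : ℕ)) • b.coord k, ?_⟩
  intro s hs h
  apply hx
  rw [Set.mem_iUnion₂]
  refine ⟨s, hs, ?_⟩
  rw [Finset.mem_coe, Multiset.mem_toFinset, mem_roots (hp s hs), IsRoot.def]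
  simp only [p, eval_finset_sum, eval_mul, eval_C, eval_pow, eval_X]
  rw [LinearMap.sum_apply] at h
  rw [← h]
  apply Finset.sum_congr rfl
  intro k _
  simp [mul_comm]

theorem vec_data {K : Type} [Field K] [Uncountable K] (A : Type) [Group A] [Countable A]
    (W : Type) [AddCommGroup W] [Module K W] [FiniteDimensional K W]
    (ρ : Representation K A W) (hρ : ∀ a, ρ a = 1 → a = 1) :
    ∃ (V : Type) (_ : AddCommGroup V) (_ : Module K V) (_ : FiniteDimensional K V)
      (σ : Representation K A V) (v : V) (l : V →ₗ[K] K), l v = 0 ∧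
      ∀ a, a ≠ 1 → l (σ a v) ≠ 0 := by
  let S : Set (Module.End K W) := {T | ∃ a, a ≠ 1 ∧ T = ρ a - 1}
  have hS : S.Countable := by
    have : S ⊆ Set.range (fun a : A => ρ a - 1) := by
      rintro T ⟨a, _, rfl⟩
      exact ⟨a, rfl⟩
    exact (Set.countable_range _).mono this
  obtain ⟨τ, hτ⟩ := exists_functional (K := K) S hS (by
    rintro ⟨a, ha, h⟩
    exact ha (hρ a (sub_eq_zero.mp h.symm)))
  refine ⟨Module.End K W × K, inferInstance, inferInstance, inferInstance,
    { toFun := fun a => (LinearMap.mulLeft K (ρ a)).prodMap LinearMap.id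
      map_one' := ?_
      map_mul' := ?_ }, (1, 1),
    τ.comp (LinearMap.fst K _ K) - (τ 1) • (LinearMap.snd K _ K), ?_, ?_⟩
  · apply LinearMap.ext
    rintro ⟨T, s⟩
    simp
  · intro a b
    apply LinearMap.ext
    rintro ⟨T, s⟩
    simp [mul_assoc]
  · simp
  · intro a ha
    have h1 := hτ (ρ a - 1) ⟨a, ha, rfl⟩
    rw [map_sub] at h1
    simpa using h1

open Cardinal in
open Polynomial Matrix in
theorem free_prod {K : Type} [Field K] [Uncountable K]
    (A : Fin 2 → Type) [∀ i, Group (A i)] [∀ i, Countable (A i)] (hcard : 3 ≤ #(A 0))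
    (hrep : ∀ i, ∃ (W : Type) (_ : AddCommGroup W) (_ : Module K W) (_ : FiniteDimensional K W)
      (ρ : Representation K (A i) W), ∀ a, ρ a = 1 → a = 1) :
    ∃ (n : ℕ) (f : Monoid.CoprodI A →* GL (Fin n) K[X]), Function.Injective f := by
  classical
  obtain ⟨W0, a1, a2, a3, r0, hr0⟩ := hrep 0
  obtain ⟨W1, b1, b2, b3, r1, hr1⟩ := hrep 1
  obtain ⟨V0, c1, c2, c3, ρ0, v0, l0, hl0, hA0⟩ := vec_data (A 0) W0 r0 hr0
  obtain ⟨V1, d1, d2, d3, ρ1, v1, l1, hl1, hA1⟩ := vec_data (A 1) W1 r1 hr1
  let V := V0 × V1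
  let PA : A 0 →* Module.End K V :=
    { toFun := fun a => (ρ0 a).prodMap LinearMap.id
      map_one' := by
        apply LinearMap.ext
        rintro ⟨x, y⟩
        simp
      map_mul' := by
        intro a b
        apply LinearMap.ext
        rintro ⟨x, y⟩
        simp }
  let PB : A 1 →* Module.End K V :=
    { toFun := fun a => LinearMap.prodMap LinearMap.id (ρ1 a)
      map_one' := by
        apply LinearMap.ext
        rintro ⟨x, y⟩
        simp
      map_mul' := by
        intro a b
        apply LinearMap.ext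
        rintro ⟨x, y⟩
        simp }
  let N : Module.End K V := LinearMap.prod
    ((LinearMap.toSpanSingleton K V0 v0).comp (l1.comp (LinearMap.snd K V0 V1)))
    (-((LinearMap.toSpanSingleton K V1 v1).comp (l0.comp (LinearMap.fst K V0 V1))))
  have hN : ∀ x y, N (x, y) = (l1 y • v0, -(l0 x • v1)) := fun _ _ => rfl
  let v : V := (v0, 0)
  let l : V →ₗ[K] K := l0.comp (LinearMap.fst K V0 V1)
  have hl : ∀ x y, l (x, y) = l0 x := fun _ _ => rfl
  let b := Module.finBasis K V
  let tm := LinearMap.toMatrixAlgEquiv b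
  let vv : Fin (Module.finrank K V) → K := fun i => b.repr v i
  let ll : Fin (Module.finrank K V) → K := fun i => l (b i)
  have hll : ∀ x : V, ll ⬝ᵥ (fun i => b.repr x i) = l x := by
    intro x
    conv_rhs => rw [← b.sum_repr x]
    rw [map_sum]
    simp only [map_smul, dotProduct, ll, smul_eq_mul]
    apply Finset.sum_congr rfl
    intro i _
    ring
  have htm : ∀ (T : Module.End K V) (x : V), tm T *ᵥ (fun i => b.repr x i) =
      fun i => b.repr (T x) i := by
    intro T x
    exact LinearMap.toMatrix_mulVec_repr b b T x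
  have hnt : ∃ a : A 0, a ≠ 1 := by
    by_contra h
    push Not at h
    have : Subsingleton (A 0) := ⟨fun x y => by rw [h x, h y]⟩
    have h2 : #(A 0) ≤ 1 := Cardinal.le_one_iff_subsingleton.mpr this
    have h3 := hcard.trans h2
    norm_num at h3
  obtain ⟨a0, ha0⟩ := hnt
  have hlv : ll ⬝ᵥ vv = 0 := by
    rw [hll]
    exact hl0
  have hAll : ∀ a, a ≠ 1 → ll ⬝ᵥ (tm (PA a) *ᵥ vv) ≠ 0 := by
    intro a ha
    rw [htm, hll]
    exact hA0 a ha
  obtain ⟨f, hf⟩ := pingpong A hcard (tm.toAlgHom.toRingHom.toMonoidHom.comp PA)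
    (tm.toAlgHom.toRingHom.toMonoidHom.comp PB) (tm N) (by
      rw [← map_mul]
      have : N * N = 0 := by
        apply LinearMap.ext
        rintro ⟨x, y⟩
        rw [Module.End.mul_apply, hN, hN]
        refine Prod.ext ?_ ?_
        · simp [hl0, hl1]
        · simp [hl0, hl1]
      rw [this, map_zero]) vv ll hlv
    (by
      intro h
      apply hAll a0 ha0
      rw [h, mulVec_zero, dotProduct_zero])
    (by
      intro h
      apply hAll a0 ha0
      rw [h, zero_dotProduct]) hAll
    (by
      intro β hβ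
      refine ⟨l1 (ρ1 β v1), hA1 β hβ, ?_⟩
      have e1 : -(N * PB β * N) = (l1 (ρ1 β v1)) • (LinearMap.toSpanSingleton K V v).comp l := by
        apply LinearMap.ext
        rintro ⟨x, y⟩
        rw [LinearMap.neg_apply, Module.End.mul_apply, Module.End.mul_apply, hN]
        change -(N (l1 y • v0, ρ1 β (-(l0 x • v1)))) = l1 (ρ1 β v1) • (l0 x • ((v0, 0) : V))
        rw [hN]
        refine Prod.ext ?_ ?_
        · change -(l1 (ρ1 β (-(l0 x • v1))) • v0) = l1 (ρ1 β v1) • (l0 x • v0)
          simp [smul_smul, mul_comm]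
        · change -(-(l0 (l1 y • v0) • v1)) = l1 (ρ1 β v1) • (l0 x • (0 : V1))
          simp [hl0]
      change -(tm N * tm (PB β) * tm N) = _
      rw [← map_mul, ← map_mul, ← map_neg, e1, map_smul]
      congr 1
      ext i j
      change LinearMap.toMatrix b b _ i j = _
      rw [LinearMap.toMatrix_apply, vecMulVec_apply]
      simp [vv, ll, mul_comm])
  exact ⟨_, f, hf⟩

theorem gl_to_ratfunc {K : Type} [Field K] (n : ℕ) :
    ∃ f : Matrix.GeneralLinearGroup (Fin n) (Polynomial K) →*
      Matrix.GeneralLinearGroup (Fin n) (RatFunc K), Function.Injective f := by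
  refine ⟨Matrix.GeneralLinearGroup.map (algebraMap (Polynomial K) (RatFunc K)), ?_⟩
  intro g h hgh
  apply Units.ext
  refine Matrix.ext (fun i j => ?_)
  have h1 := congrArg (fun u : Matrix.GeneralLinearGroup (Fin n) (RatFunc K) => u.1 i j) hgh
  exact RatFunc.algebraMap_injective K h1

end Pool.Agent.H2.Am
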