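import Pool.Agent.H2.Am.Chain
import Pool.Agent.H2.Am.FreeProd

set_option autoImplicit false
set_option linter.all false

namespace Pool.Agent.H2.Am

/-- a group is a free set over a subgroup acting by left translations -/
theorem freeset {Q K : Type} [Group Q] [Group K] (f : K →* Q) (hf : Function.Injective f) :
    ∃ (T : Type) (e : Q ≃ K × T), ∀ k q, e (f k * q) = (k * (e q).1, (e q).2) := by
  classical
  let T := Q ⧸ f.range
  have hκ : ∀ q : Q, ∃ k, f k = q * Quotient.out (QuotientGroup.mk q⁻¹ : T) := by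
    intro q
    have h1 : (QuotientGroup.mk (Quotient.out (QuotientGroup.mk q⁻¹ : T)) : T) =
        QuotientGroup.mk q⁻¹ := Quotient.out_eq _
    rw [eq_comm, QuotientGroup.eq, inv_inv] at h1
    exact h1
  choose κ hκ using hκ
  have hmk : ∀ k q, (QuotientGroup.mk (f k * q)⁻¹ : T) = QuotientGroup.mk q⁻¹ := by
    intro k q
    rw [QuotientGroup.eq, inv_inv]
    exact ⟨k, by group⟩
  refine ⟨T, { toFun := fun q => (κ q, QuotientGroup.mk q⁻¹)
               invFun := fun p => f p.1 * (Quotient.out p.2)⁻¹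
               left_inv := ?_
               right_inv := ?_ }, ?_⟩
  · intro q
    simp only
    rw [hκ]
    group
  · rintro ⟨k, t⟩
    simp only
    have e1 : (QuotientGroup.mk (f k * (Quotient.out t)⁻¹)⁻¹ : T) = t := by
      rw [hmk, inv_inv]
      exact Quotient.out_eq t
    refine Prod.ext ?_ e1
    apply hf
    simp only
    rw [hκ, e1]
    group
  · intro k q
    refine Prod.ext ?_ (hmk k q)
    apply hf
    change f (κ (f k * q)) = f (k * κ q)
    rw [hκ, hmk, map_mul, hκ]
    group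

theorem match_perm (G : Fin 2 → Type) [∀ i, Group (G i)] (H : Type) [Group H]
    (φ : ∀ i, H →* G i) (C₁ : Subgroup H) [C₁.Normal] (L : ∀ i, Subgroup (G i))
    (hLn : ∀ i, (L i).Normal) (hLf : ∀ i, (L i).FiniteIndex)
    (hL : ∀ i h, φ i h ∈ L i ↔ h ∈ C₁) :
    ∃ (X : Type) (_ : Finite X) (f : Monoid.PushoutI φ →* Equiv.Perm X),
      ∀ h, f (Monoid.PushoutI.base φ h) = 1 → h ∈ C₁ := by
  classical
  haveI := hLn
  haveI := hLf
  let f : ∀ i, H ⧸ C₁ →* G i ⧸ L i := fun i =>
    QuotientGroup.lift C₁ ((QuotientGroup.mk' (L i)).comp (φ i)) (by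
      intro h hh
      rw [MonoidHom.mem_ker, MonoidHom.comp_apply, ← MonoidHom.mem_ker, QuotientGroup.ker_mk']
      exact (hL i h).mpr hh)
  have hfmk : ∀ i h, f i (QuotientGroup.mk h) = QuotientGroup.mk (φ i h) := fun _ _ => rfl
  have hf : ∀ i, Function.Injective (f i) := by
    intro i
    rw [injective_iff_map_eq_one]
    intro a ha
    obtain ⟨h, rfl⟩ := QuotientGroup.mk_surjective a
    rw [hfmk, QuotientGroup.eq_one_iff] at ha
    rw [QuotientGroup.eq_one_iff]
    exact (hL i h).mp ha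
  obtain ⟨T0, e0, he0⟩ := freeset (f 0) (hf 0)
  obtain ⟨T1, e1, he1⟩ := freeset (f 1) (hf 1)
  let X := (G 0 ⧸ L 0) × (G 1 ⧸ L 1)
  haveI : Finite X := by
    haveI : Finite (G 0 ⧸ L 0) := inferInstance
    haveI : Finite (G 1 ⧸ L 1) := inferInstance
    exact inferInstanceAs (Finite ((G 0 ⧸ L 0) × (G 1 ⧸ L 1)))
  let θf : X → X := fun p =>
    (e0.symm ((e1 p.2).1, (e0 p.1).2), e1.symm ((e0 p.1).1, (e1 p.2).2))
  have hθθ : ∀ p, θf (θf p) = p := by
    rintro ⟨a, b⟩
    simp [θf]
  let θ : Equiv.Perm X := ⟨θf, θf, hθθ, hθθ⟩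
  have hθ : ∀ p, θ p = θf p := fun _ => rfl
  let F0 : G 0 →* Equiv.Perm X :=
    { toFun := fun g => Equiv.prodCongr (Equiv.mulLeft (QuotientGroup.mk g)) (Equiv.refl _)
      map_one' := by
        ext p
        · simp
        · simp
      map_mul' := by
        intro g h
        ext p
        · simp [mul_assoc]
        · simp }
  let F1' : G 1 →* Equiv.Perm X :=
    { toFun := fun g => Equiv.prodCongr (Equiv.refl _) (Equiv.mulLeft (QuotientGroup.mk g))
      map_one' := by
        ext p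
        · simp
        · simp
      map_mul' := by
        intro g h
        ext p
        · simp
        · simp [mul_assoc] }
  let F1 : G 1 →* Equiv.Perm X := (MulAut.conj θ⁻¹).toMonoidHom.comp F1'
  have hF0 : ∀ g p, F0 g p = (QuotientGroup.mk g * p.1, p.2) := fun _ _ => rfl
  have hF1' : ∀ g p, F1' g p = (p.1, QuotientGroup.mk g * p.2) := fun _ _ => rfl
  have hF1 : ∀ g, F1 g = θ⁻¹ * F1' g * θ := by
    intro g
    change θ⁻¹ * F1' g * (θ⁻¹)⁻¹ = _
    rw [inv_inv]
  have hagree : ∀ h, F0 (φ 0 h) = F1 (φ 1 h) := by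
    intro h
    rw [hF1, mul_assoc, eq_inv_mul_iff_mul_eq]
    ext p : 1
    rw [Equiv.Perm.mul_apply, Equiv.Perm.mul_apply, hF0, hF1', hθ, hθ]
    have h0 := he0 (QuotientGroup.mk h) p.1
    rw [hfmk] at h0
    have h1 := he1 (QuotientGroup.mk h) (e1.symm ((e0 p.1).1, (e1 p.2).2))
    rw [hfmk, Equiv.apply_symm_apply] at h1
    refine Prod.ext ?_ ?_
    · change e0.symm ((e1 p.2).1, (e0 (QuotientGroup.mk (φ 0 h) * p.1)).2) =
        e0.symm ((e1 p.2).1, (e0 p.1).2)
      rw [h0]
    · change e1.symm ((e0 (QuotientGroup.mk (φ 0 h) * p.1)).1, (e1 p.2).2) =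
        QuotientGroup.mk (φ 1 h) * e1.symm ((e0 p.1).1, (e1 p.2).2)
      rw [h0, Equiv.symm_apply_eq, h1]
  let FF : ∀ i, G i →* Equiv.Perm X := fun i => match i with
    | 0 => F0
    | 1 => F1
  refine ⟨X, inferInstance, Monoid.PushoutI.lift FF (F0.comp (φ 0)) ?_, ?_⟩
  · intro i
    fin_cases i
    · rfl
    · ext1 h
      exact (hagree h).symm
  · intro h hh
    rw [Monoid.PushoutI.lift_base] at hh
    have h1 := congrArg (fun P : Equiv.Perm X => (P (1, 1)).1) hh
    change QuotientGroup.mk (φ 0 h) * (1 : G 0 ⧸ L 0) = 1 at h1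
    rw [mul_one, QuotientGroup.eq_one_iff] at h1
    exact (hL 0 h).mp h1

theorem combine {K L Γ : Type} [Field K] [Field L] [Algebra K L] [Group Γ] (V : Type)
    [AddCommGroup V] [Module K V] [FiniteDimensional K V] (ρ : Representation K Γ V) (n : ℕ)
    (f : Γ →* Matrix.GeneralLinearGroup (Fin n) L) :
    ∃ (N : ℕ) (F : Γ →* Matrix.GeneralLinearGroup (Fin N) L), ∀ x, F x = 1 → ρ x = 1 ∧ f x = 1 := by
  classical
  let b := Module.finBasis K V
  let d := Module.finrank K V
  let M₁ : Γ →* Matrix (Fin d) (Fin d) L :=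
    ((algebraMap K L).mapMatrix.toMonoidHom).comp
      (((LinearMap.toMatrixAlgEquiv b).toAlgHom.toRingHom.toMonoidHom).comp ρ)
  have hM₁ : ∀ x, M₁ x = (LinearMap.toMatrixAlgEquiv b (ρ x)).map (algebraMap K L) :=
    fun _ => rfl
  let M₂ : Γ →* Matrix (Fin n) (Fin n) L := (Units.coeHom _).comp f
  let M : Γ →* Matrix (Fin d ⊕ Fin n) (Fin d ⊕ Fin n) L :=
    { toFun := fun x => Matrix.fromBlocks (M₁ x) 0 0 (M₂ x)
      map_one' := by rw [map_one, map_one, Matrix.fromBlocks_one]
      map_mul' := by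
        intro x y
        rw [Matrix.fromBlocks_multiply, map_mul, map_mul]
        simp }
  let re := Matrix.reindexAlgEquiv L L (finSumFinEquiv (m := d) (n := n))
  refine ⟨d + n, (re.toAlgHom.toRingHom.toMonoidHom.comp M).toHomUnits, ?_⟩
  intro x hx
  have h1 : re (M x) = 1 := congrArg Units.val hx
  have h2 : M x = 1 := by
    apply re.injective
    rw [h1, map_one]
  change Matrix.fromBlocks (M₁ x) 0 0 (M₂ x) = 1 at h2
  rw [← Matrix.fromBlocks_one, Matrix.fromBlocks_inj] at h2
  refine ⟨?_, Units.ext h2.2.2.2⟩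
  apply (LinearMap.toMatrixAlgEquiv b).injective
  rw [map_one]
  have h3 := h2.1
  rw [hM₁] at h3
  ext i j
  have h4 := congrFun (congrFun h3 i) j
  rw [Matrix.map_apply] at h4
  have h5 : (algebraMap K L) ((1 : Matrix (Fin d) (Fin d) K) i j) =
      (1 : Matrix (Fin d) (Fin d) L) i j := by
    rw [Matrix.one_apply, Matrix.one_apply]
    split_ifs <;> simp
  rw [← h5] at h4
  exact (algebraMap K L).injective h4

theorem countable_of_fg {P : Type} [Group P] (h : Group.FG P) : Countable P := by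
  obtain ⟨α, _, f, hf⟩ := Group.fg_iff_exists_freeGroup_hom_surjective_finite.mp h
  haveI : Countable α := Finite.to_countable
  exact hf.countable

theorem rep_timesZ {K Q W : Type} [Field K] [CharZero K] [Group Q] [AddCommGroup W] [Module K W]
    (ρ : Representation K Q W) (hρ : ∀ q, ρ q = 1 → q = 1) :
    ∃ σ : Representation K (Q × Multiplicative ℤ) (W × K), ∀ x, σ x = 1 → x = 1 := by
  have h2 : (2 : K) ≠ 0 := two_ne_zero
  let z : Multiplicative ℤ →* Module.End K K :=
    (algebraMap K (Module.End K K)).toMonoidHom.comp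
      ((Units.coeHom K).comp (zpowersHom Kˣ (Units.mk0 2 h2)))
  have hz : ∀ n, z n = 1 → n = 1 := by
    intro n hn
    have h3 := congrArg (fun f : Module.End K K => f 1) hn
    have h4 : ((2 : K) ^ (Multiplicative.toAdd n)) = 1 := by
      have : z n 1 = (2 : K) ^ (Multiplicative.toAdd n) := by
        simp [z, zpowersHom_apply]
      rw [← this]
      exact h3
    have h5 : ((2 : ℚ) ^ (Multiplicative.toAdd n)) = 1 := by
      have h6 : (((2 : ℚ) ^ (Multiplicative.toAdd n) : ℚ) : K) = ((1 : ℚ) : K) := by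
        push_cast
        exact h4
      exact_mod_cast h6
    have h7 : Multiplicative.toAdd n = 0 := by
      have := zpow_right_injective₀ (a := (2 : ℚ)) (by norm_num) (by norm_num)
      apply this
      simpa using h5
    exact h7
  obtain ⟨σ, hσ⟩ := rep_prod (ρ.comp (MonoidHom.fst Q (Multiplicative ℤ)))
    (z.comp (MonoidHom.snd Q (Multiplicative ℤ)))
  refine ⟨σ, ?_⟩
  rintro ⟨q, n⟩ hx
  obtain ⟨h3, h4⟩ := hσ _ hx
  exact Prod.ext (hρ q h3) (hz n h4)

end Pool.Agent.H2.Am
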