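import Pool.Agent.H2.Am.Final

set_option autoImplicit false
set_option linter.all false

namespace Pool.Agent.H2.Am

theorem AllFG.inj {Γ H : Type} [Group Γ] [Group H] (h : AllFG Γ) (f : H →* Γ)
    (hf : Function.Injective f) : AllFG H := by
  intro S
  have h1 := (Group.fg_iff_subgroup_fg _).mpr (h (S.map f))
  have e := S.equivMapOfInjective f hf
  exact (Group.fg_iff_subgroup_fg _).mp
    (Group.fg_of_surjective (f := e.symm.toMonoidHom) e.symm.surjective)

theorem fg_map {Γ H : Type} [Group Γ] [Group H] (f : H →* Γ) (S : Subgroup H) (hS : S.FG) :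
    (S.map f).FG := by
  haveI := (Group.fg_iff_subgroup_fg _).mpr hS
  exact (Group.fg_iff_subgroup_fg _).mp (Group.fg_of_surjective (f.subgroupMap_surjective S))

/-- the subgroup generated by powers -/
def powcl (H : Type) [Group H] (m : ℕ) : Subgroup H :=
  Subgroup.closure (Set.range (fun h : H => h ^ m))

theorem pow_mem_powcl {H : Type} [Group H] (m : ℕ) (h : H) : h ^ m ∈ powcl H m :=
  Subgroup.subset_closure ⟨h, rfl⟩

theorem powcl_le {H : Type} [Group H] (m : ℕ) (K : Subgroup H) (hK : ∀ h, h ^ m ∈ K) :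
    powcl H m ≤ K := by
  rw [powcl, Subgroup.closure_le]
  rintro _ ⟨h, rfl⟩
  exact hK h

theorem powcl_map_normal {G H : Type} [Group G] [Group H] (f : H →* G) (hn : f.range.Normal)
    (m : ℕ) : ((powcl H m).map f).Normal := by
  refine ⟨?_⟩
  rintro _ ⟨x, hx, rfl⟩ g
  have hx' : x ∈ Subgroup.closure (Set.range (fun h : H => h ^ m)) := hx
  induction hx' using Subgroup.closure_induction with
  | mem y hy =>
    obtain ⟨h, rfl⟩ := hy
    obtain ⟨h', hh'⟩ := hn.conj_mem (f h) ⟨h, rfl⟩ g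
    refine ⟨h' ^ m, pow_mem_powcl m h', ?_⟩
    rw [map_pow, hh']
    simp only [map_pow]
    rw [← MulAut.conj_apply, ← MulAut.conj_apply, map_pow]
  | one => simp
  | mul a b ha hb iha ihb =>
    have e1 : g * f (a * b) * g⁻¹ = (g * f a * g⁻¹) * (g * f b * g⁻¹) := by
      rw [map_mul]; group
    rw [e1]
    exact Subgroup.mul_mem _ (iha ha) (ihb hb)
  | inv a ha iha =>
    have e1 : g * f a⁻¹ * g⁻¹ = (g * f a * g⁻¹)⁻¹ := by
      rw [map_inv]; group
    rw [e1]
    exact Subgroup.inv_mem _ (iha ha)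

theorem powcl_normal (H : Type) [Group H] (m : ℕ) : (powcl H m).Normal := by
  have h := powcl_map_normal (MonoidHom.id H) (by
    have : (MonoidHom.id H).range = ⊤ := MonoidHom.range_eq_top.mpr (fun x => ⟨x, rfl⟩)
    rw [this]
    infer_instance) m
  rwa [Subgroup.map_id] at h

section

variable (G : Fin 2 → Type) [∀ i, Group (G i)] (H : Type) [Group H] (φ : ∀ i, H →* G i)

theorem base_normal (hn : ∀ i, (φ i).range.Normal) : (Monoid.PushoutI.base φ).range.Normal := by
  refine ⟨fun x hx g => ?_⟩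
  revert x
  induction g using Monoid.PushoutI.induction_on with
  | of i a =>
    rintro _ ⟨h, rfl⟩
    obtain ⟨h', hh'⟩ := (hn i).conj_mem (φ i h) ⟨h, rfl⟩ a
    refine ⟨h', ?_⟩
    rw [← Monoid.PushoutI.of_apply_eq_base φ i, ← Monoid.PushoutI.of_apply_eq_base φ i, hh',
      map_mul, map_mul, map_inv]
  | base h' =>
    rintro _ ⟨h, rfl⟩
    exact ⟨h' * h * h'⁻¹, by rw [map_mul, map_mul, map_inv]⟩
  | mul a b iha ihb =>
    intro x hx
    have e1 : a * b * x * (a * b)⁻¹ = a * (b * x * b⁻¹) * a⁻¹ := by group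
    rw [e1]
    exact iha _ (ihb _ hx)

theorem pushout_fg (h0 : Group.FG (G 0)) (h1 : Group.FG (G 1)) :
    Group.FG (Monoid.PushoutI φ) := by
  classical
  obtain ⟨S0, hS0⟩ := h0.out
  obtain ⟨S1, hS1⟩ := h1.out
  refine ⟨⟨S0.image (Monoid.PushoutI.of (φ := φ) 0) ∪
    S1.image (Monoid.PushoutI.of (φ := φ) 1), ?_⟩⟩
  rw [Finset.coe_union, Finset.coe_image, Finset.coe_image, Subgroup.closure_union,
    ← MonoidHom.map_closure, ← MonoidHom.map_closure, hS0, hS1, eq_top_iff]
  intro x _
  have hof0 : ∀ g, Monoid.PushoutI.of (φ := φ) 0 g ∈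
      Subgroup.map (Monoid.PushoutI.of (φ := φ) 0) ⊤ ⊔
      Subgroup.map (Monoid.PushoutI.of (φ := φ) 1) ⊤ :=
    fun g => Subgroup.mem_sup_left ⟨g, trivial, rfl⟩
  have hof1 : ∀ g, Monoid.PushoutI.of (φ := φ) 1 g ∈
      Subgroup.map (Monoid.PushoutI.of (φ := φ) 0) ⊤ ⊔
      Subgroup.map (Monoid.PushoutI.of (φ := φ) 1) ⊤ :=
    fun g => Subgroup.mem_sup_right ⟨g, trivial, rfl⟩
  induction x using Monoid.PushoutI.induction_on with
  | of i g =>
    match i, g with
    | 0, g => exact hof0 g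
    | 1, g => exact hof1 g
  | base h =>
    rw [← Monoid.PushoutI.of_apply_eq_base φ 0]
    exact hof0 _
  | mul a b iha ihb => exact Subgroup.mul_mem _ (iha trivial) (ihb trivial)

end

theorem main (G : Fin 2 → Type) [∀ i, Group (G i)] (H : Type) [Group H] (φ : ∀ i, H →* G i)
    (hG : ∀ i, Group.IsSolvable (G i) ∧ AllFG (G i)) (hinj : ∀ i, Function.Injective (φ i))
    (hn : ∀ i, (φ i).range.Normal) :
    ∃ (n : ℕ) (ρ : Monoid.PushoutI φ →* Matrix.GeneralLinearGroup (Fin n) (RatFunc ℂ)),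
      Function.Injective ρ := by
  classical
  haveI hn' := hn
  haveI hsolG : ∀ i, Group.IsSolvable (G i) := fun i => (hG i).1
  let Γ := Monoid.PushoutI φ
  let base : H →* Monoid.PushoutI φ := Monoid.PushoutI.base φ
  have hbinj : Function.Injective base := Monoid.PushoutI.base_injective hinj
  let C : Subgroup (Monoid.PushoutI φ) := base.range
  haveI hCn : C.Normal := base_normal G H φ hn
  have hΓfg : Group.FG (Monoid.PushoutI φ) := pushout_fg G H φ (hG 0).2.fg (hG 1).2.fg
  have hHfg : AllFG H := (hG 0).2.inj (φ 0) (hinj 0)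
  haveI hHsol : Group.IsSolvable H := Group.isSolvable_of_isSolvable_injective (hinj 0)
  have hCsol : Group.IsSolvable C :=
    Group.isSolvable_of_surjective (MonoidHom.rangeRestrict_surjective base)
  have hCfg : ∀ S : Subgroup (Monoid.PushoutI φ), S ≤ C → S.FG := by
    intro S hS
    have : S = (S.comap base).map base := by
      rw [Subgroup.map_comap_eq]
      exact (inf_eq_right.mpr hS).symm
    rw [this]
    exact fg_map _ _ (hHfg _)
  -- the quotient groups
  let Q : Fin 2 → Type := fun i => G i ⧸ (φ i).range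
  have hbC : ∀ h, base h ∈ C := fun h => ⟨h, rfl⟩
  let q : ∀ i, (G i ⧸ (φ i).range) →* (Monoid.PushoutI φ ⧸ C) := fun i =>
    QuotientGroup.lift (φ i).range ((QuotientGroup.mk' C).comp (Monoid.PushoutI.of i)) (by
      rintro _ ⟨h, rfl⟩
      rw [MonoidHom.mem_ker, MonoidHom.comp_apply, Monoid.PushoutI.of_apply_eq_base,
        ← MonoidHom.mem_ker, QuotientGroup.ker_mk']
      exact hbC h)
  have hqmk : ∀ i g, q i (QuotientGroup.mk g) = QuotientGroup.mk (Monoid.PushoutI.of i g) :=
    fun _ _ => rfl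
  have hQsol : ∀ i, Group.IsSolvable (G i ⧸ (φ i).range) := fun i => inferInstance
  have hQfg : ∀ i, AllFG (G i ⧸ (φ i).range) := fun i => (hG i).2.quot _
  -- goodness of the quotient
  have hgood : Good ℂ (Monoid.PushoutI φ ⧸ C) := by
    let FF : ∀ i, G i →* Monoid.Coprod (G 0 ⧸ (φ 0).range) (G 1 ⧸ (φ 1).range) := fun i =>
      match i with
      | 0 => Monoid.Coprod.inl.comp (QuotientGroup.mk' (φ 0).range)
      | 1 => Monoid.Coprod.inr.comp (QuotientGroup.mk' (φ 1).range)
    have hFF : ∀ i, (FF i).comp (φ i) = 1 := by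
      have h0 : (FF 0).comp (φ 0) = 1 := by
        ext1 h
        change Monoid.Coprod.inl (QuotientGroup.mk' (φ 0).range (φ 0 h)) = 1
        have : QuotientGroup.mk' (φ 0).range (φ 0 h) = 1 := by
          rw [← MonoidHom.mem_ker, QuotientGroup.ker_mk']
          exact ⟨h, rfl⟩
        rw [this, map_one]
      have h1 : (FF 1).comp (φ 1) = 1 := by
        ext1 h
        change Monoid.Coprod.inr (QuotientGroup.mk' (φ 1).range (φ 1 h)) = 1
        have : QuotientGroup.mk' (φ 1).range (φ 1 h) = 1 := by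
          rw [← MonoidHom.mem_ker, QuotientGroup.ker_mk']
          exact ⟨h, rfl⟩
        rw [this, map_one]
      intro i
      match i with
      | 0 => exact h0
      | 1 => exact h1
    let f0 : Monoid.PushoutI φ →* Monoid.Coprod (G 0 ⧸ (φ 0).range) (G 1 ⧸ (φ 1).range) :=
      Monoid.PushoutI.lift FF 1 hFF
    let f : (Monoid.PushoutI φ ⧸ C) →*
        Monoid.Coprod (G 0 ⧸ (φ 0).range) (G 1 ⧸ (φ 1).range) :=
      QuotientGroup.lift C f0 (by
        rintro _ ⟨h, rfl⟩
        rw [MonoidHom.mem_ker]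
        change f0 (Monoid.PushoutI.base φ h) = 1
        rw [Monoid.PushoutI.lift_base]
        rfl)
    let g : Monoid.Coprod (G 0 ⧸ (φ 0).range) (G 1 ⧸ (φ 1).range) →*
        (Monoid.PushoutI φ ⧸ C) := Monoid.Coprod.lift (q 0) (q 1)
    have hf0 : ∀ a, f (QuotientGroup.mk (Monoid.PushoutI.of 0 a)) =
        Monoid.Coprod.inl (QuotientGroup.mk a) := by
      intro a
      change f0 (Monoid.PushoutI.of 0 a) = _
      rw [Monoid.PushoutI.lift_of]
      rfl
    have hf1 : ∀ a, f (QuotientGroup.mk (Monoid.PushoutI.of 1 a)) =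
        Monoid.Coprod.inr (QuotientGroup.mk a) := by
      intro a
      change f0 (Monoid.PushoutI.of 1 a) = _
      rw [Monoid.PushoutI.lift_of]
      rfl
    have hgf : g.comp f = MonoidHom.id _ := by
      apply QuotientGroup.monoidHom_ext
      apply Monoid.PushoutI.hom_ext_nonempty
      intro i
      match i with
      | 0 =>
        ext1 a
        change g (f (QuotientGroup.mk (Monoid.PushoutI.of 0 a))) = _
        rw [hf0]
        rfl
      | 1 =>
        ext1 a
        change g (f (QuotientGroup.mk (Monoid.PushoutI.of 1 a))) = _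
        rw [hf1]
        rfl
    have hfg : f.comp g = MonoidHom.id _ := by
      apply Monoid.Coprod.hom_ext
      · apply QuotientGroup.monoidHom_ext
        ext1 a
        exact hf0 a
      · apply QuotientGroup.monoidHom_ext
        ext1 a
        exact hf1 a
    have hbij : Function.Bijective f := by
      constructor
      · intro a b hab
        have ha := congrArg (fun F : (Monoid.PushoutI φ ⧸ C) →* (Monoid.PushoutI φ ⧸ C) => F a) hgf
        have hb := congrArg (fun F : (Monoid.PushoutI φ ⧸ C) →* (Monoid.PushoutI φ ⧸ C) => F b) hgf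
        have ha' : g (f a) = a := ha
        have hb' : g (f b) = b := hb
        rw [← ha', ← hb', hab]
      · intro b
        exact ⟨g b, congrArg (fun F : Monoid.Coprod (G 0 ⧸ (φ 0).range) (G 1 ⧸ (φ 1).range) →*
          Monoid.Coprod (G 0 ⧸ (φ 0).range) (G 1 ⧸ (φ 1).range) => F b) hfg⟩
    exact good_of_bijective f hbij (good_coprod (polycyclic_good (hQsol 0) (hQfg 0)).1
      (polycyclic_good (hQsol 1) (hQfg 1)).1)
  obtain ⟨-, V₁, a1, a2, a3, ρ₁, hρ₁⟩ := chain_good (F := ℂ) hΓfg C hCsol hCfg hgood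
  -- the finite part
  let R : Subgroup H := MonoidHom.ker (ρ₁.toHomUnits.comp base)
  have hR : ∀ h, h ∈ R ↔ ρ₁ (base h) = 1 := by
    intro h
    rw [MonoidHom.mem_ker, MonoidHom.comp_apply, Units.ext_iff]
    rfl
  haveI hRf : Finite R := subgroup_finite_of_torsion hHsol hHfg R (by
    intro h hh
    obtain ⟨m, hm, h1⟩ := hρ₁ (base h) (hbC h) ((hR h).mp hh)
    refine ⟨m, hm, hbinj ?_⟩
    rw [map_pow, h1, map_one])
  obtain ⟨K, hKn, hKf, hK⟩ := rf hHsol hHfg R inferInstance hRf
  let m := K.index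
  have hm : 0 < m := Nat.pos_of_ne_zero hKf.index_ne_zero
  haveI hC₁n : (powcl H m).Normal := powcl_normal H m
  have hC₁K : powcl H m ≤ K := powcl_le m K (fun h => K.pow_index_mem h)
  have hLex : ∀ i, ∃ L : Subgroup (G i), L.Normal ∧ L.FiniteIndex ∧
      ∀ h, φ i h ∈ L ↔ h ∈ powcl H m := by
    intro i
    haveI hNn : ((powcl H m).map (φ i)).Normal := powcl_map_normal (φ i) (hn i) m
    let mk := QuotientGroup.mk' ((powcl H m).map (φ i))
    have hmks : Function.Surjective mk := QuotientGroup.mk'_surjective _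
    have hmk : ∀ x, mk x = 1 ↔ x ∈ (powcl H m).map (φ i) := by
      intro x
      rw [← MonoidHom.mem_ker, QuotientGroup.ker_mk']
    haveI : ((φ i).range.map mk).Normal := (hn i).map mk hmks
    have hΦf : Finite ((φ i).range.map mk) := by
      apply subgroup_finite_of_torsion inferInstance ((hG i).2.quot _)
      rintro _ ⟨_, ⟨h, rfl⟩, rfl⟩
      refine ⟨m, hm, ?_⟩
      rw [← map_pow, ← map_pow, hmk]
      exact ⟨h ^ m, pow_mem_powcl m h, rfl⟩
    obtain ⟨Ki, hKin, hKif, hKi⟩ := rf (Γ := G i ⧸ (powcl H m).map (φ i)) inferInstance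
      ((hG i).2.quot _) ((φ i).range.map mk) inferInstance hΦf
    refine ⟨Ki.comap mk, inferInstance, ⟨?_⟩, ?_⟩
    · rw [Subgroup.index_comap_of_surjective _ hmks]
      exact hKif.index_ne_zero
    · intro h
      constructor
      · intro hh
        have h1 : mk (φ i h) ∈ Ki ⊓ (φ i).range.map mk := ⟨hh, ⟨φ i h, ⟨h, rfl⟩, rfl⟩⟩
        rw [hKi, Subgroup.mem_bot, hmk] at h1
        obtain ⟨x, hx, hxh⟩ := h1
        rw [← hinj i hxh]
        exact hx
      · intro hh
        rw [Subgroup.mem_comap]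
        have : mk (φ i h) = 1 := (hmk _).mpr ⟨h, hh, rfl⟩
        rw [this]
        exact Ki.one_mem
  choose L hLn hLf hL using hLex
  obtain ⟨X, hX, fX, hfX⟩ := match_perm G H φ (powcl H m) L hLn hLf hL
  obtain ⟨ρ₂, hρ₂⟩ := perm_rep (F := ℂ) fX
  obtain ⟨ρ₃, hρ₃⟩ := rep_prod ρ₁ ρ₂
  -- the free product part
  haveI : Uncountable ℂ := by
    rw [← not_countable_iff]
    intro h
    exact not_countable_complex (Set.countable_univ)
  haveI hQc : ∀ i, Countable (G i ⧸ (φ i).range) := fun i => countable_of_fg (hQfg i).fg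
  obtain ⟨n, fL, hfL⟩ := free_prod (K := ℂ)
    (fun i : Fin 2 => (G i ⧸ (φ i).range) × Multiplicative ℤ)
    (by
      have : Infinite ((G 0 ⧸ (φ 0).range) × Multiplicative ℤ) := inferInstance
      exact (Cardinal.natCast_lt_aleph0 (n := 3)).le.trans (Cardinal.aleph0_le_mk _))
    (by
      intro i
      obtain ⟨W, b1, b2, b3, ρ, hρ⟩ := (polycyclic_good (F := ℂ) (hQsol i) (hQfg i)).2
      obtain ⟨σ, hσ⟩ := rep_timesZ ρ hρ
      exact ⟨W × ℂ, inferInstance, inferInstance, inferInstance, σ, hσ⟩)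
  obtain ⟨fR, hfR⟩ := gl_to_ratfunc (K := ℂ) n
  let u : Monoid.PushoutI φ →*
      Monoid.CoprodI (fun i : Fin 2 => (G i ⧸ (φ i).range) × Multiplicative ℤ) :=
    Monoid.PushoutI.lift (fun i => Monoid.CoprodI.of.comp
      ((MonoidHom.inl _ _).comp (QuotientGroup.mk' (φ i).range))) 1 (by
        intro i
        ext1 h
        have : QuotientGroup.mk' (φ i).range (φ i h) = 1 := by
          rw [← MonoidHom.mem_ker, QuotientGroup.ker_mk']
          exact ⟨h, rfl⟩
        simp only [MonoidHom.comp_apply, this, map_one, MonoidHom.one_apply])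
  let w : Monoid.CoprodI (fun i : Fin 2 => (G i ⧸ (φ i).range) × Multiplicative ℤ) →*
      (Monoid.PushoutI φ ⧸ C) :=
    Monoid.CoprodI.lift (fun i => (q i).comp (MonoidHom.fst _ _))
  have hwu : w.comp u = QuotientGroup.mk' C := by
    apply Monoid.PushoutI.hom_ext_nonempty
    intro i
    ext1 a
    change w (u (Monoid.PushoutI.of i a)) = QuotientGroup.mk (Monoid.PushoutI.of i a)
    rw [Monoid.PushoutI.lift_of, MonoidHom.comp_apply, Monoid.CoprodI.lift_of]
    rfl
  have huC : ∀ x, u x = 1 → x ∈ C := by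
    intro x hx
    have h1 : QuotientGroup.mk' C x = 1 := by
      rw [← hwu, MonoidHom.comp_apply, hx, map_one]
    rwa [← MonoidHom.mem_ker, QuotientGroup.ker_mk'] at h1
  obtain ⟨N, F, hF⟩ := combine (K := ℂ) (L := RatFunc ℂ) (V₁ × (X → ℂ)) ρ₃ n
    (fR.comp (fL.comp u))
  refine ⟨N, F, ?_⟩
  rw [injective_iff_map_eq_one]
  intro x hx
  obtain ⟨h3, h4⟩ := hF x hx
  obtain ⟨h1, h2⟩ := hρ₃ x h3
  have hxC : x ∈ C := by
    apply huC
    apply hfL
    rw [map_one]
    apply hfR
    rw [map_one]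
    exact h4
  obtain ⟨h, rfl⟩ := hxC
  have h5 : h ∈ K ⊓ R := ⟨hC₁K (hfX h (hρ₂ _ h2)), (hR h).mpr h1⟩
  rw [hK, Subgroup.mem_bot] at h5
  rw [h5, map_one]

end Pool.Agent.H2.Am
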