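import Mathlib

set_option autoImplicit false
set_option linter.all false

namespace Pool.Agent.H2.Am

open Polynomial Matrix

section lead

variable {K : Type} [Field K] {n : Type} [Fintype n] [DecidableEq n]

/-- `u` is the coefficient vector in degree `d`, which bounds all degrees -/
def LT (w : n → K[X]) (d : ℕ) (u : n → K) : Prop :=
  ∀ i, (w i).natDegree ≤ d ∧ (w i).coeff d = u i

theorem LT.mul {M : Matrix n n K[X]} {e : ℕ} {M2 : Matrix n n K}
    (hM : ∀ i j, (M i j).natDegree ≤ e ∧ (M i j).coeff e = M2 i j) {w : n → K[X]} {d : ℕ}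
    {u : n → K} (h : LT w d u) : LT (M *ᵥ w) (e + d) (M2 *ᵥ u) := by
  intro i
  have e1 : (M *ᵥ w) i = ∑ j, M i j * w j := rfl
  have e2 : (M2 *ᵥ u) i = ∑ j, M2 i j * u j := rfl
  rw [e1, e2]
  constructor
  · apply natDegree_sum_le_of_forall_le
    intro j _
    exact natDegree_mul_le_of_le (hM i j).1 (h j).1
  · rw [finset_sum_coeff]
    apply Finset.sum_congr rfl
    intro j _
    rw [coeff_mul_add_eq_of_natDegree_le (hM i j).1 (h j).1, (hM i j).2, (h j).2]

theorem LT.le {w : n → K[X]} {d d' : ℕ} {u u' : n → K} (h : LT w d u) (h' : LT w d' u')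
    (hu' : u' ≠ 0) : d' ≤ d := by
  by_contra hlt
  push Not at hlt
  apply hu'
  ext i
  rw [← (h' i).2, Pi.zero_apply]
  exact coeff_eq_zero_of_natDegree_lt ((h i).1.trans_lt hlt)

theorem LT.unique {w : n → K[X]} {d d' : ℕ} {u u' : n → K} (h : LT w d u) (h' : LT w d' u')
    (hu : u ≠ 0) (hu' : u' ≠ 0) : u = u' := by
  have hd : d = d' := le_antisymm (h'.le h hu) (h.le h' hu')
  subst hd
  ext i
  rw [← (h i).2, ← (h' i).2]

end lead

/-- action on vectors -/
@[reducible] def vecAct (R n : Type) [CommRing R] [Fintype n] [DecidableEq n] :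
    MulAction (GL n R) (n → R) where
  smul g w := g.1 *ᵥ w
  one_smul w := by
    change (1 : Matrix n n R) *ᵥ w = w
    exact one_mulVec w
  mul_smul g h w := by
    change (g.1 * h.1) *ᵥ w = g.1 *ᵥ (h.1 *ᵥ w)
    rw [mulVec_mulVec]

open Cardinal in
open scoped Pointwise in
open scoped Function in
theorem pingpong {K : Type} [Field K] {n : Type} [Fintype n] [DecidableEq n]
    (A : Fin 2 → Type) [∀ i, Group (A i)] (hcard : 3 ≤ #(A 0))
    (PA : A 0 →* Matrix n n K) (PB : A 1 →* Matrix n n K) (N : Matrix n n K) (hN : N * N = 0)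
    (v l : n → K) (hlv : l ⬝ᵥ v = 0) (hv : v ≠ 0) (hl : l ≠ 0)
    (hA : ∀ a, a ≠ 1 → l ⬝ᵥ (PA a *ᵥ v) ≠ 0)
    (hB : ∀ b, b ≠ 1 → ∃ c : K, c ≠ 0 ∧ -(N * PB b * N) = c • vecMulVec v l) :
    ∃ f : Monoid.CoprodI A →* GL n K[X], Function.Injective f := by
  classical
  letI := vecAct K[X] n
  have hsm : ∀ (g : GL n K[X]) (w : n → K[X]), g • w = g.1 *ᵥ w := fun _ _ => rfl
  let cm : Matrix n n K →* Matrix n n K[X] := (C.mapMatrix (m := n)).toMonoidHom
  have hcm : ∀ M i j, cm M i j = C (M i j) := fun _ _ _ => rfl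
  have hcmul : ∀ M M', cm (M * M') = cm M * cm M' := fun M M' => map_mul cm M M'
  let N' : Matrix n n K[X] := cm N
  have hN' : N' * N' = 0 := by
    change cm N * cm N = 0
    rw [← hcmul, hN]
    ext i j
    rw [hcm]
    simp
  let U : GL n K[X] :=
    { val := 1 + (X : K[X]) • N'
      inv := 1 - (X : K[X]) • N'
      val_inv := by
        rw [mul_sub, mul_one, add_mul, one_mul, Matrix.smul_mul, Matrix.mul_smul, hN']
        simp
      inv_val := by
        rw [mul_add, mul_one, sub_mul, one_mul, Matrix.smul_mul, Matrix.mul_smul, hN']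
        simp }
  let f0 : A 0 →* GL n K[X] := (cm.comp PA).toHomUnits
  let f1 : A 1 →* GL n K[X] := (MulAut.conj U).toMonoidHom.comp (cm.comp PB).toHomUnits
  have hf0 : ∀ a, (f0 a).1 = cm (PA a) := fun _ => rfl
  have hf1 : ∀ b, (f1 b).1 = (1 + (X : K[X]) • N') * cm (PB b) * (1 - (X : K[X]) • N') :=
    fun _ => rfl
  have hf1' : ∀ b, (f1 b).1 = cm (PB b) + (X : K[X]) • cm (N * PB b) -
      (X : K[X]) • cm (PB b * N) - (X : K[X]) ^ 2 • cm (N * PB b * N) := by
    intro b
    rw [hf1, hcmul, hcmul, hcmul, hcmul]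
    change _ = cm (PB b) + (X : K[X]) • (N' * cm (PB b)) - (X : K[X]) • (cm (PB b) * N') -
      (X : K[X]) ^ 2 • (N' * cm (PB b) * N')
    rw [add_mul, add_mul, mul_sub, mul_sub, one_mul, mul_one, mul_one, Matrix.smul_mul,
      Matrix.mul_smul, Matrix.smul_mul, Matrix.mul_smul, smul_smul, pow_two]
    abel
  -- the coefficient bounds
  have hM0 : ∀ a i j, ((f0 a).1 i j).natDegree ≤ 0 ∧ ((f0 a).1 i j).coeff 0 = PA a i j := by
    intro a i j
    rw [hf0, hcm]
    exact ⟨by rw [natDegree_C], coeff_C_zero⟩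
  have hM1 : ∀ b i j, ((f1 b).1 i j).natDegree ≤ 2 ∧
      ((f1 b).1 i j).coeff 2 = (-(N * PB b * N)) i j := by
    intro b i j
    have e1 : (f1 b).1 i j = C (PB b i j) + X * C ((N * PB b) i j) - X * C ((PB b * N) i j) -
        X ^ 2 * C ((N * PB b * N) i j) := by
      rw [hf1']
      rfl
    rw [e1]
    constructor
    · compute_degree
    · simp [coeff_C, coeff_X]
  let f : ∀ i, A i →* GL n K[X] := fun i => match i with
    | 0 => f0
    | 1 => f1
  let Xs : Fin 2 → Set (n → K[X]) := fun i => match i with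
    | 0 => {w | ∃ d u, LT w d u ∧ l ⬝ᵥ u ≠ 0}
    | 1 => {w | ∃ d, ∃ c : K, c ≠ 0 ∧ LT w d (c • v)}
  refine ⟨Monoid.CoprodI.lift f, ?_⟩
  apply Monoid.CoprodI.lift_injective_of_ping_pong f (Or.inr ⟨0, hcard⟩) Xs
  · intro i
    fin_cases i
    · have : ∃ u, l ⬝ᵥ u ≠ 0 := by
        by_contra h
        push Not at h
        apply hl
        ext j
        have := h (Pi.single j 1)
        rwa [dotProduct_single_one] at this
      obtain ⟨u, hu⟩ := this
      exact ⟨fun i => C (u i), 0, u, fun i => ⟨by rw [natDegree_C], coeff_C_zero⟩, hu⟩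
    · exact ⟨fun i => C (v i), 0, 1, one_ne_zero, fun i => ⟨by rw [natDegree_C], by
        rw [one_smul]; exact coeff_C_zero⟩⟩
  · have key : Disjoint (Xs 0) (Xs 1) := by
      rw [Set.disjoint_left]
      rintro w ⟨d, u, h, hu⟩ ⟨d', c, hc, h'⟩
      have hu0 : u ≠ 0 := by
        rintro rfl
        exact hu (dotProduct_zero l)
      have hcv : c • v ≠ 0 := smul_ne_zero hc hv
      have := h.unique h' hu0 hcv
      apply hu
      rw [this, dotProduct_smul, hlv, smul_zero]
    intro i j hij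
    fin_cases i <;> fin_cases j
    · exact absurd rfl hij
    · exact key
    · exact key.symm
    · exact absurd rfl hij
  · intro i j hij
    fin_cases i <;> fin_cases j
    · exact absurd rfl hij
    · rintro a ha _ ⟨w, ⟨d, c, hc, h⟩, rfl⟩
      refine ⟨0 + d, PA a *ᵥ (c • v), h.mul (hM0 a), ?_⟩
      rw [mulVec_smul, dotProduct_smul]
      exact smul_ne_zero hc (hA a ha)
    · rintro b hb _ ⟨w, ⟨d, u, h, hu⟩, rfl⟩
      obtain ⟨c, hc, hcc⟩ := hB b hb
      refine ⟨2 + d, c * (l ⬝ᵥ u), mul_ne_zero hc hu, ?_⟩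
      have h2 := h.mul (hM1 b)
      have e3 : -(N * PB b * N) *ᵥ u = (c * (l ⬝ᵥ u)) • v := by
        rw [hcc, smul_mulVec, vecMulVec_mulVec]
        ext i
        simp
        ring
      rw [e3] at h2
      exact h2
    · exact absurd rfl hij

end Pool.Agent.H2.Am
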