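import Mathlib

set_option autoImplicit false
set_option linter.all false

namespace Pool.Agent.H2.Am

open scoped Pointwise

/-- every subgroup is finitely generated -/
def AllFG (Γ : Type) [Group Γ] : Prop := ∀ S : Subgroup Γ, S.FG

theorem AllFG.sub {Γ : Type} [Group Γ] (h : AllFG Γ) (H : Subgroup Γ) : AllFG H := by
  intro S
  have h1 := (Group.fg_iff_subgroup_fg _).mpr (h (S.map H.subtype))
  have e := S.equivMapOfInjective H.subtype H.subtype_injective
  exact (Group.fg_iff_subgroup_fg _).mp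
    (Group.fg_of_surjective (f := e.symm.toMonoidHom) e.symm.surjective)

theorem AllFG.surj {Γ Γ' : Type} [Group Γ] [Group Γ'] (h : AllFG Γ) (f : Γ →* Γ')
    (hf : Function.Surjective f) : AllFG Γ' := by
  intro S
  have h1 := (Group.fg_iff_subgroup_fg _).mpr (h (S.comap f))
  have e : S = (S.comap f).map f := (Subgroup.map_comap_eq_self_of_surjective hf S).symm
  rw [← Group.fg_iff_subgroup_fg]
  have hs : Function.Surjective (f.subgroupComap S) := by
    intro ⟨y, hy⟩
    obtain ⟨x, rfl⟩ := hf y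
    exact ⟨⟨x, hy⟩, rfl⟩
  exact Group.fg_of_surjective hs

theorem AllFG.quot {Γ : Type} [Group Γ] (h : AllFG Γ) (N : Subgroup Γ) [N.Normal] :
    AllFG (Γ ⧸ N) :=
  h.surj (QuotientGroup.mk' N) (QuotientGroup.mk'_surjective N)

theorem AllFG.fg {Γ : Type} [Group Γ] (h : AllFG Γ) : Group.FG Γ := ⟨h ⊤⟩

theorem finite_of_comm_torsion {Γ : Type} [Group Γ] (h : Group.FG Γ)
    (hc : ∀ x y : Γ, x * y = y * x) (ht : ∀ x : Γ, ∃ m > 0, x ^ m = 1) : Finite Γ := by
  letI : CommGroup Γ := { (inferInstance : Group Γ) with mul_comm := hc }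
  apply CommGroup.finite_of_fg_isMulTorsion
  intro x
  rw [isOfFinOrder_iff_pow_eq_one]
  obtain ⟨m, hm, h1⟩ := ht x
  exact ⟨m, hm, h1⟩

theorem finite_of_quot {Γ : Type} [Group Γ] (N : Subgroup Γ) (h1 : Finite N)
    (h2 : Finite (Γ ⧸ N)) : Finite Γ :=
  Finite.of_equiv _ (Subgroup.groupEquivQuotientProdSubgroup (s := N)).symm

theorem finite_of_torsion : ∀ (n : ℕ) (Γ : Type) [Group Γ], derivedSeries Γ n = ⊥ → AllFG Γ →
    (∀ x : Γ, ∃ m > 0, x ^ m = 1) → Finite Γ := by
  intro n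
  induction n with
  | zero =>
    intro Γ _ h _ _
    rw [derivedSeries_zero] at h
    have : Subsingleton Γ := by
      refine ⟨fun a b => ?_⟩
      have ha : a ∈ (⊤ : Subgroup Γ) := trivial
      have hb : b ∈ (⊤ : Subgroup Γ) := trivial
      rw [h, Subgroup.mem_bot] at ha hb
      rw [ha, hb]
    infer_instance
  | succ n ih =>
    intro Γ _ h hfg ht
    haveI := derivedSeries_normal Γ n
    have h1 : Finite (derivedSeries Γ n) := by
      apply finite_of_comm_torsion
      · exact (Group.fg_iff_subgroup_fg _).mpr (hfg _)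
      · intro x y
        rw [derivedSeries_succ, Subgroup.commutator_eq_bot_iff_le_centralizer] at h
        apply Subtype.ext
        exact (Subgroup.mem_centralizer_iff.mp (h y.2) x.1 x.2)
      · intro x
        obtain ⟨m, hm, hx⟩ := ht x
        exact ⟨m, hm, Subtype.ext hx⟩
    have h2 : Finite (Γ ⧸ derivedSeries Γ n) := by
      apply ih
      · rw [← map_derivedSeries_eq (QuotientGroup.mk'_surjective (derivedSeries Γ n)) n,
          Subgroup.map_eq_bot_iff, QuotientGroup.ker_mk']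
      · exact hfg.quot _
      · intro x
        obtain ⟨y, rfl⟩ := QuotientGroup.mk_surjective x
        obtain ⟨m, hm, hy⟩ := ht y
        exact ⟨m, hm, by rw [← QuotientGroup.mk_pow, hy, QuotientGroup.mk_one]⟩
    exact finite_of_quot _ h1 h2

theorem finite_of_torsion' {Γ : Type} [Group Γ] (hs : Group.IsSolvable Γ) (h : AllFG Γ)
    (ht : ∀ x : Γ, ∃ m > 0, x ^ m = 1) : Finite Γ := by
  obtain ⟨n, hn⟩ := hs.solvable
  exact finite_of_torsion n Γ hn h ht

theorem subgroup_finite_of_torsion {Γ : Type} [Group Γ] (hs : Group.IsSolvable Γ) (h : AllFG Γ)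
    (S : Subgroup Γ) (ht : ∀ x ∈ S, ∃ m > 0, x ^ m = 1) : Finite S := by
  haveI := hs
  apply finite_of_torsion' (inferInstance) (h.sub S)
  intro x
  obtain ⟨m, hm, hx⟩ := ht x x.2
  exact ⟨m, hm, Subtype.ext hx⟩

theorem rf_aux : ∀ (n : ℕ) (Γ : Type) [Group Γ], Group.IsSolvable Γ → AllFG Γ →
    Finite (derivedSeries Γ n) → ∀ Φ : Subgroup Γ, Φ.Normal → Finite Φ →
    ∃ K : Subgroup Γ, K.Normal ∧ K.FiniteIndex ∧ K ⊓ Φ = ⊥ := by
  intro n
  induction n with
  | zero =>
    intro Γ _ _ _ hfin Φ _ _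
    rw [derivedSeries_zero] at hfin
    haveI : Finite Γ := Finite.of_equiv _ (Subgroup.topEquiv (G := Γ)).toEquiv
    exact ⟨⊥, inferInstance, inferInstance, by simp⟩
  | succ n ih =>
    intro Γ _ hsol hfg hfin Φ hΦn hΦf
    haveI := hsol
    haveI := derivedSeries_normal Γ (n + 1)
    haveI := derivedSeries_normal Γ n
    -- enlarge
    let Φ₁ : Subgroup Γ := Φ ⊔ derivedSeries Γ (n + 1)
    haveI hΦ₁n : Φ₁.Normal := inferInstance
    haveI hΦ₁f : Finite Φ₁ := by
      have h1 : (Φ₁ : Set Γ) = (Φ : Set Γ) * (derivedSeries Γ (n + 1) : Set Γ) := by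
        rw [← Subgroup.mul_normal]
      have h2 : (Φ₁ : Set Γ).Finite := by
        rw [h1]
        exact Set.Finite.mul (Set.toFinite _) (Set.toFinite _)
      exact h2
    let C : Subgroup Γ := Subgroup.centralizer (Φ₁ : Set Γ)
    haveI hCn : C.Normal := inferInstance
    have hCp : ∃ c > 0, ∀ x : Γ, x ^ c ∈ C := by
      let f : Γ →* MulAut Φ₁ := MulAut.conjNormal
      haveI : Finite (MulAut Φ₁) := inferInstance
      refine ⟨Nat.card (MulAut Φ₁), Nat.card_pos, ?_⟩
      intro x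
      have h1 : f (x ^ Nat.card (MulAut Φ₁)) = 1 := by
        rw [map_pow, pow_card_eq_one']
      rw [Subgroup.mem_centralizer_iff]
      intro y hy
      have h2 := MulAut.conjNormal_apply (x ^ Nat.card (MulAut Φ₁)) (⟨y, hy⟩ : Φ₁)
      have h3 : ((f (x ^ Nat.card (MulAut Φ₁))) ⟨y, hy⟩ : Γ) = y := by
        rw [h1]; rfl
      have h4 : x ^ Nat.card (MulAut Φ₁) * y * (x ^ Nat.card (MulAut Φ₁))⁻¹ = y :=
        h2.symm.trans h3
      exact (mul_inv_eq_iff_eq_mul.mp h4).symm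
    obtain ⟨cc, hcc, hCp⟩ := hCp
    let Y₀ : Subgroup Γ := C ⊓ derivedSeries Γ n
    haveI hY₀n : Y₀.Normal := inferInstance
    let e := Nat.card Φ₁
    have he : 0 < e := Nat.card_pos
    have hpow : ∀ x ∈ Y₀, ∀ y ∈ Y₀, y * x ^ e * y⁻¹ = x ^ e := by
      intro x hx y hy
      let k : Γ := y * x * y⁻¹ * x⁻¹
      have hk : k ∈ Φ₁ := by
        apply Subgroup.mem_sup_right
        rw [derivedSeries_succ]
        exact Subgroup.commutator_mem_commutator hy.2 hx.2
      have hcomm : Commute k x := Subgroup.mem_centralizer_iff.mp hx.1 k hk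
      have e1 : y * x * y⁻¹ = k * x := by simp only [k]; group
      have e2 : y * x ^ e * y⁻¹ = (y * x * y⁻¹) ^ e := by
        rw [← MulAut.conj_apply, map_pow, MulAut.conj_apply]
      have e3 : k ^ e = 1 := by
        have : (⟨k, hk⟩ : Φ₁) ^ e = 1 := pow_card_eq_one'
        exact congrArg Subtype.val this
      rw [e2, e1, hcomm.mul_pow, e3, one_mul]
    let Z : Subgroup Γ := Y₀ ⊓ Subgroup.centralizer (Y₀ : Set Γ)
    haveI hZn : Z.Normal := inferInstance
    have hZc : ∀ x ∈ Z, ∀ y ∈ Z, x * y = y * x := by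
      intro x hx y hy
      exact Subgroup.mem_centralizer_iff.mp hy.2 x hx.1
    have hZe : ∀ x ∈ Y₀, x ^ e ∈ Z := by
      intro x hx
      refine ⟨Y₀.pow_mem hx e, ?_⟩
      change x ^ e ∈ Subgroup.centralizer (Y₀ : Set Γ)
      rw [Subgroup.mem_centralizer_iff]
      intro y hy
      exact mul_inv_eq_iff_eq_mul.mp (hpow x hx y hy)
    have htor : ∃ s > 0, ∀ z ∈ Z, (∃ m > 0, z ^ m = 1) → z ^ s = 1 := by
      let Tz : Subgroup Γ :=
        { carrier := {z | z ∈ Z ∧ ∃ m > 0, z ^ m = 1}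
          mul_mem' := by
            rintro a b ⟨ha, m, hm, ham⟩ ⟨hb, m', hm', hbm⟩
            refine ⟨Z.mul_mem ha hb, m * m', Nat.mul_pos hm hm', ?_⟩
            have hab : Commute a b := hZc a ha b hb
            rw [hab.mul_pow, pow_mul, ham, one_pow, mul_comm m m', pow_mul, hbm, one_pow,
              one_mul]
          one_mem' := ⟨Z.one_mem, 1, one_pos, one_pow 1⟩
          inv_mem' := by
            rintro a ⟨ha, m, hm, ham⟩
            exact ⟨Z.inv_mem ha, m, hm, by rw [inv_pow, ham, inv_one]⟩ }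
      haveI : Finite Tz := subgroup_finite_of_torsion hsol hfg Tz (fun x hx => hx.2)
      refine ⟨Nat.card Tz, Nat.card_pos, ?_⟩
      intro z hz hz'
      have : (⟨z, hz, hz'⟩ : Tz) ^ Nat.card Tz = 1 := pow_card_eq_one'
      exact congrArg Subtype.val this
    obtain ⟨s, hs, hsz⟩ := htor
    let D : Subgroup Γ :=
      { carrier := {x | ∃ z ∈ Z, z ^ s = x}
        mul_mem' := by
          rintro _ _ ⟨a, ha, rfl⟩ ⟨b, hb, rfl⟩
          have hab : Commute a b := hZc a ha b hb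
          exact ⟨a * b, Z.mul_mem ha hb, hab.mul_pow s⟩
        one_mem' := ⟨1, Z.one_mem, one_pow s⟩
        inv_mem' := by
          rintro _ ⟨a, ha, rfl⟩
          exact ⟨a⁻¹, Z.inv_mem ha, inv_pow a s⟩ }
    haveI hDn : D.Normal := by
      refine ⟨?_⟩
      rintro _ ⟨a, ha, rfl⟩ g
      refine ⟨g * a * g⁻¹, hZn.conj_mem a ha g, ?_⟩
      rw [← MulAut.conj_apply, ← map_pow, MulAut.conj_apply]
    have hDΦ : D ⊓ Φ = ⊥ := by
      rw [eq_bot_iff]
      rintro _ ⟨⟨z, hz, rfl⟩, hΦ⟩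
      rw [Subgroup.mem_bot]
      apply hsz z hz
      refine ⟨s * Nat.card Φ, Nat.mul_pos hs Nat.card_pos, ?_⟩
      have : (⟨z ^ s, hΦ⟩ : Φ) ^ Nat.card Φ = 1 := pow_card_eq_one'
      have := congrArg Subtype.val this
      rw [pow_mul]
      exact this
    have hfin' : Finite (derivedSeries (Γ ⧸ D) n) := by
      apply subgroup_finite_of_torsion (inferInstance) (hfg.quot D)
      intro x hx
      rw [← map_derivedSeries_eq (QuotientGroup.mk'_surjective D) n] at hx
      obtain ⟨y, hy, rfl⟩ := hx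
      refine ⟨cc * e * s, Nat.mul_pos (Nat.mul_pos hcc he) hs, ?_⟩
      rw [← map_pow, ← MonoidHom.mem_ker, QuotientGroup.ker_mk']
      refine ⟨(y ^ cc) ^ e, hZe _ ⟨hCp y, Subgroup.pow_mem _ hy _⟩, ?_⟩
      rw [← pow_mul, ← pow_mul, mul_assoc]
    haveI : (Φ.map (QuotientGroup.mk' D)).Normal :=
      hΦn.map _ (QuotientGroup.mk'_surjective D)
    have hΦ'f : Finite (Φ.map (QuotientGroup.mk' D)) := by
      have : ((Φ.map (QuotientGroup.mk' D) : Subgroup (Γ ⧸ D)) : Set (Γ ⧸ D)).Finite := by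
        rw [Subgroup.coe_map]
        exact Set.Finite.image _ (Set.toFinite _)
      exact this
    obtain ⟨K, hKn, hKf, hK⟩ := ih (Γ ⧸ D) inferInstance (hfg.quot D) hfin'
      (Φ.map (QuotientGroup.mk' D)) inferInstance hΦ'f
    refine ⟨K.comap (QuotientGroup.mk' D), inferInstance, ⟨?_⟩, ?_⟩
    · rw [Subgroup.index_comap_of_surjective _ (QuotientGroup.mk'_surjective D)]
      exact hKf.index_ne_zero
    rw [eq_bot_iff]
    rintro x ⟨hx1, hx2⟩
    have h1 : QuotientGroup.mk' D x ∈ K ⊓ Φ.map (QuotientGroup.mk' D) :=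
      ⟨hx1, ⟨x, hx2, rfl⟩⟩
    rw [hK, Subgroup.mem_bot, ← MonoidHom.mem_ker, QuotientGroup.ker_mk'] at h1
    have h2 : x ∈ D ⊓ Φ := ⟨h1, hx2⟩
    rwa [hDΦ] at h2

/-- residual finiteness relative to a finite normal subgroup -/
theorem rf {Γ : Type} [Group Γ] (hs : Group.IsSolvable Γ) (hfg : AllFG Γ) (Φ : Subgroup Γ)
    (hΦ : Φ.Normal) (hf : Finite Φ) :
    ∃ K : Subgroup Γ, K.Normal ∧ K.FiniteIndex ∧ K ⊓ Φ = ⊥ := by
  obtain ⟨n, hn⟩ := hs.solvable
  apply rf_aux n Γ hs hfg _ Φ hΦ hf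
  rw [hn]
  infer_instance

end Pool.Agent.H2.Am
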