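import Pool.Agent.H2.Am.Copr
import Pool.Agent.H2.Am.Tors

set_option autoImplicit false
set_option linter.all false

namespace Pool.Agent.H2.Am

theorem free_abelian {N : Type} [Group N] (hfg : Group.FG N) (hc : ∀ x y : N, x * y = y * x)
    (ht : ∀ x : N, ∀ m > 0, x ^ m = 1 → x = 1) :
    ∃ (r : ℕ) (ι : (Fin r → ℤ) → N), (∀ z z', ι (z + z') = ι z * ι z') ∧
      Function.Bijective ι := by
  letI : CommGroup N := { (inferInstance : Group N) with mul_comm := hc }
  haveI : Module.Finite ℤ (Additive N) := Module.Finite.iff_addGroup_fg.mpr inferInstance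
  haveI : Module.IsTorsionFree ℤ (Additive N) := by
    apply Module.IsTorsionFree.of_smul_eq_zero
    intro r m h
    by_cases hr : r = 0
    · exact Or.inl hr
    · right
      have h1 : (Additive.toMul m) ^ r = 1 := h
      have h2 : (Additive.toMul m) ^ r.natAbs = 1 := by
        rcases Int.natAbs_eq r with h3 | h3
        · rw [h3, zpow_natCast] at h1
          exact h1
        · rw [h3, zpow_neg, zpow_natCast, inv_eq_one] at h1
          exact h1
      exact ht _ _ (Int.natAbs_pos.mpr hr) h2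
  let b := Module.finBasis ℤ (Additive N)
  let φ := b.equivFun
  refine ⟨_, fun z => Additive.toMul (φ.symm z), ?_, ?_⟩
  · intro z z'
    change Additive.toMul (φ.symm (z + z')) = _
    rw [map_add]
    rfl
  · exact φ.symm.bijective

/-- affine representation attached to a crossed homomorphism -/
theorem affine_rep {F Γ V : Type} [Field F] [Group Γ] [AddCommGroup V] [Module F V]
    [FiniteDimensional F V] (ρ : Representation F Γ V) (c : Γ → V)
    (hc : ∀ e e', c (e * e') = c e + ρ e (c e')) :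
    ∃ R : Representation F Γ (V × F), ∀ g, R g = 1 → c g = 0 := by
  have hc1 : c 1 = 0 := by
    have := hc 1 1
    simpa using this
  refine ⟨{ toFun := fun g => ((ρ g).comp (LinearMap.fst F V F) +
              (LinearMap.toSpanSingleton F V (c g)).comp (LinearMap.snd F V F)).prod
              (LinearMap.snd F V F)
            map_one' := ?_
            map_mul' := ?_ }, ?_⟩
  · apply LinearMap.ext
    rintro ⟨v, t⟩
    simp [hc1]
  · intro g h
    apply LinearMap.ext
    rintro ⟨v, t⟩
    simp [hc, smul_add]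
    abel
  · intro g hg
    have h1 := congrArg (fun f : Module.End F (V × F) => (f (0, 1)).1) hg
    simpa using h1

theorem step_good {F : Type} [Field F] [CharZero F] {G : Type} [Group G] (hGfg : Group.FG G)
    (N D : Subgroup G) [N.Normal] [D.Normal] (hDN : D ≤ N)
    (hcomm : ∀ x ∈ N, ∀ y ∈ N, x * y * x⁻¹ * y⁻¹ ∈ D)
    (hN : ∀ S : Subgroup G, S ≤ N → S.FG) (hgood : Good F (G ⧸ N)) :
    Good F (G ⧸ D) ∧ ∃ (V : Type) (_ : AddCommGroup V) (_ : Module F V)
      (_ : FiniteDimensional F V) (ρ : Representation F G V),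
      ∀ x ∈ N, ρ x = 1 → ∃ m > 0, x ^ m ∈ D := by
  classical
  have hcommD : ∀ x ∈ N, ∀ y ∈ N, (QuotientGroup.mk' D x) * (QuotientGroup.mk' D y) =
      (QuotientGroup.mk' D y) * (QuotientGroup.mk' D x) := by
    intro x hx y hy
    have h1 : QuotientGroup.mk' D (x * y * x⁻¹ * y⁻¹) = 1 := by
      rw [← MonoidHom.mem_ker, QuotientGroup.ker_mk']
      exact hcomm x hx y hy
    rw [map_mul, map_mul, map_mul, map_inv, map_inv, mul_inv_eq_one, mul_inv_eq_iff_eq_mul] at h1
    exact h1
  have hmkD : ∀ x, QuotientGroup.mk' D x = 1 ↔ x ∈ D := by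
    intro x
    rw [← MonoidHom.mem_ker, QuotientGroup.ker_mk']
  let T : Subgroup G :=
    { carrier := {x | x ∈ N ∧ ∃ m > 0, x ^ m ∈ D}
      mul_mem' := by
        rintro a b ⟨ha, m, hm, ham⟩ ⟨hb, m', hm', hbm⟩
        refine ⟨N.mul_mem ha hb, m * m', Nat.mul_pos hm hm', ?_⟩
        have hab : Commute (QuotientGroup.mk' D a) (QuotientGroup.mk' D b) := hcommD a ha b hb
        rw [← hmkD] at ham hbm ⊢
        rw [map_pow] at ham hbm
        rw [map_pow, map_mul, hab.mul_pow, pow_mul, ham, one_pow, mul_comm m m', pow_mul, hbm,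
          one_pow, one_mul]
      one_mem' := ⟨N.one_mem, 1, one_pos, by rw [one_pow]; exact D.one_mem⟩
      inv_mem' := by
        rintro a ⟨ha, m, hm, ham⟩
        exact ⟨N.inv_mem ha, m, hm, by rw [inv_pow]; exact D.inv_mem ham⟩ }
  have hTN : T ≤ N := fun x hx => hx.1
  have hDT : D ≤ T := fun x hx => ⟨hDN hx, 1, one_pos, by rw [pow_one]; exact hx⟩
  haveI hTn : T.Normal := by
    refine ⟨?_⟩
    rintro a ⟨ha, m, hm, ham⟩ g
    refine ⟨Subgroup.Normal.conj_mem inferInstance a ha g, m, hm, ?_⟩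
    rw [← MulAut.conj_apply, ← map_pow, MulAut.conj_apply]
    exact Subgroup.Normal.conj_mem inferInstance _ ham g
  have hmkT : ∀ x, QuotientGroup.mk' T x = 1 ↔ x ∈ T := by
    intro x
    rw [← MonoidHom.mem_ker, QuotientGroup.ker_mk']
  have hmkN : ∀ x, QuotientGroup.mk' N x = 1 ↔ x ∈ N := by
    intro x
    rw [← MonoidHom.mem_ker, QuotientGroup.ker_mk']
  -- the two projections
  let p : G ⧸ T →* G ⧸ N := QuotientGroup.lift T (QuotientGroup.mk' N)
    (fun x hx => (hmkN x).mpr (hTN hx))
  have hpmk : ∀ x, p (QuotientGroup.mk' T x) = QuotientGroup.mk' N x := fun x => rfl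
  have hp : Function.Surjective p := by
    intro y
    obtain ⟨x, rfl⟩ := QuotientGroup.mk'_surjective N y
    exact ⟨QuotientGroup.mk' T x, rfl⟩
  let q : G ⧸ D →* G ⧸ T := QuotientGroup.lift D (QuotientGroup.mk' T)
    (fun x hx => (hmkT x).mpr (hDT hx))
  have hqmk : ∀ x, q (QuotientGroup.mk' D x) = QuotientGroup.mk' T x := fun x => rfl
  have hq : Function.Surjective q := by
    intro y
    obtain ⟨x, rfl⟩ := QuotientGroup.mk'_surjective T y
    exact ⟨QuotientGroup.mk' D x, rfl⟩
  -- the free abelian kernel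
  let Nb : Subgroup (G ⧸ T) := N.map (QuotientGroup.mk' T)
  have hNbfg : Group.FG Nb := by
    rw [Group.fg_iff_subgroup_fg]
    have h1 := (Group.fg_iff_subgroup_fg _).mpr (hN N le_rfl)
    have hs : Function.Surjective ((QuotientGroup.mk' T).subgroupMap N) :=
      (QuotientGroup.mk' T).subgroupMap_surjective N
    exact (Group.fg_iff_subgroup_fg _).mp (Group.fg_of_surjective hs)
  obtain ⟨r, ι0, hι0add, hι0bij⟩ := free_abelian hNbfg
    (by
      rintro ⟨_, x, hx, rfl⟩ ⟨_, y, hy, rfl⟩
      apply Subtype.ext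
      change QuotientGroup.mk' T x * QuotientGroup.mk' T y =
        QuotientGroup.mk' T y * QuotientGroup.mk' T x
      rw [← hqmk, ← hqmk, ← map_mul, hcommD x hx y hy, map_mul])
    (by
      rintro ⟨_, x, hx, rfl⟩ m hm h
      apply Subtype.ext
      have h1 : (QuotientGroup.mk' T x) ^ m = 1 := congrArg Subtype.val h
      rw [← map_pow, hmkT] at h1
      change QuotientGroup.mk' T x = 1
      rw [hmkT]
      obtain ⟨_, m', hm', h2⟩ := h1
      exact ⟨hx, m * m', Nat.mul_pos hm hm', by rw [pow_mul]; exact h2⟩)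
  let ι : (Fin r → ℤ) → G ⧸ T := fun z => (ι0 z : G ⧸ T)
  have hadd : ∀ z z', ι (z + z') = ι z * ι z' := by
    intro z z'
    simp only [ι, hι0add]
    rfl
  have hinj : Function.Injective ι := fun a b h => hι0bij.1 (Subtype.ext h)
  have hker : ∀ g, p g = 1 ↔ ∃ z, ι z = g := by
    intro g
    obtain ⟨x, rfl⟩ := QuotientGroup.mk'_surjective T g
    rw [hpmk, hmkN]
    constructor
    · intro hx
      obtain ⟨z, hz⟩ := hι0bij.2 ⟨QuotientGroup.mk' T x, x, hx, rfl⟩
      exact ⟨z, congrArg Subtype.val hz⟩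
    · rintro ⟨z, hz⟩
      have h1 : QuotientGroup.mk' T x ∈ Nb := by
        rw [← hz]; exact (ι0 z).2
      obtain ⟨y, hy, hyx⟩ := h1
      have h2 : QuotientGroup.mk' T (y⁻¹ * x) = 1 := by
        rw [map_mul, map_inv, hyx, inv_mul_cancel]
      have h3 := N.mul_mem hy (hTN ((hmkT _).mp h2))
      rwa [mul_inv_cancel_left] at h3
  haveI := hGfg
  have hfgN : Group.FG (G ⧸ N) := inferInstance
  have hgoodT : Good F (G ⧸ T) := good_of_free_ker p hp hfgN hgood r ι hadd hinj hker
  refine ⟨?_, ?_⟩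
  · apply good_of_finite_ker q hq _ hgoodT
    have hTfg : Group.FG T := (Group.fg_iff_subgroup_fg _).mpr (hN T hTN)
    let f : T →* q.ker := ((QuotientGroup.mk' D).comp T.subtype).codRestrict q.ker (by
      intro x
      rw [MonoidHom.mem_ker]
      exact (hmkT x).mpr x.2)
    have hf : Function.Surjective f := by
      rintro ⟨y, hy⟩
      obtain ⟨x, rfl⟩ := QuotientGroup.mk'_surjective D y
      rw [MonoidHom.mem_ker, hqmk, hmkT] at hy
      exact ⟨⟨x, hy⟩, rfl⟩
    haveI := hTfg
    apply finite_of_comm_torsion (Group.fg_of_surjective hf)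
    · intro a b
      obtain ⟨x, rfl⟩ := hf a
      obtain ⟨y, rfl⟩ := hf b
      apply Subtype.ext
      exact hcommD x (hTN x.2) y (hTN y.2)
    · intro a
      obtain ⟨x, rfl⟩ := hf a
      obtain ⟨_, m, hm, hxm⟩ := x.2
      refine ⟨m, hm, ?_⟩
      apply Subtype.ext
      change (QuotientGroup.mk' D (x : G)) ^ m = 1
      rw [← map_pow, hmkD]
      exact hxm
  · obtain ⟨V', i1, i2, i3, ρ', i, hi, c, hc, hcι⟩ := tlemma p hp hgood r ι hadd hinj hker
    obtain ⟨R, hR⟩ := affine_rep (ρ'.comp p) c hc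
    refine ⟨V' × F, inferInstance, inferInstance, inferInstance,
      R.comp (QuotientGroup.mk' T), ?_⟩
    intro x hx h1
    have h2 : c (QuotientGroup.mk' T x) = 0 := hR _ h1
    obtain ⟨z, hz⟩ := (hker (QuotientGroup.mk' T x)).mp (by rw [hpmk, hmkN]; exact hx)
    rw [← hz, hcι] at h2
    have h3 : (fun k => ((z k : ℤ) : F)) = 0 := hi (by rw [h2, map_zero])
    have h4 : z = 0 := by
      ext k
      have := congrFun h3 k
      simpa using this
    have hι0' : ι 0 = 1 := by
      have := hadd 0 0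
      rw [add_zero] at this
      exact (mul_eq_left.mp this.symm)
    rw [h4, hι0'] at hz
    exact ((hmkT x).mp hz.symm).2

end Pool.Agent.H2.Am
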